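import Pool.Agent.Hhelper44.CG.Ident

/-!
# The group algebra of the weight lattice of type `C₃`
-/

set_option autoImplicit false

namespace Pool.Agent.Hhelper44.CG

open Finset

/-- weights of `sp₆` in the coordinates `ε₁, ε₂, ε₃` -/
abbrev Wt := Fin 3 → ℤ

/-- the group algebra `ℂ[ℤ³]` -/
abbrev GA := AddMonoidAlgebra ℂ Wt

/-- the basis element `e^β` -/
noncomputable def ex (β : Wt) : GA := AddMonoidAlgebra.single β 1

lemma ex_add (β γ : Wt) : ex (β + γ) = ex β * ex γ := by
  simp [ex, AddMonoidAlgebra.single_mul_single]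

lemma ex_zero : ex 0 = 1 := rfl

lemma coeff_ex (β γ : Wt) : (ex β).coeff γ = if β = γ then 1 else 0 := by
  classical
  simp [ex, AddMonoidAlgebra.coeff_single, Finsupp.single_apply]

lemma coeff_ex_mul (β γ : Wt) (f : GA) : (ex β * f).coeff γ = f.coeff (γ - β) := by
  classical
  rw [ex, AddMonoidAlgebra.coeff_single_mul_eq_mul_coeff (γ - β), one_mul]
  intro m _
  constructor
  · intro h; rw [← h]; abel
  · intro h; rw [h]; abel

lemma ex_injective : Function.Injective ex := by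
  intro β γ h
  have := congrArg (fun f : GA => f.coeff β) h
  simp only [coeff_ex, if_true] at this
  by_contra hne
  rw [if_neg (fun h => hne h.symm)] at this
  exact one_ne_zero this

lemma ex_ne_one {β : Wt} (h : β ≠ 0) : ex β - 1 ≠ 0 := by
  rw [sub_ne_zero, ← ex_zero]
  exact fun h' => h (ex_injective h')

/-- the coefficient functional as a linear map -/
noncomputable def cf (n : Wt) : GA →ₗ[ℂ] ℂ where
  toFun f := f.coeff n
  map_add' f g := by simp
  map_smul' c f := by simp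

lemma cf_apply (n : Wt) (f : GA) : cf n f = f.coeff n := rfl

/-- the variables -/
noncomputable def X (i : Fin 3) : GA := ex (Pi.single i 1)
/-- inverse variables -/
noncomputable def Y (i : Fin 3) : GA := ex (Pi.single i (-1))

lemma X_mul_Y (i : Fin 3) : X i * Y i = 1 := by
  rw [X, Y, ← ex_add, ← ex_zero]
  congr 1
  ext j
  by_cases h : j = i
  · subst h; simp
  · simp [h]

lemma ex_single_nat (i : Fin 3) (n : ℕ) : ex (Pi.single i (n : ℤ)) = X i ^ n := by
  induction n with
  | zero => simp [ex_zero]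
  | succ n ih =>
    rw [pow_succ, ← ih, X, ← ex_add, ← Pi.single_add]
    push_cast; rfl

lemma ex_single_neg_nat (i : Fin 3) (n : ℕ) : ex (Pi.single i (-(n : ℤ))) = Y i ^ n := by
  induction n with
  | zero => simp [ex_zero]
  | succ n ih =>
    rw [pow_succ, ← ih, Y, ← ex_add, ← Pi.single_add]
    congr 2
    push_cast; ring

lemma ex_eq_prod (β : Wt) :
    ex β = ex (Pi.single 0 (β 0)) * ex (Pi.single 1 (β 1)) * ex (Pi.single 2 (β 2)) := by
  rw [← ex_add, ← ex_add]
  congr 1
  ext i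
  fin_cases i <;> simp

/-- `x_i^m - x_i^{-m}` -/
noncomputable def xa (i : Fin 3) (m : ℤ) : GA := ex (Pi.single i m) - ex (Pi.single i (-m))

/-- the alternant `∑_{w ∈ W} sgn(w) e^{w l}`, written as a determinant -/
noncomputable def alt (l : Wt) : GA :=
  det3 (xa 0 (l 0)) (xa 1 (l 0)) (xa 2 (l 0)) (xa 0 (l 1)) (xa 1 (l 1)) (xa 2 (l 1))
    (xa 0 (l 2)) (xa 1 (l 2)) (xa 2 (l 2))

/-- half sum of the positive roots -/
def rho : Wt := ![3, 2, 1]

lemma xa_nat (i : Fin 3) (m : ℕ) : xa i (m : ℤ) = X i ^ m - Y i ^ m := by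
  rw [xa, ex_single_nat, ex_single_neg_nat]

lemma pow_mul_xa (i : Fin 3) (m n : ℕ) :
    X i ^ (n + m) * xa i (m : ℤ) = X i ^ (n + 2 * m) - X i ^ n := by
  rw [xa_nat, mul_sub, pow_add (X i) n m, mul_assoc (X i ^ n) (X i ^ m) (Y i ^ m), ← mul_pow,
    X_mul_Y, one_pow]
  ring

lemma fac_ne_zero : fac (X 0) (X 1) (X 2) ≠ 0 := by
  have h1 : ∀ i : Fin 3, X i ^ 2 - 1 ≠ 0 := by
    intro i
    rw [← ex_single_nat]
    apply ex_ne_one
    intro h
    have := congrFun h i
    simp at this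
  have h2 : ∀ i j : Fin 3, i ≠ j → X i * X j - 1 ≠ 0 := by
    intro i j hij
    rw [X, X, ← ex_add]
    apply ex_ne_one
    intro h
    have := congrFun h i
    simp [hij] at this
  unfold fac
  exact mul_ne_zero (mul_ne_zero (mul_ne_zero (mul_ne_zero (mul_ne_zero (h1 0) (h1 1)) (h1 2))
    (h2 0 1 (by decide))) (h2 0 2 (by decide))) (h2 1 2 (by decide))

lemma alt_mul_pow (k : ℕ) :
    (X 0 * X 1 * X 2) ^ (k + 3) * alt ![(k : ℤ) + 3, (k : ℤ) + 2, (k : ℤ) + 1] =
      fac (X 0) (X 1) (X 2) * g3 k (X 0) (X 1) (X 2) := by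
  rw [g3_closed]
  have h3 : ∀ i, X i ^ (k + 3) * xa i ((k : ℤ) + 3) = X i ^ (2 * k + 6) - 1 := by
    intro i
    have := pow_mul_xa i (k + 3) 0
    push_cast at this
    rw [zero_add] at this
    rw [this]; ring
  have h2 : ∀ i, X i ^ (k + 3) * xa i ((k : ℤ) + 2) = X i ^ (2 * k + 5) - X i := by
    intro i
    have := pow_mul_xa i (k + 2) 1
    push_cast at this
    rw [show 1 + (k + 2) = k + 3 by ring] at this
    rw [this]; ring
  have h1 : ∀ i, X i ^ (k + 3) * xa i ((k : ℤ) + 1) = X i ^ (2 * k + 4) - X i ^ 2 := by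
    intro i
    have := pow_mul_xa i (k + 1) 2
    push_cast at this
    rw [show 2 + (k + 1) = k + 3 by ring] at this
    rw [this]; ring
  simp only [← h1, ← h2, ← h3]
  simp only [alt, det3]
  simp only [Matrix.cons_val_zero, Matrix.cons_val_one, Matrix.cons_val]
  ring

/-- the character of `V_{k ω₃}` times the Vandermonde determinant -/
lemma key1 (k : ℕ) (ch : GA) (h : ch * alt rho = alt ![(k : ℤ) + 3, (k : ℤ) + 2, (k : ℤ) + 1]) :
    ch * ((X 0 - X 1) * (X 0 - X 2) * (X 1 - X 2)) * (X 0 * X 1 * X 2) ^ k =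
      g3 k (X 0) (X 1) (X 2) := by
  have h0 := alt_mul_pow 0
  have hk := alt_mul_pow k
  rw [g3_zero] at h0
  simp only [Nat.cast_zero, zero_add] at h0
  change (X 0 * X 1 * X 2) ^ 3 * alt rho = _ at h0
  rw [← h] at hk
  apply mul_left_cancel₀ fac_ne_zero
  rw [← hk]
  linear_combination (-(ch * (X 0 * X 1 * X 2) ^ k)) * h0

end Pool.Agent.Hhelper44.CG
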