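import Pool.Agent.Hhelper44.CG.Exist

/-!
# Highest weight vectors via the Borel subalgebra
-/

set_option autoImplicit false
set_option linter.unusedSectionVars false

namespace Pool.Agent.Hhelper44.CG

open Finset Module

attribute [local instance 100] LieRing.ofAssociativeRing

/-- the standard Borel subalgebra -/
def InB (x : g6) : Prop :=
  (∀ i j : Fin 3, j < i → x.1 (.inl i) (.inl j) = 0) ∧ ∀ i j : Fin 3, x.1 (.inr i) (.inl j) = 0

lemma g6_rr (x : g6) (a b : Fin 3) : x.1 (.inr b) (.inr a) = - x.1 (.inl a) (.inl b) := by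
  have h := (mem_g6 x.1).1 x.2
  have h1 := congrFun (congrFun h (.inl b)) (.inr a)
  rw [Matrix.mul_apply, Matrix.mul_apply] at h1
  rw [Fintype.sum_sum_type, Fintype.sum_sum_type] at h1
  simp only [Matrix.J, Matrix.transpose_apply, Matrix.fromBlocks_apply₁₂,
    Matrix.fromBlocks_apply₂₂, Matrix.fromBlocks_apply₁₁, Matrix.zero_apply, mul_zero, zero_mul,
    sum_const_zero, zero_add, add_zero, Matrix.neg_apply, Matrix.one_apply] at h1
  rw [sum_eq_single a, sum_eq_single b] at h1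
  · simp at h1
    exact h1.symm
  · intro c _ hc; rw [if_neg (Ne.symm hc)]; simp
  · intro h'; exact absurd (mem_univ _) h'
  · intro c _ hc; rw [if_neg hc]; simp
  · intro h'; exact absurd (mem_univ _) h'

section

variable {V : Type*} [AddCommGroup V] [Module ℂ V] [LieRingModule g6 V] [LieModule ℂ g6 V]

lemma h_inB (a : Fin 3) : InB (h a) := by
  refine ⟨fun i j hij => ?_, fun i j => ?_⟩
  · rw [h_apply, if_neg]
    simpa using hij.ne'
  · rw [h_apply, if_neg]
    simp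

lemma ee_inB (k : Fin 9) : InB (ee k) := by
  have hval : ∀ i j : I6, (ee k).1 i j = (mm k)⁻¹ * (F (pp k).1 (pp k).2).1 i j := fun i j => rfl
  refine ⟨fun i j hij => ?_, fun i j => ?_⟩
  · rw [hval]
    fin_cases k <;> fin_cases i <;> fin_cases j <;>
      first
      | (exfalso; revert hij; decide)
      | simp [pp, F_ll, F_lr]
  · rw [hval]
    fin_cases k <;> simp [pp, F_ll, F_lr]

lemma h_diag (a b : Fin 3) : (h a).1 (.inl b) (.inl b) = if b = a then 1 else 0 := by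
  rw [h_apply, if_pos rfl, wt]
  by_cases hab : b = a
  · subst hab; simp
  · simp [hab]

lemma ee_diag (k : Fin 9) (b : Fin 3) : (ee k).1 (.inl b) (.inl b) = 0 := by
  have hval : ∀ i j : I6, (ee k).1 i j = (mm k)⁻¹ * (F (pp k).1 (pp k).2).1 i j := fun i j => rfl
  rw [hval]
  fin_cases k <;> fin_cases b <;> simp [pp, F_ll, F_lr]

/-- a Borel eigenvector is a highest weight vector -/
lemma hw_of_borel {κ : Wt} {v : V}
    (hv : ∀ x : g6, InB x → ⁅x, v⁆ = (∑ i, (κ i : ℂ) * x.1 (.inl i) (.inl i)) • v) :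
    v ∈ hwSpace V κ := by
  refine ⟨fun a => ?_, fun k => ?_⟩
  · rw [hv (h a) (h_inB a)]
    congr 1
    simp only [h_diag]
    rw [sum_eq_single a]
    · simp
    · intro b _ hb; rw [if_neg hb, mul_zero]
    · intro h'; exact absurd (mem_univ _) h'
  · rw [hv (ee k) (ee_inB k)]
    simp [ee_diag]

lemma F_lt_lie {κ : Wt} {v : V} (hv : v ∈ hwSpace V κ) (a b : Fin 3) (hab : a < b) :
    ⁅F (.inl a) (.inl b), v⁆ = 0 := by
  have e : ∀ k : Fin 9, ⁅F (pp k).1 (pp k).2, v⁆ = 0 := fun k => by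
    rw [(F_pp k).1, smul_lie, hv.2 k, smul_zero]
  fin_cases a <;> fin_cases b <;>
    first
    | (exfalso; revert hab; decide)
    | exact e 0
    | exact e 1
    | exact e 2

lemma F_lr_lie {κ : Wt} {v : V} (hv : v ∈ hwSpace V κ) (a b : Fin 3) :
    ⁅F (.inl a) (.inr b), v⁆ = 0 := by
  have e : ∀ k : Fin 9, ⁅F (pp k).1 (pp k).2, v⁆ = 0 := fun k => by
    rw [(F_pp k).1, smul_lie, hv.2 k, smul_zero]
  fin_cases a <;> fin_cases b
  · exact e 6
  · exact e 3
  · exact e 4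
  · change ⁅F (.inl 1) (.inr 0), v⁆ = 0
    rw [F_lr_comm]; exact e 3
  · exact e 7
  · exact e 5
  · change ⁅F (.inl 2) (.inr 0), v⁆ = 0
    rw [F_lr_comm]; exact e 4
  · change ⁅F (.inl 2) (.inr 1), v⁆ = 0
    rw [F_lr_comm]; exact e 5
  · exact e 8

/-- a highest weight vector is a Borel eigenvector -/
lemma borel_of_hw {κ : Wt} {v : V} (hv : v ∈ hwSpace V κ) (x : g6) (hx : InB x) :
    ⁅x, v⁆ = (∑ i, (κ i : ℂ) * x.1 (.inl i) (.inl i)) • v := by
  have hxe : x = (2 : ℂ)⁻¹ • P x.1 := by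
    rw [P_self, smul_smul, inv_mul_cancel₀ two_ne_zero, one_smul]
  have t1 : ∀ a b : Fin 3, x.1 (.inl a) (.inl b) • ⁅F (.inl a) (.inl b), v⁆ =
      (if a = b then (κ a : ℂ) * x.1 (.inl a) (.inl a) else 0) • v := by
    intro a b
    rcases lt_trichotomy a b with hab | hab | hab
    · rw [F_lt_lie hv a b hab, smul_zero, if_neg hab.ne, zero_smul]
    · subst hab
      rw [if_pos rfl, show F (.inl a) (.inl a) = h a from rfl, hv.1 a, smul_smul, mul_comm]
    · rw [hx.1 a b hab, zero_smul, if_neg hab.ne', zero_smul]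
  have hsum : ∑ a : Fin 3, ∑ b : Fin 3, x.1 (.inl a) (.inl b) • ⁅F (.inl a) (.inl b), v⁆ =
      (∑ i, (κ i : ℂ) * x.1 (.inl i) (.inl i)) • v := by
    simp only [t1, ← sum_smul]
    congr 1
    refine sum_congr rfl fun a _ => ?_
    rw [sum_ite_eq univ a]
    simp
  have t2 : ∀ a b : Fin 3, x.1 (.inr a) (.inr b) • ⁅F (.inr a) (.inr b), v⁆ =
      x.1 (.inl b) (.inl a) • ⁅F (.inl b) (.inl a), v⁆ := by
    intro a b
    rw [g6_rr, F_rr, neg_lie, neg_smul, smul_neg, neg_neg]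
  have hP : ⁅P x.1, v⁆ = ∑ i : I6, ∑ j : I6, x.1 i j • ⁅F i j, v⁆ := by
    rw [P_expand, sum_lie]
    refine sum_congr rfl fun i _ => ?_
    rw [sum_lie]
    refine sum_congr rfl fun j _ => ?_
    rw [smul_lie]
  have hP2 : ⁅P x.1, v⁆ = (2 : ℂ) • ((∑ i, (κ i : ℂ) * x.1 (.inl i) (.inl i)) • v) := by
    rw [hP, Fintype.sum_sum_type]
    simp only [Fintype.sum_sum_type]
    simp only [F_lr_lie hv, hx.2, smul_zero, zero_smul, sum_const_zero, add_zero, zero_add, t2]
    rw [sum_comm (f := fun (a : Fin 3) (b : Fin 3) =>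
      x.1 (.inl b) (.inl a) • ⁅F (.inl b) (.inl a), v⁆), hsum, two_smul]
  have h3 : ⁅x, v⁆ = (2 : ℂ)⁻¹ • ⁅P x.1, v⁆ := by
    rw [← smul_lie, ← hxe]
  rw [h3, hP2, smul_smul, inv_mul_cancel₀ two_ne_zero, one_smul]

end

/-! ### Support of the character -/

section

variable {V : Type*} [AddCommGroup V] [Module ℂ V] [LieRingModule g6 V] [LieModule ℂ g6 V]
  [FiniteDimensional ℂ V] {ι : Type*} [Fintype ι] {b : Basis ι ℂ V} {w : ι → Wt}

lemma char_bound (hb : IsWB b w) {κ : Wt} {v : V} (hv : v ∈ hwSpace V κ)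
    (hgen : LieSubmodule.lieSpan ℂ g6 {v} = ⊤) (β : Wt) (hβ : ∃ i, κ 0 < |β i|) :
    (∑ i, ex (w i)).coeff β = 0 := by
  have base : ∀ β : Wt, κ 0 < β 0 → (∑ i, ex (w i)).coeff β = 0 := by
    intro β hβ
    rw [← cf_apply, map_sum]
    apply sum_eq_zero
    intro i _
    rw [cf_apply, coeff_ex, if_neg]
    rintro rfl
    exact absurd (hwmod_ple hb hv hgen i).1 (not_le.mpr hβ)
  obtain ⟨s01, s02, -, sn⟩ := char_symm hb
  have h0 : ∀ β : Wt, κ 0 < |β 0| → (∑ i, ex (w i)).coeff β = 0 := by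
    intro β hβ
    rcases lt_abs.mp hβ with h | h
    · exact base β h
    · rw [← coeff_of_act_id (sn 0) β]
      apply base
      simpa [ngt_apply] using h
  obtain ⟨i, hi⟩ := hβ
  fin_cases i
  · exact h0 β hi
  · rw [← coeff_of_act_id s01 β]
    apply h0
    exact hi
  · rw [← coeff_of_act_id s02 β]
    apply h0
    exact hi

end

end Pool.Agent.Hhelper44.CG
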