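import Pool.Agent.Hhelper44.CG.WInv

/-!
# The Weyl character formula and the multiplicity formula
-/

set_option autoImplicit false
set_option linter.unusedSectionVars false

namespace Pool.Agent.Hhelper44.CG

open Finset Module

attribute [local instance 100] LieRing.ofAssociativeRing

/-- the support of `f` lies below `κ` -/
def Below (κ : Wt) (f : GA) : Prop := ∀ γ, f.coeff γ ≠ 0 → ple γ κ

lemma below_prod (s : Finset (Fin 9)) : Below 0 (∏ j ∈ s, (1 - ex (-pr j))) := by
  classical
  induction s using Finset.induction_on with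
  | empty =>
    intro γ hγ
    rw [prod_empty, ← ex_zero, coeff_ex] at hγ
    by_cases h : (0 : Wt) = γ
    · subst h; exact ple_refl 0
    · rw [if_neg h] at hγ; exact absurd rfl hγ
  | insert j s hj ih =>
    intro γ hγ
    rw [prod_insert hj, sub_mul, one_mul, AddMonoidAlgebra.coeff_sub, Finsupp.sub_apply,
      coeff_ex_mul, sub_neg_eq_add] at hγ
    by_cases h1 : (∏ j ∈ s, (1 - ex (-pr j)) : GA).coeff γ = 0
    · rw [h1, zero_sub, neg_ne_zero] at hγ
      exact ple_trans (ple_add_pr γ j) (ih _ hγ)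
    · exact ih _ h1

lemma below_Dl : Below rho Dl := by
  intro γ hγ
  rw [Dl, coeff_ex_mul] at hγ
  obtain ⟨h1, h2, h3⟩ := below_prod univ _ hγ
  simp only [Pi.sub_apply, Pi.zero_apply] at h1 h2 h3
  refine ⟨?_, ?_, ?_⟩ <;> linarith

lemma sdom_rho : SDom rho := by
  refine ⟨?_, ?_, ?_⟩ <;> simp [rho]

lemma Dl_coeff_rho : Dl.coeff rho = 1 := by
  rw [Dl_eq, alt_coeff_sdom rho rho sdom_rho sdom_rho, if_pos rfl]

lemma coeff_Dl_mul {ι : Type*} [Fintype ι] (w : ι → Wt) (γ : Wt) :
    (Dl * ∑ i, ex (w i)).coeff γ = ∑ i, Dl.coeff (γ - w i) := by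
  rw [← cf_apply, mul_sum, map_sum]
  refine sum_congr rfl fun i _ => ?_
  rw [cf_apply, mul_comm, coeff_ex_mul]

/-- if all the weights `≥ ν` equal `ν`, then the coefficient at `ν + ρ` counts the weight `ν` -/
lemma coeff_top {ι : Type*} [Fintype ι] (w : ι → Wt) (ν : Wt) (h : ∀ i, ple ν (w i) → w i = ν) :
    (Dl * ∑ i, ex (w i)).coeff (ν + rho) = (Fintype.card {i // w i = ν} : ℂ) := by
  rw [coeff_Dl_mul]
  have : ∀ i, Dl.coeff (ν + rho - w i) = if w i = ν then 1 else 0 := by
    intro i
    by_cases hi : w i = ν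
    · rw [if_pos hi, hi, add_sub_cancel_left, Dl_coeff_rho]
    · rw [if_neg hi]
      by_contra hne
      apply hi
      apply h
      obtain ⟨h1, h2, h3⟩ := below_Dl _ hne
      simp only [Pi.sub_apply, Pi.add_apply] at h1 h2 h3
      refine ⟨?_, ?_, ?_⟩ <;> linarith
  simp only [this]
  rw [Finset.sum_boole, Fintype.card_subtype]

section

variable {V : Type*} [AddCommGroup V] [Module ℂ V] [LieRingModule g6 V] [LieModule ℂ g6 V]
  [FiniteDimensional ℂ V]

variable {ι : Type*} [Fintype ι] {b : Basis ι ℂ V} {w : ι → Wt}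

open Polynomial in
lemma coeff_Dl_char (hb : IsWB b w) (q : ℂ[X]) (hq : aeval (Cas V) q = 0) (γ : Wt) :
    q.eval ((∑ a, (γ a : ℂ) ^ 2) - 14) * (Dl * ∑ i, ex (w i)).coeff γ = 0 := by
  classical
  have h1 := coeff_Dl_wtr_aeval hb q γ
  rw [hq, wtr_one] at h1
  rw [← h1]
  simp [wtr]

/-- **Weyl character formula** -/
theorem weyl_char (hb : IsWB b w) {κ : Wt} {v : V} (hv : v ∈ hwSpace V κ) (h0 : v ≠ 0)
    (hgen : LieSubmodule.lieSpan ℂ g6 {v} = ⊤) : Dl * ∑ i, ex (w i) = alt (κ + rho) := by
  classical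
  apply eq_alt
  · rw [Dl_eq]; exact (alt_anti rho).mul_symm (char_symm hb)
  · exact hw_sdom hv h0
  · intro γ hγ
    by_cases hκ : κ + rho = γ
    · subst hκ
      rw [if_pos rfl, coeff_top w κ, ← finrank_wtSpace hb, hwmod_unique hb hv h0 hgen, Nat.cast_one]
      intro i hi
      exact ple_antisymm (hwmod_ple hb hv hgen i) hi
    · rw [if_neg hκ]
      by_contra hne
      apply hκ
      symm
      apply norm_strict hγ (hw_sdom hv h0)
      · have : ∃ i, Dl.coeff (γ - w i) ≠ 0 := by
          by_contra h'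
          push Not at h'
          apply hne
          rw [coeff_Dl_mul]
          exact sum_eq_zero fun i _ => h' i
        obtain ⟨i, hi⟩ := this
        obtain ⟨h1, h2, h3⟩ := below_Dl _ hi
        obtain ⟨g1, g2, g3⟩ := hwmod_ple hb hv hgen i
        simp only [Pi.sub_apply] at h1 h2 h3
        refine ⟨?_, ?_, ?_⟩ <;> simp only [Pi.add_apply] <;> linarith
      · have h1 := coeff_Dl_char hb (Polynomial.X - Polynomial.C (cc κ)) (by
          rw [map_sub, Polynomial.aeval_X, Polynomial.aeval_C]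
          ext u
          rw [LinearMap.sub_apply, Module.algebraMap_end_apply, hwmod_Cas hv hgen u, sub_self,
            LinearMap.zero_apply]) γ
        rw [mul_eq_zero] at h1
        have h2 := h1.resolve_right hne
        rw [Polynomial.eval_sub, Polynomial.eval_X, Polynomial.eval_C, cc] at h2
        have h3 : (∑ a, (γ a : ℂ) ^ 2) = ∑ a, ((κ + rho) a : ℂ) ^ 2 := by linear_combination h2
        exact_mod_cast h3

end

end Pool.Agent.Hhelper44.CG
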