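import Pool.Agent.Hhelper44.CG.Alg

/-!
# The coefficient computation
-/

set_option autoImplicit false

namespace Pool.Agent.Hhelper44.CG

open Finset

/-- number of pairs `(i, j)` of natural numbers with `i + j ≤ t` and `i ≡ j ≡ t (mod 2)` -/
def cnt (t : ℕ) : ℕ :=
  ∑ i ∈ range (t + 1), ∑ j ∈ range (t - i + 1), if i % 2 = t % 2 ∧ j % 2 = t % 2 then 1 else 0

lemma sum_even (m : ℕ) : ∑ j ∈ range (2 * m + 1), (if j % 2 = 0 then 1 else 0) = m + 1 := by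
  induction m with
  | zero => decide
  | succ m ih =>
    rw [show 2 * (m + 1) + 1 = (2 * m + 1) + 1 + 1 by ring, sum_range_succ, sum_range_succ, ih,
      if_neg (by omega), if_pos (by omega)]

lemma sum_odd (m : ℕ) : ∑ j ∈ range (2 * m + 1), (if j % 2 = 1 then 1 else 0) = m := by
  induction m with
  | zero => decide
  | succ m ih =>
    rw [show 2 * (m + 1) + 1 = (2 * m + 1) + 1 + 1 by ring, sum_range_succ, sum_range_succ, ih,
      if_pos (by omega), if_neg (by omega)]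

lemma cnt_even (s : ℕ) : 2 * cnt (2 * s) = (s + 1) * (s + 2) := by
  induction s with
  | zero => decide
  | succ s ih =>
    have h : cnt (2 * (s + 1)) = cnt (2 * s) + (s + 2) := by
      unfold cnt
      rw [show 2 * (s + 1) + 1 = (2 * s + 1) + 1 + 1 by ring, sum_range_succ', sum_range_succ']
      have e1 : ∑ k ∈ range (2 * s + 1), ∑ j ∈ range (2 * (s + 1) - (k + 1 + 1) + 1),
          (if (k + 1 + 1) % 2 = 2 * (s + 1) % 2 ∧ j % 2 = 2 * (s + 1) % 2 then 1 else 0)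
          = ∑ i ∈ range (2 * s + 1), ∑ j ∈ range (2 * s - i + 1),
            if i % 2 = 2 * s % 2 ∧ j % 2 = 2 * s % 2 then 1 else 0 := by
        refine sum_congr rfl fun i _ => ?_
        rw [show 2 * (s + 1) - (i + 1 + 1) = 2 * s - i by omega]
        refine sum_congr rfl fun j _ => ?_
        have : ((i + 1 + 1) % 2 = 2 * (s + 1) % 2 ∧ j % 2 = 2 * (s + 1) % 2) ↔
          (i % 2 = 2 * s % 2 ∧ j % 2 = 2 * s % 2) := by omega
        simp only [this]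
      have e2 : ∑ j ∈ range (2 * (s + 1) - (0 + 1) + 1),
          (if (0 + 1) % 2 = 2 * (s + 1) % 2 ∧ j % 2 = 2 * (s + 1) % 2 then 1 else 0) = 0 := by
        refine sum_eq_zero fun j _ => ?_
        rw [if_neg (by omega)]
      have e3 : ∑ j ∈ range (2 * (s + 1) - 0 + 1),
          (if 0 % 2 = 2 * (s + 1) % 2 ∧ j % 2 = 2 * (s + 1) % 2 then 1 else 0) = s + 1 + 1 := by
        rw [Nat.sub_zero]
        refine Eq.trans (sum_congr rfl fun j _ => ?_) (sum_even (s + 1))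
        have : (0 % 2 = 2 * (s + 1) % 2 ∧ j % 2 = 2 * (s + 1) % 2) ↔ j % 2 = 0 := by omega
        simp only [this]
      rw [e1, e2, e3]
      ring
    rw [h, mul_add, ih]; ring

lemma cnt_odd (s : ℕ) : 2 * cnt (2 * s + 1) = s * (s + 1) := by
  induction s with
  | zero => decide
  | succ s ih =>
    have h : cnt (2 * (s + 1) + 1) = cnt (2 * s + 1) + (s + 1) := by
      unfold cnt
      rw [show 2 * (s + 1) + 1 + 1 = (2 * s + 1 + 1) + 1 + 1 by ring, sum_range_succ',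
        sum_range_succ']
      have e1 : ∑ k ∈ range (2 * s + 1 + 1), ∑ j ∈ range (2 * (s + 1) + 1 - (k + 1 + 1) + 1),
          (if (k + 1 + 1) % 2 = (2 * (s + 1) + 1) % 2 ∧ j % 2 = (2 * (s + 1) + 1) % 2 then 1 else 0)
          = ∑ i ∈ range (2 * s + 1 + 1), ∑ j ∈ range (2 * s + 1 - i + 1),
            if i % 2 = (2 * s + 1) % 2 ∧ j % 2 = (2 * s + 1) % 2 then 1 else 0 := by
        refine sum_congr rfl fun i _ => ?_
        rw [show 2 * (s + 1) + 1 - (i + 1 + 1) = 2 * s + 1 - i by omega]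
        refine sum_congr rfl fun j _ => ?_
        have : ((i + 1 + 1) % 2 = (2 * (s + 1) + 1) % 2 ∧ j % 2 = (2 * (s + 1) + 1) % 2) ↔
          (i % 2 = (2 * s + 1) % 2 ∧ j % 2 = (2 * s + 1) % 2) := by omega
        simp only [this]
      have e2 : ∑ j ∈ range (2 * (s + 1) + 1 - (0 + 1) + 1),
          (if (0 + 1) % 2 = (2 * (s + 1) + 1) % 2 ∧ j % 2 = (2 * (s + 1) + 1) % 2 then 1 else 0)
          = s + 1 := by
        rw [show 2 * (s + 1) + 1 - (0 + 1) = 2 * (s + 1) by omega]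
        refine Eq.trans (sum_congr rfl fun j _ => ?_) (sum_odd (s + 1))
        have : ((0 + 1) % 2 = (2 * (s + 1) + 1) % 2 ∧ j % 2 = (2 * (s + 1) + 1) % 2) ↔
          j % 2 = 1 := by omega
        simp only [this]
      have e3 : ∑ j ∈ range (2 * (s + 1) + 1 - 0 + 1),
          (if 0 % 2 = (2 * (s + 1) + 1) % 2 ∧ j % 2 = (2 * (s + 1) + 1) % 2 then 1 else 0) = 0 := by
        refine sum_eq_zero fun j _ => ?_
        rw [if_neg (by omega)]
      rw [e1, e2, e3]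
      ring
    rw [h, mul_add, ih]; ring

/-- a monomial -/
lemma mono_eq (u v w : ℕ) : X 0 ^ u * X 1 ^ v * X 2 ^ w = ex ![(u : ℤ), v, w] := by
  rw [ex_eq_prod]
  simp [ex_single_nat]

lemma cf_mono (n : Wt) (u v w : ℕ) :
    cf n (X 0 ^ u * X 1 ^ v * X 2 ^ w) = if (n 0 = u ∧ n 1 = v ∧ n 2 = w) then 1 else 0 := by
  rw [mono_eq, cf_apply, coeff_ex]
  refine if_congr ?_ rfl rfl
  constructor
  · rintro rfl; simp
  · rintro ⟨h0, h1, h2⟩
    ext i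
    fin_cases i <;> simp [h0, h1, h2]

lemma g3_expand {A : Type*} [CommRing A] (k : ℕ) (a b c : A) : g3 k a b c =
    ∑ p ∈ range (k + 1), ∑ q ∈ range (p + 1), ∑ r ∈ range (q + 1),
      (a ^ (2 * p + 2) * b ^ (2 * q + 1) * c ^ (2 * r) - a ^ (2 * p + 2) * b ^ (2 * r) * c ^ (2 * q + 1)
      + a ^ (2 * r) * b ^ (2 * p + 2) * c ^ (2 * q + 1) - a ^ (2 * q + 1) * b ^ (2 * p + 2) * c ^ (2 * r)
      + a ^ (2 * q + 1) * b ^ (2 * r) * c ^ (2 * p + 2)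
      - a ^ (2 * r) * b ^ (2 * q + 1) * c ^ (2 * p + 2)) := by
  unfold g3 g2
  refine sum_congr rfl fun p _ => ?_
  rw [mul_sum, mul_sum, mul_sum, ← sum_add_distrib, ← sum_add_distrib]
  refine sum_congr rfl fun q _ => ?_
  rw [mul_sum, mul_sum, mul_sum, ← sum_add_distrib, ← sum_add_distrib]
  refine sum_congr rfl fun r _ => ?_
  ring

/-- the target weight `t ν + ρ` -/
def tgt (t : ℕ) : Wt := ![5 * (t : ℤ) + 3, 3 * (t : ℤ) + 2, (t : ℤ) + 1]

lemma inner_count (t i j : ℕ) (hij : i + j ≤ t) :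
    (∑ p ∈ range (3 * t + 1), ∑ q ∈ range (p + 1), ∑ r ∈ range (q + 1),
      (if (i + 2 * p = 5 * t ∧ j + 2 * q = 3 * t ∧ i + j = 2 * r) then (1 : ℂ) else 0)) =
    if i % 2 = t % 2 ∧ j % 2 = t % 2 then 1 else 0 := by
  by_cases h : i % 2 = t % 2 ∧ j % 2 = t % 2
  · rw [if_pos h]
    obtain ⟨hi, hj⟩ := h
    rw [sum_eq_single ((5 * t - i) / 2), sum_eq_single ((3 * t - j) / 2),
      sum_eq_single ((i + j) / 2)]
    · rw [if_pos]
      refine ⟨by omega, by omega, by omega⟩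
    · intro r _ hr
      rw [if_neg]; omega
    · intro hr
      exfalso; apply hr; rw [mem_range]; omega
    · intro q _ hq
      refine sum_eq_zero fun r _ => ?_
      rw [if_neg]; omega
    · intro hq
      exfalso; apply hq; rw [mem_range]; omega
    · intro p _ hp
      refine sum_eq_zero fun q _ => sum_eq_zero fun r _ => ?_
      rw [if_neg]; omega
    · intro hp
      exfalso; apply hp; rw [mem_range]; omega
  · rw [if_neg h]
    refine sum_eq_zero fun p _ => sum_eq_zero fun q _ => sum_eq_zero fun r _ => ?_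
    rw [if_neg]; omega

lemma cf_final (t : ℕ) :
    cf (tgt t) ((X 0 * X 1 * X 2) * h3 t (X 0) (X 1) (X 2) * g3 (3 * t) (X 0) (X 1) (X 2)) =
      (cnt t : ℂ) := by
  rw [g3_expand, h3, mul_assoc, sum_mul, mul_sum, map_sum, cnt, Nat.cast_sum]
  refine sum_congr rfl fun i hi => ?_
  rw [sum_mul, mul_sum, map_sum, Nat.cast_sum]
  refine sum_congr rfl fun j hj => ?_
  rw [mem_range] at hi hj
  have hij : i + j ≤ t := by omega
  rw [Nat.cast_ite, Nat.cast_one, Nat.cast_zero, ← inner_count t i j hij, mul_sum, mul_sum, map_sum]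
  refine sum_congr rfl fun p hp => ?_
  rw [mul_sum, mul_sum, map_sum]
  refine sum_congr rfl fun q hq => ?_
  rw [mul_sum, mul_sum, map_sum]
  refine sum_congr rfl fun r hr => ?_
  rw [mem_range] at hp hq hr
  have hexp : X 0 * X 1 * X 2 * (X 0 ^ i * X 1 ^ j * X 2 ^ (t - i - j) *
      (X 0 ^ (2 * p + 2) * X 1 ^ (2 * q + 1) * X 2 ^ (2 * r)
      - X 0 ^ (2 * p + 2) * X 1 ^ (2 * r) * X 2 ^ (2 * q + 1)
      + X 0 ^ (2 * r) * X 1 ^ (2 * p + 2) * X 2 ^ (2 * q + 1)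
      - X 0 ^ (2 * q + 1) * X 1 ^ (2 * p + 2) * X 2 ^ (2 * r)
      + X 0 ^ (2 * q + 1) * X 1 ^ (2 * r) * X 2 ^ (2 * p + 2)
      - X 0 ^ (2 * r) * X 1 ^ (2 * q + 1) * X 2 ^ (2 * p + 2)))
      = X 0 ^ (i + 2 * p + 3) * X 1 ^ (j + 2 * q + 2) * X 2 ^ (t - i - j + 2 * r + 1)
      - X 0 ^ (i + 2 * p + 3) * X 1 ^ (j + 2 * r + 1) * X 2 ^ (t - i - j + 2 * q + 2)
      + X 0 ^ (i + 2 * r + 1) * X 1 ^ (j + 2 * p + 3) * X 2 ^ (t - i - j + 2 * q + 2)
      - X 0 ^ (i + 2 * q + 2) * X 1 ^ (j + 2 * p + 3) * X 2 ^ (t - i - j + 2 * r + 1)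
      + X 0 ^ (i + 2 * q + 2) * X 1 ^ (j + 2 * r + 1) * X 2 ^ (t - i - j + 2 * p + 3)
      - X 0 ^ (i + 2 * r + 1) * X 1 ^ (j + 2 * q + 2) * X 2 ^ (t - i - j + 2 * p + 3) := by
    ring
  rw [hexp]
  simp only [map_add, map_sub, cf_mono]
  have e0 : tgt t 0 = 5 * (t : ℤ) + 3 := rfl
  have e1 : tgt t 1 = 3 * (t : ℤ) + 2 := rfl
  have e2 : tgt t 2 = (t : ℤ) + 1 := rfl
  rw [e0, e1, e2]
  rw [if_neg (c := 5 * (t : ℤ) + 3 = ((i + 2 * p + 3 : ℕ) : ℤ) ∧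
      3 * (t : ℤ) + 2 = ((j + 2 * r + 1 : ℕ) : ℤ) ∧
      (t : ℤ) + 1 = ((t - i - j + 2 * q + 2 : ℕ) : ℤ)) (by omega),
    if_neg (c := 5 * (t : ℤ) + 3 = ((i + 2 * r + 1 : ℕ) : ℤ) ∧
      3 * (t : ℤ) + 2 = ((j + 2 * p + 3 : ℕ) : ℤ) ∧
      (t : ℤ) + 1 = ((t - i - j + 2 * q + 2 : ℕ) : ℤ)) (by omega),
    if_neg (c := 5 * (t : ℤ) + 3 = ((i + 2 * q + 2 : ℕ) : ℤ) ∧
      3 * (t : ℤ) + 2 = ((j + 2 * p + 3 : ℕ) : ℤ) ∧
      (t : ℤ) + 1 = ((t - i - j + 2 * r + 1 : ℕ) : ℤ)) (by omega),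
    if_neg (c := 5 * (t : ℤ) + 3 = ((i + 2 * q + 2 : ℕ) : ℤ) ∧
      3 * (t : ℤ) + 2 = ((j + 2 * r + 1 : ℕ) : ℤ) ∧
      (t : ℤ) + 1 = ((t - i - j + 2 * p + 3 : ℕ) : ℤ)) (by omega),
    if_neg (c := 5 * (t : ℤ) + 3 = ((i + 2 * r + 1 : ℕ) : ℤ) ∧
      3 * (t : ℤ) + 2 = ((j + 2 * q + 2 : ℕ) : ℤ) ∧
      (t : ℤ) + 1 = ((t - i - j + 2 * p + 3 : ℕ) : ℤ)) (by omega)]
  simp only [sub_zero, add_zero]
  refine if_congr ?_ rfl rfl
  omega

/-- the functional `f ↦ (f * ch).coeff n` -/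
noncomputable def phi (n : Wt) (ch : GA) : GA →ₗ[ℂ] ℂ :=
  (cf n).comp (LinearMap.mulRight ℂ ch)

lemma phi_apply (n : Wt) (ch f : GA) : phi n ch f = (f * ch).coeff n := rfl

lemma phi_ex (n : Wt) (ch : GA) (γ : Wt) : phi n ch (ex γ) = ch.coeff (n - γ) := by
  rw [phi_apply, coeff_ex_mul]

lemma phi_xa (t : ℕ) (ch : GA) (hb : ∀ β : Wt, (∃ i, 3 * (t : ℤ) < |β i|) → ch.coeff β = 0)
    (m : Wt) (hm : ∀ i, 3 * (t : ℤ) + 1 ≤ m i) :
    phi (tgt t) ch (xa 0 (m 0) * xa 1 (m 1) * xa 2 (m 2)) =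
      phi (tgt t) ch (ex (Pi.single 0 (m 0)) * ex (Pi.single 1 (m 1)) * ex (Pi.single 2 (m 2))) := by
  have e0 : tgt t 0 = 5 * (t : ℤ) + 3 := rfl
  have e1 : tgt t 1 = 3 * (t : ℤ) + 2 := rfl
  have e2 : tgt t 2 = (t : ℤ) + 1 := rfl
  have key : ∀ γ : Wt, (∃ i, γ i = - m i) → phi (tgt t) ch (ex γ) = 0 := by
    rintro γ ⟨i, hi⟩
    rw [phi_ex]
    apply hb
    refine ⟨i, ?_⟩
    rw [lt_abs]
    left
    have := hm i
    rw [Pi.sub_apply, hi]
    fin_cases i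
    · simp only [Fin.zero_eta] at *; rw [e0]; linarith
    · simp only [Fin.mk_one] at *; rw [e1]; linarith
    · simp only [Fin.reduceFinMk] at *; rw [e2]; linarith
  have expand : xa 0 (m 0) * xa 1 (m 1) * xa 2 (m 2) =
      ex (Pi.single 0 (m 0)) * ex (Pi.single 1 (m 1)) * ex (Pi.single 2 (m 2))
      - ex (Pi.single 0 (-m 0) + Pi.single 1 (m 1) + Pi.single 2 (m 2))
      - ex (Pi.single 0 (m 0) + Pi.single 1 (-m 1) + Pi.single 2 (m 2))
      - ex (Pi.single 0 (m 0) + Pi.single 1 (m 1) + Pi.single 2 (-m 2))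
      + ex (Pi.single 0 (-m 0) + Pi.single 1 (-m 1) + Pi.single 2 (m 2))
      + ex (Pi.single 0 (-m 0) + Pi.single 1 (m 1) + Pi.single 2 (-m 2))
      + ex (Pi.single 0 (m 0) + Pi.single 1 (-m 1) + Pi.single 2 (-m 2))
      - ex (Pi.single 0 (-m 0) + Pi.single 1 (-m 1) + Pi.single 2 (-m 2)) := by
    simp only [xa, ex_add]
    ring
  have k : ∀ a b c : ℤ, (a = -m 0 ∨ b = -m 1 ∨ c = -m 2) →
      phi (tgt t) ch (ex (Pi.single 0 a + Pi.single 1 b + Pi.single 2 c)) = 0 := by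
    rintro a b c (h | h | h)
    · exact key _ ⟨0, by simp [h]⟩
    · exact key _ ⟨1, by simp [h]⟩
    · exact key _ ⟨2, by simp [h]⟩
  rw [expand]
  simp only [map_add, map_sub]
  rw [k (-m 0) (m 1) (m 2) (by simp), k (m 0) (-m 1) (m 2) (by simp),
    k (m 0) (m 1) (-m 2) (by simp), k (-m 0) (-m 1) (m 2) (by simp),
    k (-m 0) (m 1) (-m 2) (by simp), k (m 0) (-m 1) (-m 2) (by simp),
    k (-m 0) (-m 1) (-m 2) (by simp)]
  ring

/-- the weight `t λ + ρ` -/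
def src (t : ℕ) : Wt := ![4 * (t : ℤ) + 3, 3 * (t : ℤ) + 2, 3 * (t : ℤ) + 1]

theorem key2 (t : ℕ) (ch : GA)
    (h : ch * alt rho = alt ![3 * (t : ℤ) + 3, 3 * (t : ℤ) + 2, 3 * (t : ℤ) + 1])
    (hb : ∀ β : Wt, (∃ i, 3 * (t : ℤ) < |β i|) → ch.coeff β = 0) :
    (alt (src t) * ch).coeff (tgt t) = (cnt t : ℂ) := by
  have h1 := key1 (3 * t) ch (by rw [h]; push_cast; rfl)
  rw [← phi_apply]
  have s0 : src t 0 = 4 * (t : ℤ) + 3 := rfl
  have s1 : src t 1 = 3 * (t : ℤ) + 2 := rfl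
  have s2 : src t 2 = 3 * (t : ℤ) + 1 := rfl
  have g0 : 3 * (t : ℤ) + 1 ≤ src t 0 := by rw [s0]; linarith
  have g1 : 3 * (t : ℤ) + 1 ≤ src t 1 := by rw [s1]; linarith
  have g2 : 3 * (t : ℤ) + 1 ≤ src t 2 := by rw [s2]
  have gen : ∀ a b c : ℤ, 3 * (t : ℤ) + 1 ≤ a → 3 * (t : ℤ) + 1 ≤ b → 3 * (t : ℤ) + 1 ≤ c →
      phi (tgt t) ch (xa 0 a * xa 1 b * xa 2 c) =
      phi (tgt t) ch (ex (Pi.single 0 a) * ex (Pi.single 1 b) * ex (Pi.single 2 c)) := by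
    intro a b c ha hb' hc
    have := phi_xa t ch hb ![a, b, c] (by intro i; fin_cases i <;> simpa)
    simpa using this
  have e1 : alt (src t) =
      xa 0 (src t 0) * xa 1 (src t 1) * xa 2 (src t 2) - xa 0 (src t 0) * xa 1 (src t 2) * xa 2 (src t 1)
      + xa 0 (src t 2) * xa 1 (src t 0) * xa 2 (src t 1) - xa 0 (src t 1) * xa 1 (src t 0) * xa 2 (src t 2)
      + xa 0 (src t 1) * xa 1 (src t 2) * xa 2 (src t 0)
      - xa 0 (src t 2) * xa 1 (src t 1) * xa 2 (src t 0) := by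
    simp only [alt, det3]; ring
  rw [e1]
  simp only [map_add, map_sub]
  rw [gen _ _ _ g0 g1 g2, gen _ _ _ g0 g2 g1, gen _ _ _ g2 g0 g1, gen _ _ _ g1 g0 g2,
    gen _ _ _ g1 g2 g0, gen _ _ _ g2 g1 g0]
  simp only [← map_add, ← map_sub]
  rw [phi_apply, ← cf_final t, ← cf_apply]
  refine congrArg (cf (tgt t)) ?_
  have t0 : ∀ i : Fin 3, ex (Pi.single i (src t 0)) = X i ^ (4 * t + 3) := by
    intro i; rw [s0, ← ex_single_nat]; push_cast; rfl
  have t1 : ∀ i : Fin 3, ex (Pi.single i (src t 1)) = X i ^ (3 * t + 2) := by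
    intro i; rw [s1, ← ex_single_nat]; push_cast; rfl
  have t2 : ∀ i : Fin 3, ex (Pi.single i (src t 2)) = X i ^ (3 * t + 1) := by
    intro i; rw [s2, ← ex_single_nat]; push_cast; rfl
  simp only [t0, t1, t2]
  have h2 := h3_mul t (X 0) (X 1) (X 2)
  rw [← h1]
  linear_combination (-(ch * (X 0 * X 1 * X 2) ^ (3 * t + 1))) * h2

end Pool.Agent.Hhelper44.CG
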