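import Pool.Agent.Hhelper44.CG.Alg

/-!
# The Weyl denominator: derivations, the Laplacian, symmetry
-/

set_option autoImplicit false

namespace Pool.Agent.Hhelper44.CG

open Finset

lemma ga_ext {f g : GA} (h : ∀ β, f.coeff β = g.coeff β) : f = g := by
  apply AddMonoidAlgebra.coeff_injective
  ext β
  exact h β

lemma ga_induction {p : GA → Prop} (f : GA) (h0 : p 0) (hadd : ∀ f g, p f → p g → p (f + g))
    (hsmul : ∀ (c : ℂ) (β : Wt), p (c • ex β)) : p f := by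
  induction f using AddMonoidAlgebra.induction_linear with
  | zero => exact h0
  | add f g hf hg => exact hadd f g hf hg
  | single β c =>
    have : (AddMonoidAlgebra.single β c : GA) = c • ex β := by
      rw [ex, AddMonoidAlgebra.smul_single, smul_eq_mul, mul_one]
    rw [this]
    exact hsmul c β

/-- multiply the coefficients pointwise by a function -/
noncomputable def dmul (φ : Wt → ℂ) : GA →ₗ[ℂ] GA where
  toFun f := AddMonoidAlgebra.ofCoeff (Finsupp.onFinset f.coeff.support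
    (fun β => φ β * f.coeff β) (fun β h => by
      rw [Finsupp.mem_support_iff]; exact right_ne_zero_of_mul h))
  map_add' f g := by
    apply ga_ext; intro β
    simp [mul_add]
  map_smul' c f := by
    apply ga_ext; intro β
    simp only [Finsupp.onFinset_apply, AddMonoidAlgebra.coeff_smul, Finsupp.smul_apply,
      smul_eq_mul, RingHom.id_apply]
    ring

lemma dmul_coeff (φ : Wt → ℂ) (f : GA) (β : Wt) : (dmul φ f).coeff β = φ β * f.coeff β := rfl

lemma dmul_ex (φ : Wt → ℂ) (β : Wt) : dmul φ (ex β) = φ β • ex β := by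
  apply ga_ext; intro γ
  rw [dmul_coeff, AddMonoidAlgebra.coeff_smul, Finsupp.smul_apply, coeff_ex, smul_eq_mul]
  split_ifs with h
  · rw [h]
  · simp

/-- the derivation `∂_a` -/
noncomputable def D (a : Fin 3) : GA →ₗ[ℂ] GA := dmul (fun β => (β a : ℂ))

lemma D_ex (a : Fin 3) (β : Wt) : D a (ex β) = (β a : ℂ) • ex β := dmul_ex _ _

lemma D_coeff (a : Fin 3) (f : GA) (β : Wt) : (D a f).coeff β = (β a : ℂ) * f.coeff β := rfl

lemma D_mul (a : Fin 3) (f g : GA) : D a (f * g) = D a f * g + f * D a g := by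
  induction f using ga_induction with
  | h0 => simp
  | hadd f₁ f₂ h₁ h₂ =>
    rw [add_mul, map_add, h₁, h₂, map_add]; ring
  | hsmul c β =>
    apply ga_ext; intro γ
    simp only [smul_mul_assoc, map_smul, D_ex, AddMonoidAlgebra.coeff_add, Finsupp.add_apply,
      AddMonoidAlgebra.coeff_smul, Finsupp.smul_apply, smul_eq_mul, D_coeff, coeff_ex_mul,
      Pi.sub_apply, Int.cast_sub]
    ring

lemma D_one (a : Fin 3) : D a 1 = 0 := by
  rw [← ex_zero, D_ex]; simp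

lemma D_sum {ι : Type*} (a : Fin 3) (s : Finset ι) (f : ι → GA) :
    D a (∑ i ∈ s, f i) = ∑ i ∈ s, D a (f i) := map_sum _ _ _

lemma D_prod {ι : Type*} [DecidableEq ι] (a : Fin 3) (s : Finset ι) (f : ι → GA) :
    D a (∏ i ∈ s, f i) = ∑ i ∈ s, (∏ j ∈ s.erase i, f j) * D a (f i) := by
  induction s using Finset.induction_on with
  | empty => simp [D_one]
  | insert i s hi ih =>
    rw [prod_insert hi, D_mul, ih, sum_insert hi, erase_insert hi, mul_sum]
    congr 1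
    · ring
    · refine sum_congr rfl fun j hj => ?_
      have hij : i ≠ j := fun h => hi (h ▸ hj)
      rw [erase_insert_of_ne hij, prod_insert (fun h => hi (mem_of_mem_erase h))]
      ring

/-- the Laplacian -/
noncomputable def Lap : GA →ₗ[ℂ] GA := dmul (fun β => ∑ a, (β a : ℂ) ^ 2)

lemma Lap_coeff (f : GA) (β : Wt) : (Lap f).coeff β = (∑ a, (β a : ℂ) ^ 2) * f.coeff β := rfl

lemma Lap_eq (f : GA) : Lap f = ∑ a, D a (D a f) := by
  apply ga_ext; intro β
  rw [Lap_coeff]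
  simp only [Fin.sum_univ_three, AddMonoidAlgebra.coeff_add, Finsupp.add_apply, D_coeff]
  ring

lemma Lap_ex (β : Wt) : Lap (ex β) = (∑ a, (β a : ℂ) ^ 2) • ex β := dmul_ex _ _

lemma Lap_mul (f g : GA) :
    Lap (f * g) = Lap f * g + 2 * ∑ a, D a f * D a g + f * Lap g := by
  simp only [Lap_eq, Fin.sum_univ_three, D_mul, map_add]
  ring

/-- the positive roots of `C₃` -/
def pr : Fin 9 → Wt :=
  ![![1, -1, 0], ![1, 0, -1], ![0, 1, -1], ![1, 1, 0], ![1, 0, 1], ![0, 1, 1],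
    ![2, 0, 0], ![0, 2, 0], ![0, 0, 2]]

/-- `Δ` divided by `1 - e^{-α_i}` -/
noncomputable def G (i : Fin 9) : GA := ex rho * ∏ j ∈ univ.erase i, (1 - ex (-pr j))

/-- the Weyl denominator as a product -/
noncomputable def Dl : GA := ex rho * ∏ j, (1 - ex (-pr j))

lemma G_mul (i : Fin 9) : G i * (1 - ex (-pr i)) = Dl := by
  rw [G, Dl, mul_assoc, prod_erase_mul univ (fun j => (1 - ex (-pr j))) (mem_univ i)]

lemma sum_pr (a : Fin 3) : ∑ i, (pr i a : ℂ) = 2 * (rho a : ℂ) := by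
  fin_cases a <;> simp [Fin.sum_univ_succ, pr, rho] <;> norm_num

lemma D_Dl (a : Fin 3) : 2 * D a Dl = ∑ i, (pr i a : ℂ) • ((1 + ex (-pr i)) * G i) := by
  have h1 : D a Dl = (rho a : ℂ) • Dl + ∑ i, (pr i a : ℂ) • (ex (-pr i) * G i) := by
    unfold Dl
    rw [D_mul, D_ex, D_prod, smul_mul_assoc, mul_sum]
    congr 1
    refine sum_congr rfl fun i _ => ?_
    rw [map_sub, D_one, D_ex, zero_sub, Pi.neg_apply, Int.cast_neg, neg_smul, neg_neg, G,
      mul_smul_comm, mul_smul_comm]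
    congr 1
    ring
  have h2 : (2 : GA) * ((rho a : ℂ) • Dl) = ∑ i, (pr i a : ℂ) • ((1 - ex (-pr i)) * G i) := by
    have : ∀ i, (1 - ex (-pr i)) * G i = Dl := fun i => by rw [mul_comm]; exact G_mul i
    simp only [this]
    rw [← sum_smul, sum_pr, mul_smul, two_smul, two_mul]
  rw [h1, mul_add, h2, mul_sum, ← sum_add_distrib]
  refine sum_congr rfl fun i _ => ?_
  rw [mul_smul_comm, ← smul_add]
  congr 1
  ring

lemma Dl_eq : Dl = alt rho := by
  have hx : ∀ i, X i * Y i = 1 := X_mul_Y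
  have e0 : ex rho = X 0 ^ 3 * X 1 ^ 2 * X 2 := by
    rw [ex_eq_prod]
    have h0 : rho 0 = ((3 : ℕ) : ℤ) := rfl
    have h1 : rho 1 = ((2 : ℕ) : ℤ) := rfl
    have h2 : rho 2 = ((1 : ℕ) : ℤ) := rfl
    rw [h0, h1, h2, ex_single_nat, ex_single_nat, ex_single_nat, pow_one]
  have p0 : ex (-pr 0) = Y 0 * X 1 := by
    rw [X, Y, ← ex_add]; congr 1; ext i; fin_cases i <;> simp [pr]
  have p1 : ex (-pr 1) = Y 0 * X 2 := by
    rw [X, Y, ← ex_add]; congr 1; ext i; fin_cases i <;> simp [pr]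
  have p2 : ex (-pr 2) = Y 1 * X 2 := by
    rw [X, Y, ← ex_add]; congr 1; ext i; fin_cases i <;> simp [pr]
  have p3 : ex (-pr 3) = Y 0 * Y 1 := by
    rw [Y, Y, ← ex_add]; congr 1; ext i; fin_cases i <;> simp [pr]
  have p4 : ex (-pr 4) = Y 0 * Y 2 := by
    rw [Y, Y, ← ex_add]; congr 1; ext i; fin_cases i <;> simp [pr]
  have p5 : ex (-pr 5) = Y 1 * Y 2 := by
    rw [Y, Y, ← ex_add]; congr 1; ext i; fin_cases i <;> simp [pr]
  have p6 : ex (-pr 6) = Y 0 * Y 0 := by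
    rw [Y, ← ex_add]; congr 1; ext i; fin_cases i <;> simp [pr]
  have p7 : ex (-pr 7) = Y 1 * Y 1 := by
    rw [Y, ← ex_add]; congr 1; ext i; fin_cases i <;> simp [pr]
  have p8 : ex (-pr 8) = Y 2 * Y 2 := by
    rw [Y, ← ex_add]; congr 1; ext i; fin_cases i <;> simp [pr]
  have z : ∀ i j, X i * ((1 - Y i * X j) * (1 - Y i * Y j)) = (X i + Y i) - (X j + Y j) := by
    intro i j
    linear_combination (Y i - X j - Y j) * hx i + (X i * Y i * Y i) * hx j
  have y : ∀ i, X i * (1 - Y i * Y i) = X i - Y i := by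
    intro i
    linear_combination (-Y i) * hx i
  have hprod : Dl = (X 0 - Y 0) * (X 1 - Y 1) * (X 2 - Y 2) *
      (((X 0 + Y 0) - (X 1 + Y 1)) * ((X 0 + Y 0) - (X 2 + Y 2)) * ((X 1 + Y 1) - (X 2 + Y 2))) := by
    rw [← z 0 1, ← z 0 2, ← z 1 2, ← y 0, ← y 1, ← y 2]
    unfold Dl
    rw [e0]
    have : ∏ j, (1 - ex (-pr j)) = (1 - Y 0 * X 1) * (1 - Y 0 * X 2) * (1 - Y 1 * X 2) *
        (1 - Y 0 * Y 1) * (1 - Y 0 * Y 2) * (1 - Y 1 * Y 2) * (1 - Y 0 * Y 0) * (1 - Y 1 * Y 1) *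
        (1 - Y 2 * Y 2) := by
      rw [← p0, ← p1, ← p2, ← p3, ← p4, ← p5, ← p6, ← p7, ← p8]
      simp only [Fin.prod_univ_succ, Fin.prod_univ_zero, mul_one]
      simp only [← mul_assoc]
      rfl
    rw [this]
    ring
  have r3 : ∀ i, xa i (rho 0) = (X i - Y i) * ((X i + Y i) ^ 2 - 1) := by
    intro i
    have : xa i (rho 0) = xa i ((3 : ℕ) : ℤ) := rfl
    rw [this, xa_nat]
    linear_combination (-(X i - Y i)) * hx i
  have r2 : ∀ i, xa i (rho 1) = (X i - Y i) * (X i + Y i) := by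
    intro i
    have : xa i (rho 1) = xa i ((2 : ℕ) : ℤ) := rfl
    rw [this, xa_nat]
    ring
  have r1 : ∀ i, xa i (rho 2) = (X i - Y i) := by
    intro i
    have : xa i (rho 2) = xa i ((1 : ℕ) : ℤ) := rfl
    rw [this, xa_nat]
    ring
  rw [hprod]
  simp only [alt, det3, r1, r2, r3]
  ring

lemma Lap_term (a b c : ℤ) : Lap (xa 0 a * xa 1 b * xa 2 c) =
    ((a : ℂ) ^ 2 + (b : ℂ) ^ 2 + (c : ℂ) ^ 2) • (xa 0 a * xa 1 b * xa 2 c) := by
  have h : ∀ a' b' c' : ℤ, (a' : ℂ) ^ 2 = (a : ℂ) ^ 2 → (b' : ℂ) ^ 2 = (b : ℂ) ^ 2 →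
      (c' : ℂ) ^ 2 = (c : ℂ) ^ 2 →
      Lap (ex (Pi.single 0 a') * ex (Pi.single 1 b') * ex (Pi.single 2 c')) =
      ((a : ℂ) ^ 2 + (b : ℂ) ^ 2 + (c : ℂ) ^ 2) •
        (ex (Pi.single 0 a') * ex (Pi.single 1 b') * ex (Pi.single 2 c')) := by
    intro a' b' c' h1 h2 h3
    rw [← ex_add, ← ex_add, Lap_ex, ← h1, ← h2, ← h3]
    congr 1
    simp [Fin.sum_univ_three]
  have expand : xa 0 a * xa 1 b * xa 2 c =
      ex (Pi.single 0 a) * ex (Pi.single 1 b) * ex (Pi.single 2 c)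
      - ex (Pi.single 0 (-a)) * ex (Pi.single 1 b) * ex (Pi.single 2 c)
      - ex (Pi.single 0 a) * ex (Pi.single 1 (-b)) * ex (Pi.single 2 c)
      - ex (Pi.single 0 a) * ex (Pi.single 1 b) * ex (Pi.single 2 (-c))
      + ex (Pi.single 0 (-a)) * ex (Pi.single 1 (-b)) * ex (Pi.single 2 c)
      + ex (Pi.single 0 (-a)) * ex (Pi.single 1 b) * ex (Pi.single 2 (-c))
      + ex (Pi.single 0 a) * ex (Pi.single 1 (-b)) * ex (Pi.single 2 (-c))
      - ex (Pi.single 0 (-a)) * ex (Pi.single 1 (-b)) * ex (Pi.single 2 (-c)) := by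
    simp only [xa]
    ring
  rw [expand]
  simp only [map_add, map_sub, smul_add, smul_sub]
  rw [h a b c rfl rfl rfl, h (-a) b c (by simp) rfl rfl, h a (-b) c rfl (by simp) rfl,
    h a b (-c) rfl rfl (by simp), h (-a) (-b) c (by simp) (by simp) rfl,
    h (-a) b (-c) (by simp) rfl (by simp), h a (-b) (-c) rfl (by simp) (by simp),
    h (-a) (-b) (-c) (by simp) (by simp) (by simp)]

lemma alt_expand (l : Wt) : alt l =
    xa 0 (l 0) * xa 1 (l 1) * xa 2 (l 2) - xa 0 (l 0) * xa 1 (l 2) * xa 2 (l 1)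
      + xa 0 (l 2) * xa 1 (l 0) * xa 2 (l 1) - xa 0 (l 1) * xa 1 (l 0) * xa 2 (l 2)
      + xa 0 (l 1) * xa 1 (l 2) * xa 2 (l 0)
      - xa 0 (l 2) * xa 1 (l 1) * xa 2 (l 0) := by
  simp only [alt, det3]; ring

lemma Lap_alt (l : Wt) : Lap (alt l) = (∑ a, (l a : ℂ) ^ 2) • alt l := by
  rw [alt_expand]
  simp only [map_add, map_sub, smul_add, smul_sub, Lap_term, Fin.sum_univ_three]
  rw [show (l 0 : ℂ) ^ 2 + (l 2 : ℂ) ^ 2 + (l 1 : ℂ) ^ 2 = (l 0 : ℂ) ^ 2 + (l 1 : ℂ) ^ 2 + (l 2 : ℂ) ^ 2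
      by ring,
    show (l 2 : ℂ) ^ 2 + (l 0 : ℂ) ^ 2 + (l 1 : ℂ) ^ 2 = (l 0 : ℂ) ^ 2 + (l 1 : ℂ) ^ 2 + (l 2 : ℂ) ^ 2
      by ring,
    show (l 1 : ℂ) ^ 2 + (l 0 : ℂ) ^ 2 + (l 2 : ℂ) ^ 2 = (l 0 : ℂ) ^ 2 + (l 1 : ℂ) ^ 2 + (l 2 : ℂ) ^ 2
      by ring,
    show (l 1 : ℂ) ^ 2 + (l 2 : ℂ) ^ 2 + (l 0 : ℂ) ^ 2 = (l 0 : ℂ) ^ 2 + (l 1 : ℂ) ^ 2 + (l 2 : ℂ) ^ 2
      by ring,
    show (l 2 : ℂ) ^ 2 + (l 1 : ℂ) ^ 2 + (l 0 : ℂ) ^ 2 = (l 0 : ℂ) ^ 2 + (l 1 : ℂ) ^ 2 + (l 2 : ℂ) ^ 2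
      by ring]

/-! ### The action of the Weyl group -/

/-- action of an additive automorphism of the weight lattice on the group algebra -/
noncomputable def act (g : Wt ≃+ Wt) : GA →+* GA := AddMonoidAlgebra.mapDomainRingHom ℂ g

lemma act_ex (g : Wt ≃+ Wt) (β : Wt) : act g (ex β) = ex (g β) := by
  simp [act, ex, AddMonoidAlgebra.mapDomainRingHom_apply, AddMonoidAlgebra.mapDomain_single]

lemma act_coeff (g : Wt ≃+ Wt) (f : GA) (β : Wt) : (act g f).coeff (g β) = f.coeff β := by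
  induction f using ga_induction with
  | h0 => simp
  | hadd f₁ f₂ h₁ h₂ => simp [h₁, h₂]
  | hsmul c γ =>
    have : act g (c • ex γ) = c • ex (g γ) := by
      simp [act, ex, AddMonoidAlgebra.mapDomainRingHom_apply, AddMonoidAlgebra.mapDomain_single,
        AddMonoidAlgebra.smul_single]
    rw [this]
    simp only [AddMonoidAlgebra.coeff_smul, Finsupp.smul_apply, coeff_ex,
      EmbeddingLike.apply_eq_iff_eq]

/-- permutation of two coordinates -/
def swp (i j : Fin 3) : Wt ≃+ Wt where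
  toFun β := fun k => β (Equiv.swap i j k)
  invFun β := fun k => β (Equiv.swap i j k)
  left_inv β := by ext k; simp
  right_inv β := by ext k; simp
  map_add' β γ := rfl

/-- change of sign of a coordinate -/
def ngt (i : Fin 3) : Wt ≃+ Wt where
  toFun β := fun k => if k = i then - β k else β k
  invFun β := fun k => if k = i then - β k else β k
  left_inv β := by ext k; by_cases h : k = i <;> simp [h]
  right_inv β := by ext k; by_cases h : k = i <;> simp [h]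
  map_add' β γ := by ext k; by_cases h : k = i <;> simp [h]; ring

lemma swp_apply (i j : Fin 3) (β : Wt) (k : Fin 3) : swp i j β k = β (Equiv.swap i j k) := rfl
lemma ngt_apply (i : Fin 3) (β : Wt) (k : Fin 3) : ngt i β k = if k = i then - β k else β k := rfl

lemma swp_single (i j k : Fin 3) (m : ℤ) : swp i j (Pi.single k m) = Pi.single (Equiv.swap i j k) m := by
  ext l
  rw [swp_apply]
  by_cases h : l = Equiv.swap i j k
  · subst h; simp
  · rw [Pi.single_eq_of_ne h, Pi.single_eq_of_ne]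
    intro h'; apply h; rw [← h']; simp

lemma ngt_single (i k : Fin 3) (m : ℤ) :
    ngt i (Pi.single k m) = if k = i then Pi.single k (-m) else Pi.single k m := by
  ext l
  rw [ngt_apply]
  by_cases h : k = i
  · subst h
    by_cases h' : l = k
    · subst h'; simp
    · simp [h']
  · rw [if_neg h]
    by_cases h' : l = i
    · subst h'; rw [if_pos rfl, Pi.single_eq_of_ne (fun h'' => h h''.symm), neg_zero]
    · rw [if_neg h']

lemma act_swp_xa (i j k : Fin 3) (m : ℤ) : act (swp i j) (xa k m) = xa (Equiv.swap i j k) m := by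
  simp only [xa, map_sub, act_ex, swp_single]

lemma act_ngt_xa (i k : Fin 3) (m : ℤ) : act (ngt i) (xa k m) = if k = i then - xa k m else xa k m := by
  simp only [xa, map_sub, act_ex, ngt_single]
  split_ifs with h
  · rw [neg_neg]; ring
  · rfl

/-- antisymmetric elements of the group algebra -/
def Anti (f : GA) : Prop :=
  act (swp 0 1) f = -f ∧ act (swp 0 2) f = -f ∧ act (swp 1 2) f = -f ∧ ∀ i, act (ngt i) f = -f

/-- symmetric elements of the group algebra -/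
def Symm (f : GA) : Prop :=
  act (swp 0 1) f = f ∧ act (swp 0 2) f = f ∧ act (swp 1 2) f = f ∧ ∀ i, act (ngt i) f = f

lemma alt_anti (l : Wt) : Anti (alt l) := by
  refine ⟨?_, ?_, ?_, ?_⟩
  · simp only [alt, det3, map_add, map_sub, map_mul, act_swp_xa]
    have h0 : Equiv.swap (0 : Fin 3) 1 0 = 1 := by decide
    have h1 : Equiv.swap (0 : Fin 3) 1 1 = 0 := by decide
    have h2 : Equiv.swap (0 : Fin 3) 1 2 = 2 := by decide
    rw [h0, h1, h2]; ring
  · simp only [alt, det3, map_add, map_sub, map_mul, act_swp_xa]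
    have h0 : Equiv.swap (0 : Fin 3) 2 0 = 2 := by decide
    have h1 : Equiv.swap (0 : Fin 3) 2 1 = 1 := by decide
    have h2 : Equiv.swap (0 : Fin 3) 2 2 = 0 := by decide
    rw [h0, h1, h2]; ring
  · simp only [alt, det3, map_add, map_sub, map_mul, act_swp_xa]
    have h0 : Equiv.swap (1 : Fin 3) 2 0 = 0 := by decide
    have h1 : Equiv.swap (1 : Fin 3) 2 1 = 2 := by decide
    have h2 : Equiv.swap (1 : Fin 3) 2 2 = 1 := by decide
    rw [h0, h1, h2]; ring
  · intro i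
    simp only [alt, det3, map_add, map_sub, map_mul, act_ngt_xa]
    fin_cases i
    · simp; ring
    · simp; ring
    · simp; ring

lemma Anti.mul_symm {f g : GA} (hf : Anti f) (hg : Symm g) : Anti (f * g) := by
  obtain ⟨f1, f2, f3, f4⟩ := hf
  obtain ⟨g1, g2, g3, g4⟩ := hg
  refine ⟨?_, ?_, ?_, ?_⟩
  · rw [map_mul, f1, g1, neg_mul]
  · rw [map_mul, f2, g2, neg_mul]
  · rw [map_mul, f3, g3, neg_mul]
  · intro i; rw [map_mul, f4, g4, neg_mul]

lemma Anti.sub {f g : GA} (hf : Anti f) (hg : Anti g) : Anti (f - g) := by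
  obtain ⟨f1, f2, f3, f4⟩ := hf
  obtain ⟨g1, g2, g3, g4⟩ := hg
  refine ⟨?_, ?_, ?_, ?_⟩
  · rw [map_sub, f1, g1]; ring
  · rw [map_sub, f2, g2]; ring
  · rw [map_sub, f3, g3]; ring
  · intro i; rw [map_sub, f4, g4]; ring

lemma coeff_of_act_neg {g : Wt ≃+ Wt} {f : GA} (h : act g f = -f) (β : Wt) :
    f.coeff (g β) = - f.coeff β := by
  have := act_coeff g f β
  rw [h] at this
  rw [← this]; simp

lemma coeff_of_act_id {g : Wt ≃+ Wt} {f : GA} (h : act g f = f) (β : Wt) :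
    f.coeff (g β) = f.coeff β := by
  have := act_coeff g f β
  rwa [h] at this

/-- strictly dominant weights -/
def SDom (γ : Wt) : Prop := γ 1 < γ 0 ∧ γ 2 < γ 1 ∧ 0 < γ 2

lemma anti_eq_zero {f : GA} (hf : Anti f) (h0 : ∀ γ, SDom γ → f.coeff γ = 0) : f = 0 := by
  obtain ⟨h01, h02, h12, hn⟩ := hf
  have s01 := fun β => coeff_of_act_neg h01 β
  have s02 := fun β => coeff_of_act_neg h02 β
  have s12 := fun β => coeff_of_act_neg h12 β
  have sn := fun i β => coeff_of_act_neg (hn i) β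
  -- nonzero coordinates
  have hz : ∀ γ : Wt, ∀ i, γ i = 0 → f.coeff γ = 0 := by
    intro γ i hi
    have h := sn i γ
    have : ngt i γ = γ := by
      ext k; rw [ngt_apply]; split_ifs with hk
      · subst hk; rw [hi]; simp
      · rfl
    rw [this] at h
    have h2 : (2 : ℂ) * f.coeff γ = 0 := by linear_combination h
    simpa using h2
  have e01 : ∀ γ : Wt, γ 0 = γ 1 → f.coeff γ = 0 := by
    intro γ hi
    have h := s01 γ
    have : swp 0 1 γ = γ := by
      ext k; rw [swp_apply]; fin_cases k <;> simp [hi, Equiv.swap_apply_of_ne_of_ne]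
    rw [this] at h
    have h2 : (2 : ℂ) * f.coeff γ = 0 := by linear_combination h
    simpa using h2
  have e02 : ∀ γ : Wt, γ 0 = γ 2 → f.coeff γ = 0 := by
    intro γ hi
    have h := s02 γ
    have : swp 0 2 γ = γ := by
      ext k; rw [swp_apply]; fin_cases k <;> simp [hi, Equiv.swap_apply_of_ne_of_ne]
    rw [this] at h
    have h2 : (2 : ℂ) * f.coeff γ = 0 := by linear_combination h
    simpa using h2
  have e12 : ∀ γ : Wt, γ 1 = γ 2 → f.coeff γ = 0 := by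
    intro γ hi
    have h := s12 γ
    have : swp 1 2 γ = γ := by
      ext k; rw [swp_apply]; fin_cases k <;> simp [hi, Equiv.swap_apply_of_ne_of_ne]
    rw [this] at h
    have h2 : (2 : ℂ) * f.coeff γ = 0 := by linear_combination h
    simpa using h2
  have z01 : ∀ γ : Wt, f.coeff (swp 0 1 γ) = 0 → f.coeff γ = 0 := by
    intro γ h; rw [s01] at h; simpa using h
  have z02 : ∀ γ : Wt, f.coeff (swp 0 2 γ) = 0 → f.coeff γ = 0 := by
    intro γ h; rw [s02] at h; simpa using h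
  have z12 : ∀ γ : Wt, f.coeff (swp 1 2 γ) = 0 → f.coeff γ = 0 := by
    intro γ h; rw [s12] at h; simpa using h
  have zn : ∀ i, ∀ γ : Wt, f.coeff (ngt i γ) = 0 → f.coeff γ = 0 := by
    intro i γ h; rw [sn] at h; simpa using h
  -- positive weights
  have c01 : ∀ γ : Wt, swp 0 1 γ 0 = γ 1 ∧ swp 0 1 γ 1 = γ 0 ∧ swp 0 1 γ 2 = γ 2 := fun γ =>
    ⟨rfl, rfl, rfl⟩
  have c02 : ∀ γ : Wt, swp 0 2 γ 0 = γ 2 ∧ swp 0 2 γ 1 = γ 1 ∧ swp 0 2 γ 2 = γ 0 := fun γ =>
    ⟨rfl, rfl, rfl⟩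
  have c12 : ∀ γ : Wt, swp 1 2 γ 0 = γ 0 ∧ swp 1 2 γ 1 = γ 2 ∧ swp 1 2 γ 2 = γ 1 := fun γ =>
    ⟨rfl, rfl, rfl⟩
  have hpos1 : ∀ γ : Wt, 0 < γ 0 → 0 < γ 1 → 0 < γ 2 → γ 1 < γ 0 → γ 2 < γ 0 → f.coeff γ = 0 := by
    intro γ p0 p1 p2 h1 h2
    rcases lt_trichotomy (γ 2) (γ 1) with h | h | h
    · exact h0 γ ⟨h1, h, p2⟩
    · exact e12 γ h.symm
    · apply z12
      apply h0
      refine ⟨?_, ?_, ?_⟩
      · rw [(c12 γ).1, (c12 γ).2.1]; exact h2
      · rw [(c12 γ).2.2, (c12 γ).2.1]; exact h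
      · rw [(c12 γ).2.2]; exact p1
  have hpos : ∀ γ : Wt, 0 < γ 0 → 0 < γ 1 → 0 < γ 2 → f.coeff γ = 0 := by
    intro γ p0 p1 p2
    by_cases h01' : γ 0 = γ 1
    · exact e01 γ h01'
    by_cases h02' : γ 0 = γ 2
    · exact e02 γ h02'
    by_cases h12' : γ 1 = γ 2
    · exact e12 γ h12'
    by_cases hmax0 : γ 1 < γ 0 ∧ γ 2 < γ 0
    · exact hpos1 γ p0 p1 p2 hmax0.1 hmax0.2
    by_cases hmax1 : γ 0 < γ 1 ∧ γ 2 < γ 1
    · apply z01
      obtain ⟨a, b, c⟩ := c01 γ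
      apply hpos1
      · rw [a]; exact p1
      · rw [b]; exact p0
      · rw [c]; exact p2
      · rw [a, b]; exact hmax1.1
      · rw [a, c]; exact hmax1.2
    · have hmax2 : γ 0 < γ 2 ∧ γ 1 < γ 2 := by omega
      apply z02
      obtain ⟨a, b, c⟩ := c02 γ
      apply hpos1
      · rw [a]; exact p2
      · rw [b]; exact p1
      · rw [c]; exact p0
      · rw [a, b]; exact hmax2.2
      · rw [a, c]; exact hmax2.1
  have hp2 : ∀ γ : Wt, 0 < γ 0 → 0 < γ 1 → f.coeff γ = 0 := by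
    intro γ p0 p1
    rcases lt_trichotomy 0 (γ 2) with h | h | h
    · exact hpos γ p0 p1 h
    · exact hz γ 2 h.symm
    · apply zn 2
      apply hpos
      · simpa [ngt_apply] using p0
      · simpa [ngt_apply] using p1
      · simpa [ngt_apply] using h
  have hp1 : ∀ γ : Wt, 0 < γ 0 → f.coeff γ = 0 := by
    intro γ p0
    rcases lt_trichotomy 0 (γ 1) with h | h | h
    · exact hp2 γ p0 h
    · exact hz γ 1 h.symm
    · apply zn 1
      apply hp2
      · simpa [ngt_apply] using p0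
      · simpa [ngt_apply] using h
  apply ga_ext
  intro γ
  rw [AddMonoidAlgebra.coeff_zero, Finsupp.zero_apply]
  rcases lt_trichotomy 0 (γ 0) with h | h | h
  · exact hp1 γ h
  · exact hz γ 0 h.symm
  · apply zn 0
    apply hp1
    simpa [ngt_apply] using h

lemma xa_term_coeff (a b c : ℤ) (ha : 0 < a) (hb : 0 < b) (hc : 0 < c) (γ : Wt)
    (h0 : 0 < γ 0) (h1 : 0 < γ 1) (h2 : 0 < γ 2) :
    (xa 0 a * xa 1 b * xa 2 c).coeff γ = if a = γ 0 ∧ b = γ 1 ∧ c = γ 2 then 1 else 0 := by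
  have h : ∀ a' b' c' : ℤ,
      (ex (Pi.single 0 a') * ex (Pi.single 1 b') * ex (Pi.single 2 c')).coeff γ =
      if a' = γ 0 ∧ b' = γ 1 ∧ c' = γ 2 then 1 else 0 := by
    intro a' b' c'
    rw [← ex_add, ← ex_add, coeff_ex]
    refine if_congr ?_ rfl rfl
    constructor
    · intro h; rw [← h]; simp
    · rintro ⟨h1, h2, h3⟩
      ext i; fin_cases i <;> simp [h1, h2, h3]
  have expand : xa 0 a * xa 1 b * xa 2 c =
      ex (Pi.single 0 a) * ex (Pi.single 1 b) * ex (Pi.single 2 c)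
      - ex (Pi.single 0 (-a)) * ex (Pi.single 1 b) * ex (Pi.single 2 c)
      - ex (Pi.single 0 a) * ex (Pi.single 1 (-b)) * ex (Pi.single 2 c)
      - ex (Pi.single 0 a) * ex (Pi.single 1 b) * ex (Pi.single 2 (-c))
      + ex (Pi.single 0 (-a)) * ex (Pi.single 1 (-b)) * ex (Pi.single 2 c)
      + ex (Pi.single 0 (-a)) * ex (Pi.single 1 b) * ex (Pi.single 2 (-c))
      + ex (Pi.single 0 a) * ex (Pi.single 1 (-b)) * ex (Pi.single 2 (-c))
      - ex (Pi.single 0 (-a)) * ex (Pi.single 1 (-b)) * ex (Pi.single 2 (-c)) := by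
    simp only [xa]
    ring
  rw [expand]
  simp only [AddMonoidAlgebra.coeff_sub, AddMonoidAlgebra.coeff_add, Finsupp.coe_sub,
    Finsupp.coe_add, Pi.sub_apply, Pi.add_apply, h]
  rw [if_neg (c := -a = γ 0 ∧ b = γ 1 ∧ c = γ 2) (by omega),
    if_neg (c := a = γ 0 ∧ -b = γ 1 ∧ c = γ 2) (by omega),
    if_neg (c := a = γ 0 ∧ b = γ 1 ∧ -c = γ 2) (by omega),
    if_neg (c := -a = γ 0 ∧ -b = γ 1 ∧ c = γ 2) (by omega),
    if_neg (c := -a = γ 0 ∧ b = γ 1 ∧ -c = γ 2) (by omega),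
    if_neg (c := a = γ 0 ∧ -b = γ 1 ∧ -c = γ 2) (by omega),
    if_neg (c := -a = γ 0 ∧ -b = γ 1 ∧ -c = γ 2) (by omega)]
  ring

lemma alt_coeff_sdom (l γ : Wt) (hl : SDom l) (hγ : SDom γ) :
    (alt l).coeff γ = if l = γ then 1 else 0 := by
  obtain ⟨l1, l2, l3⟩ := hl
  obtain ⟨g1, g2, g3⟩ := hγ
  rw [alt_expand]
  simp only [AddMonoidAlgebra.coeff_sub, AddMonoidAlgebra.coeff_add, Finsupp.coe_sub,
    Finsupp.coe_add, Pi.sub_apply, Pi.add_apply]
  rw [xa_term_coeff _ _ _ (by omega) (by omega) (by omega) γ (by omega) (by omega) (by omega),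
    xa_term_coeff _ _ _ (by omega) (by omega) (by omega) γ (by omega) (by omega) (by omega),
    xa_term_coeff _ _ _ (by omega) (by omega) (by omega) γ (by omega) (by omega) (by omega),
    xa_term_coeff _ _ _ (by omega) (by omega) (by omega) γ (by omega) (by omega) (by omega),
    xa_term_coeff _ _ _ (by omega) (by omega) (by omega) γ (by omega) (by omega) (by omega),
    xa_term_coeff _ _ _ (by omega) (by omega) (by omega) γ (by omega) (by omega) (by omega)]
  rw [if_neg (c := l 0 = γ 0 ∧ l 2 = γ 1 ∧ l 1 = γ 2) (by omega),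
    if_neg (c := l 2 = γ 0 ∧ l 0 = γ 1 ∧ l 1 = γ 2) (by omega),
    if_neg (c := l 1 = γ 0 ∧ l 0 = γ 1 ∧ l 2 = γ 2) (by omega),
    if_neg (c := l 1 = γ 0 ∧ l 2 = γ 1 ∧ l 0 = γ 2) (by omega),
    if_neg (c := l 2 = γ 0 ∧ l 1 = γ 1 ∧ l 0 = γ 2) (by omega)]
  simp only [sub_zero, add_zero]
  refine if_congr ?_ rfl rfl
  constructor
  · rintro ⟨h1, h2, h3⟩
    ext i; fin_cases i <;> simp [h1, h2, h3]
  · rintro rfl; exact ⟨rfl, rfl, rfl⟩

/-- an antisymmetric element with the right coefficients on strictly dominant weights is an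
alternant -/
lemma eq_alt {f : GA} (hf : Anti f) {l : Wt} (hl : SDom l)
    (h : ∀ γ, SDom γ → f.coeff γ = if l = γ then 1 else 0) : f = alt l := by
  have := anti_eq_zero (hf.sub (alt_anti l)) (fun γ hγ => by
    simp only [AddMonoidAlgebra.coeff_sub, Finsupp.coe_sub, Pi.sub_apply]
    rw [h γ hγ, alt_coeff_sdom l γ hl hγ, sub_self])
  exact sub_eq_zero.mp this

end Pool.Agent.Hhelper44.CG
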