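import Pool.Agent.Hhelper44.CG.HomHW

/-!
# Existence of the irreducible modules
-/

set_option autoImplicit false
set_option linter.unusedSectionVars false

namespace Pool.Agent.Hhelper44.CG

open Finset Module

attribute [local instance 100] LieRing.ofAssociativeRing

/-- `κ` is the weight of a highest weight vector in some finite-dimensional module -/
def Occ (κ : Wt) : Prop :=
  ∃ (V : Type) (_ : AddCommGroup V) (_ : Module ℂ V) (_ : LieRingModule g6 V)
    (_ : LieModule ℂ g6 V) (_ : FiniteDimensional ℂ V), ∃ v ∈ hwSpace V κ, v ≠ 0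

open scoped TensorProduct

lemma tmul_ne {V M : Type*} [AddCommGroup V] [Module ℂ V] [AddCommGroup M] [Module ℂ M]
    {u : V} {v : M} (hu : u ≠ 0) (hv : v ≠ 0) : u ⊗ₜ[ℂ] v ≠ 0 := by
  obtain ⟨f, hf⟩ := Module.Projective.exists_dual_ne_zero ℂ hu
  obtain ⟨g, hg⟩ := Module.Projective.exists_dual_ne_zero ℂ hv
  intro h
  have := congrArg (TensorProduct.lid ℂ ℂ ∘ TensorProduct.map f g) h
  simp only [Function.comp_apply, TensorProduct.map_tmul, TensorProduct.lid_tmul, smul_eq_mul,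
    map_zero] at this
  exact mul_ne_zero hf hg this

lemma Occ.add {κ κ' : Wt} (h : Occ κ) (h' : Occ κ') : Occ (κ + κ') := by
  obtain ⟨V, _, _, _, _, _, v, hv, hv0⟩ := h
  obtain ⟨V', _, _, _, _, _, v', hv', hv0'⟩ := h'
  exact ⟨V ⊗[ℂ] V', inferInstance, inferInstance, inferInstance, inferInstance, inferInstance,
    v ⊗ₜ v', tmul_hw hv hv', tmul_ne hv0 hv0'⟩

/-! ### The trivial representation -/

/-- the trivial action -/
@[reducible] def trivLRM : LieRingModule g6 ℂ where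
  bracket _ _ := 0
  add_lie _ _ _ := by simp
  lie_add _ _ _ := by simp
  leibniz_lie _ _ _ := by simp

lemma Occ.zero : Occ 0 := by
  let _i := trivLRM
  have _j : LieModule ℂ g6 ℂ :=
    { smul_lie := fun _ _ _ => by change (0 : ℂ) = _ • (0 : ℂ); simp
      lie_smul := fun _ _ _ => by change (0 : ℂ) = _ • (0 : ℂ); simp }
  refine ⟨ℂ, inferInstance, inferInstance, inferInstance, inferInstance, inferInstance, 1, ?_,
    one_ne_zero⟩
  refine ⟨fun a => ?_, fun k => rfl⟩
  change (0 : ℂ) = _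
  simp

lemma Occ.nsmul {κ : Wt} (h : Occ κ) (n : ℕ) : Occ (n • κ) := by
  induction n with
  | zero => rw [zero_smul]; exact Occ.zero
  | succ n ih => rw [succ_nsmul]; exact ih.add h

/-! ### The standard representation -/

/-- the underlying space of the standard representation -/
def S6 : Type := I6 → ℂ

noncomputable instance : AddCommGroup S6 := inferInstanceAs (AddCommGroup (I6 → ℂ))
noncomputable instance : Module ℂ S6 := inferInstanceAs (Module ℂ (I6 → ℂ))
instance : FiniteDimensional ℂ S6 := inferInstanceAs (FiniteDimensional ℂ (I6 → ℂ))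
noncomputable instance : LieRingModule g6 S6 := inferInstanceAs (LieRingModule g6 (I6 → ℂ))
instance : LieModule ℂ g6 S6 := inferInstanceAs (LieModule ℂ g6 (I6 → ℂ))

/-- standard basis vectors -/
noncomputable def st (i : I6) : S6 := (Pi.single i 1 : I6 → ℂ)

lemma lie_S6 (x : g6) (v : S6) : ⁅x, v⁆ = x.1.mulVec v := rfl

lemma lie_st (x : g6) (i : I6) : ⁅x, st i⁆ = fun j => x.1 j i := by
  rw [lie_S6, st, Matrix.mulVec_single_one]
  rfl

lemma S6_ext {u v : S6} (h : ∀ j, u j = v j) : u = v := funext h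

lemma S6_smul (c : ℂ) (v : S6) (j : I6) : (c • v) j = c * v j := rfl

lemma S6_sum {ι : Type*} (s : Finset ι) (f : ι → S6) (j : I6) :
    (∑ i ∈ s, f i) j = ∑ i ∈ s, f i j := Finset.sum_apply (M := fun _ : I6 => ℂ) j s f

lemma st_apply (i j : I6) : st i j = if j = i then 1 else 0 := by
  rw [st, Pi.single_apply]

lemma h_st (a : Fin 3) (i : I6) : ⁅h a, st i⁆ = (wt i a : ℂ) • st i := by
  rw [lie_st]
  apply S6_ext; intro j
  rw [h_apply, S6_smul, st_apply]
  by_cases hj : j = i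
  · subst hj; simp
  · simp [hj]

lemma st_wt (i : I6) : st i ∈ wtSpace S6 (wt i) := fun a => h_st a i

lemma ee_col (k : Fin 9) (c : Fin 3) : ⁅ee k, st (.inl c)⁆ =
    ∑ d ∈ univ.filter (fun d => d < c), (ee k).1 (.inl d) (.inl c) • st (.inl d) := by
  rw [lie_st]
  apply S6_ext; intro j
  have hval : ∀ i j : I6, (ee k).1 i j = (mm k)⁻¹ * (F (pp k).1 (pp k).2).1 i j := fun i j => rfl
  rw [S6_sum]
  simp only [hval, S6_smul, st_apply]
  rcases j with j | j
  · rw [sum_filter]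
    simp only [Sum.inl.injEq]
    by_cases hjc : j < c
    · rw [sum_eq_single j]
      · simp [hjc]
      · intro d _ hd
        simp [Ne.symm hd]
      · intro h'; exact absurd (mem_univ _) h'
    · rw [sum_eq_zero]
      · fin_cases k <;> fin_cases j <;> fin_cases c <;>
          first
          | (exfalso; exact hjc (by decide))
          | simp [pp, F_ll, F_lr]
      · intro d _
        by_cases hd : d < c
        · rw [if_pos hd, if_neg, mul_zero]
          rintro rfl; exact hjc hd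
        · rw [if_neg hd]
  · rw [sum_eq_zero]
    · fin_cases k <;> simp [pp, F_ll, F_lr]
    · intro d _
      simp

lemma ee_st0 (k : Fin 9) : ⁅ee k, st (.inl 0)⁆ = 0 := by
  rw [ee_col]
  simp

lemma ee_st1 (k : Fin 9) : ∃ c : ℂ, ⁅ee k, st (.inl 1)⁆ = c • st (.inl 0) := by
  refine ⟨(ee k).1 (.inl 0) (.inl 1), ?_⟩
  rw [ee_col]
  have : (univ.filter (fun d : Fin 3 => d < 1)) = {0} := by decide
  rw [this, sum_singleton]

lemma ee_st2 (k : Fin 9) : ∃ c d : ℂ, ⁅ee k, st (.inl 2)⁆ = c • st (.inl 0) + d • st (.inl 1) := by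
  refine ⟨(ee k).1 (.inl 0) (.inl 2), (ee k).1 (.inl 1) (.inl 2), ?_⟩
  rw [ee_col]
  have : (univ.filter (fun d : Fin 3 => d < 2)) = {0, 1} := by decide
  rw [this, sum_pair (by decide)]

lemma Occ.w1 : Occ ![1, 0, 0] := by
  refine ⟨S6, inferInstance, inferInstance, inferInstance, inferInstance, inferInstance,
    st (.inl 0), ⟨?_, ee_st0⟩, ?_⟩
  · have : (![1, 0, 0] : Wt) = wt (.inl 0) := by ext i; fin_cases i <;> simp [wt]
    rw [this]; exact st_wt _
  · intro h
    have := congrFun h (.inl 0)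
    rw [st_apply, if_pos rfl] at this
    exact one_ne_zero this

/-- the standard basis as a basis -/
noncomputable def bS : Basis I6 ℂ S6 := Pi.basisFun ℂ I6

lemma bS_apply (i : I6) : bS i = st i := Pi.basisFun_apply ℂ I6 i

lemma Occ.w2 : Occ ![1, 1, 0] := by
  refine ⟨S6 ⊗[ℂ] S6, inferInstance, inferInstance, inferInstance, inferInstance, inferInstance,
    st (.inl 0) ⊗ₜ st (.inl 1) - st (.inl 1) ⊗ₜ st (.inl 0), ⟨?_, ?_⟩, ?_⟩
  · apply Submodule.sub_mem
    · have : (![1, 1, 0] : Wt) = wt (.inl 0) + wt (.inl 1) := by ext i; fin_cases i <;> simp [wt]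
      rw [this]; exact tmul_wt (st_wt _) (st_wt _)
    · have : (![1, 1, 0] : Wt) = wt (.inl 1) + wt (.inl 0) := by ext i; fin_cases i <;> simp [wt]
      rw [this]; exact tmul_wt (st_wt _) (st_wt _)
  · intro k
    obtain ⟨c, hc⟩ := ee_st1 k
    rw [lie_sub, TensorProduct.LieModule.lie_tmul_right, TensorProduct.LieModule.lie_tmul_right,
      ee_st0, hc, TensorProduct.zero_tmul, TensorProduct.tmul_zero, TensorProduct.tmul_smul,
      ← TensorProduct.smul_tmul', zero_add, add_zero, sub_self]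
  · intro h'
    have := congrArg (fun t => (bS.tensorProduct bS).repr t (.inl 0, .inl 1)) h'
    simp only [map_sub, Finsupp.sub_apply, Basis.tensorProduct_repr_tmul_apply, ← bS_apply,
      Basis.repr_self, map_zero, Finsupp.zero_apply] at this
    simp at this

/-- antisymmetrisation of three vectors -/
noncomputable def as3 (a b c : S6) : S6 ⊗[ℂ] (S6 ⊗[ℂ] S6) :=
  a ⊗ₜ (b ⊗ₜ c) - a ⊗ₜ (c ⊗ₜ b) + b ⊗ₜ (c ⊗ₜ a) - b ⊗ₜ (a ⊗ₜ c) + c ⊗ₜ (a ⊗ₜ b) - c ⊗ₜ (b ⊗ₜ a)

lemma lie_as3 (x : g6) (a b c : S6) : ⁅x, as3 a b c⁆ =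
    as3 ⁅x, a⁆ b c + as3 a ⁅x, b⁆ c + as3 a b ⁅x, c⁆ := by
  simp only [as3, lie_add, lie_sub, TensorProduct.LieModule.lie_tmul_right, TensorProduct.tmul_add]
  abel

lemma as3_zero1 (b c : S6) : as3 0 b c = 0 := by
  simp [as3]

lemma as3_smul2 (a : S6) (r : ℂ) (c : S6) : as3 a (r • a) c = 0 := by
  simp only [as3, TensorProduct.tmul_smul, ← TensorProduct.smul_tmul']
  abel

lemma as3_comb3 (a b : S6) (r s : ℂ) : as3 a b (r • a + s • b) = 0 := by
  simp only [as3, TensorProduct.tmul_add, TensorProduct.add_tmul, TensorProduct.tmul_smul,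
    ← TensorProduct.smul_tmul']
  abel

lemma Occ.w3 : Occ ![1, 1, 1] := by
  refine ⟨S6 ⊗[ℂ] (S6 ⊗[ℂ] S6), inferInstance, inferInstance, inferInstance, inferInstance,
    inferInstance, as3 (st (.inl 0)) (st (.inl 1)) (st (.inl 2)), ⟨?_, ?_⟩, ?_⟩
  · have key : ∀ a b c : Fin 3, wt (.inl a) + (wt (.inl b) + wt (.inl c)) = ![1, 1, 1] →
        st (.inl a) ⊗ₜ[ℂ] (st (.inl b) ⊗ₜ[ℂ] st (.inl c)) ∈
          wtSpace (S6 ⊗[ℂ] (S6 ⊗[ℂ] S6)) ![1, 1, 1] := by
      intro a b c habc
      rw [← habc]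
      exact tmul_wt (st_wt _) (tmul_wt (st_wt _) (st_wt _))
    unfold as3
    refine Submodule.sub_mem _ (Submodule.add_mem _ (Submodule.sub_mem _ (Submodule.add_mem _
      (Submodule.sub_mem _ (key _ _ _ ?_) (key _ _ _ ?_)) (key _ _ _ ?_)) (key _ _ _ ?_))
      (key _ _ _ ?_)) (key _ _ _ ?_) <;>
    · ext i; fin_cases i <;> simp [wt]
  · intro k
    obtain ⟨c, hc⟩ := ee_st1 k
    obtain ⟨d, e, hd⟩ := ee_st2 k
    rw [lie_as3, ee_st0, hc, hd, as3_zero1, as3_smul2, as3_comb3, add_zero, add_zero]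
  · intro h'
    have := congrArg (fun t => (bS.tensorProduct (bS.tensorProduct bS)).repr t
      (.inl 0, .inl 1, .inl 2)) h'
    simp only [as3, map_sub, map_add, Finsupp.sub_apply, Finsupp.add_apply,
      Basis.tensorProduct_repr_tmul_apply, ← bS_apply,
      Basis.repr_self, map_zero, Finsupp.zero_apply] at this
    simp at this

theorem occ_dom (κ : Wt) (h1 : κ 1 ≤ κ 0) (h2 : κ 2 ≤ κ 1) (h3 : 0 ≤ κ 2) : Occ κ := by
  have h := ((Occ.w1.nsmul (κ 0 - κ 1).toNat).add (Occ.w2.nsmul (κ 1 - κ 2).toNat)).add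
    (Occ.w3.nsmul (κ 2).toNat)
  have e : κ = (κ 0 - κ 1).toNat • ![1, 0, 0] + (κ 1 - κ 2).toNat • ![1, 1, 0] +
      (κ 2).toNat • ![1, 1, 1] := by
    ext i
    fin_cases i
    · simp; omega
    · simp; omega
    · simp; omega
  rw [e]
  exact h

end Pool.Agent.Hhelper44.CG
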