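import Pool.Agent.Hhelper44.CG.Weight

/-!
# Weight modules and highest weight vectors
-/

set_option autoImplicit false
set_option linter.unusedSectionVars false

namespace Pool.Agent.Hhelper44.CG

open Finset Module

attribute [local instance 100] LieRing.ofAssociativeRing

variable (V : Type*) [AddCommGroup V] [Module ℂ V] [LieRingModule g6 V] [LieModule ℂ g6 V]

/-- the module is spanned by its weight vectors -/
def IsWM : Prop := (⨆ β, wtSpace V β) = ⊤

variable {V}

lemma exists_WB [FiniteDimensional ℂ V] (hV : IsWM V) :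
    ∃ (n : ℕ) (b : Basis (Fin n) ℂ V) (w : Fin n → Wt), IsWB b w := by
  classical
  have hs : ⊤ ≤ Submodule.span ℂ (⋃ β, (wtSpace V β : Set V)) := by
    rw [Submodule.span_iUnion]
    simp only [Submodule.span_eq]
    exact hV.ge
  let b0 := Basis.ofSpan hs
  have hmem : ∀ i, ∃ β, b0 i ∈ wtSpace V β := by
    intro i
    have := Basis.ofSpan_subset hs ⟨i, rfl⟩
    rw [Set.mem_iUnion] at this
    exact this
  have : Finite ((linearIndepOn_empty ℂ id).extend (Set.empty_subset
      (⋃ β, (wtSpace V β : Set V)))) := Module.Finite.finite_basis b0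
  obtain ⟨n, ⟨e⟩⟩ := Finite.exists_equiv_fin ((linearIndepOn_empty ℂ id).extend (Set.empty_subset
      (⋃ β, (wtSpace V β : Set V))))
  choose w0 hw0 using hmem
  refine ⟨n, b0.reindex e, fun i => w0 (e.symm i), ?_⟩
  intro i
  rw [Basis.reindex_apply]
  exact hw0 _

section Basis

variable {ι : Type*} [Fintype ι] {b : Basis ι ℂ V} {w : ι → Wt}

lemma IsWB.isWM (hb : IsWB b w) : IsWM V := by
  rw [IsWM, eq_top_iff, ← b.span_eq, Submodule.span_le]
  rintro _ ⟨i, rfl⟩
  exact Submodule.mem_iSup_of_mem (w i) (hb i)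

lemma wtSpace_eq_span (hb : IsWB b w) (β : Wt) :
    wtSpace V β = Submodule.span ℂ (Set.range (fun i : {i // w i = β} => b i)) := by
  apply le_antisymm
  · intro v hv
    rw [← b.sum_repr v]
    refine Submodule.sum_mem _ fun i _ => ?_
    by_cases h0 : b.repr v i = 0
    · rw [h0, zero_smul]; exact Submodule.zero_mem _
    · exact Submodule.smul_mem _ _ (Submodule.subset_span ⟨⟨i, repr_ne_zero hb hv h0⟩, rfl⟩)
  · rw [Submodule.span_le]
    rintro _ ⟨⟨i, rfl⟩, rfl⟩
    exact hb i

lemma finrank_wtSpace (hb : IsWB b w) (β : Wt) :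
    finrank ℂ (wtSpace V β) = Fintype.card {i // w i = β} := by
  rw [wtSpace_eq_span hb β]
  exact finrank_span_eq_card (b.linearIndependent.comp _ Subtype.val_injective)

lemma coeff_char (hb : IsWB b w) (β : Wt) :
    (∑ i, ex (w i)).coeff β = (finrank ℂ (wtSpace V β) : ℂ) := by
  rw [finrank_wtSpace hb β, ← cf_apply, map_sum]
  simp only [cf_apply, coeff_ex]
  rw [Finset.sum_boole, Fintype.card_subtype]

end Basis

lemma char_unique {ι ι' : Type*} [Fintype ι] [Fintype ι'] {b : Basis ι ℂ V} {w : ι → Wt}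
    {b' : Basis ι' ℂ V} {w' : ι' → Wt} (hb : IsWB b w) (hb' : IsWB b' w') :
    ∑ i, ex (w i) = ∑ i, ex (w' i) := by
  classical
  apply ga_ext
  intro β
  rw [coeff_char hb, coeff_char hb']

/-! ### The order on weights -/

/-- dominance order (without the parity condition) -/
def ple (β κ : Wt) : Prop := β 0 ≤ κ 0 ∧ β 0 + β 1 ≤ κ 0 + κ 1 ∧ β 0 + β 1 + β 2 ≤ κ 0 + κ 1 + κ 2

/-- height function -/
def tot (β : Wt) : ℤ := 3 * β 0 + 2 * β 1 + β 2

lemma ple_refl (β : Wt) : ple β β := ⟨le_rfl, le_rfl, le_rfl⟩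

lemma ple_trans {α β γ : Wt} (h1 : ple α β) (h2 : ple β γ) : ple α γ :=
  ⟨h1.1.trans h2.1, h1.2.1.trans h2.2.1, h1.2.2.trans h2.2.2⟩

lemma ple_antisymm {α β : Wt} (h1 : ple α β) (h2 : ple β α) : α = β := by
  obtain ⟨a1, a2, a3⟩ := h1
  obtain ⟨b1, b2, b3⟩ := h2
  ext i
  fin_cases i
  · simp only [Fin.zero_eta]; omega
  · simp only [Fin.mk_one]; omega
  · simp only [Fin.reduceFinMk]; omega

lemma pr_pos (k : Fin 9) : ple 0 (pr k) ∧ 0 < tot (pr k) := by
  fin_cases k <;> simp [ple, tot, pr]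

lemma ple_add_pr (β : Wt) (k : Fin 9) : ple β (β + pr k) := by
  obtain ⟨⟨h1, h2, h3⟩, _⟩ := pr_pos k
  simp only [Pi.zero_apply] at h1 h2 h3
  refine ⟨?_, ?_, ?_⟩ <;> simp only [Pi.add_apply] <;> linarith

lemma tot_add_pr (β : Wt) (k : Fin 9) : tot β < tot (β + pr k) := by
  have h := (pr_pos k).2
  simp only [tot, Pi.add_apply] at *
  linarith

/-- strictness of the norm on strictly dominant weights -/
lemma norm_strict {γ l : Wt} (hγ : SDom γ) (hl : SDom l) (h : ple γ l)
    (hn : ∑ a, (γ a) ^ 2 = ∑ a, (l a) ^ 2) : γ = l := by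
  obtain ⟨g1, g2, g3⟩ := hγ
  obtain ⟨l1, l2, l3⟩ := hl
  obtain ⟨h1, h2, h3⟩ := h
  rw [Fin.sum_univ_three, Fin.sum_univ_three] at hn
  have p1 : 0 ≤ (l 0 - γ 0) * ((l 0 + γ 0) - (l 1 + γ 1)) := mul_nonneg (by linarith) (by linarith)
  have p2 : 0 ≤ (l 0 + l 1 - γ 0 - γ 1) * ((l 1 + γ 1) - (l 2 + γ 2)) :=
    mul_nonneg (by linarith) (by linarith)
  have p3 : 0 ≤ (l 0 + l 1 + l 2 - γ 0 - γ 1 - γ 2) * (l 2 + γ 2) :=
    mul_nonneg (by linarith) (by linarith)
  have hsum : (l 0 - γ 0) * ((l 0 + γ 0) - (l 1 + γ 1)) +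
      (l 0 + l 1 - γ 0 - γ 1) * ((l 1 + γ 1) - (l 2 + γ 2)) +
      (l 0 + l 1 + l 2 - γ 0 - γ 1 - γ 2) * (l 2 + γ 2) = 0 := by
    linear_combination -hn
  have q1 : (l 0 - γ 0) * ((l 0 + γ 0) - (l 1 + γ 1)) = 0 := by linarith
  have q2 : (l 0 + l 1 - γ 0 - γ 1) * ((l 1 + γ 1) - (l 2 + γ 2)) = 0 := by linarith
  have q3 : (l 0 + l 1 + l 2 - γ 0 - γ 1 - γ 2) * (l 2 + γ 2) = 0 := by linarith
  have r1 : l 0 - γ 0 = 0 := (mul_eq_zero.mp q1).resolve_right (by linarith)
  have r2 : l 0 + l 1 - γ 0 - γ 1 = 0 := (mul_eq_zero.mp q2).resolve_right (by linarith)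
  have r3 : l 0 + l 1 + l 2 - γ 0 - γ 1 - γ 2 = 0 := (mul_eq_zero.mp q3).resolve_right (by linarith)
  ext i
  fin_cases i
  · simp only [Fin.zero_eta]; omega
  · simp only [Fin.mk_one]; omega
  · simp only [Fin.reduceFinMk]; omega

/-! ### Highest weight vectors -/

/-- highest weight vectors of weight `κ` (including zero) -/
def hwSpace (V : Type*) [AddCommGroup V] [Module ℂ V] [LieRingModule g6 V] [LieModule ℂ g6 V]
    (κ : Wt) : Submodule ℂ V where
  carrier := {v | v ∈ wtSpace V κ ∧ ∀ k, ⁅ee k, v⁆ = 0}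
  add_mem' := by
    rintro u v ⟨hu, hu'⟩ ⟨hv, hv'⟩
    exact ⟨Submodule.add_mem _ hu hv, fun k => by rw [lie_add, hu' k, hv' k, add_zero]⟩
  zero_mem' := ⟨Submodule.zero_mem _, fun k => lie_zero _⟩
  smul_mem' := by
    rintro c v ⟨hv, hv'⟩
    exact ⟨Submodule.smul_mem _ _ hv, fun k => by rw [lie_smul, hv' k, smul_zero]⟩

lemma mem_hwSpace {κ : Wt} {v : V} :
    v ∈ hwSpace V κ ↔ v ∈ wtSpace V κ ∧ ∀ k, ⁅ee k, v⁆ = 0 := Iff.rfl

/-- the eigenvalue of the Casimir operator -/
noncomputable def cc (κ : Wt) : ℂ := (∑ a, ((κ + rho) a : ℂ) ^ 2) - 14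

lemma Cas_hw {κ : Wt} {v : V} (hv : v ∈ hwSpace V κ) : Cas V v = cc κ • v := by
  obtain ⟨hw, he⟩ := hv
  have h1 : (∑ a, rp V (h a) * rp V (h a)) v = (∑ a, (κ a : ℂ) ^ 2) • v := by
    rw [LinearMap.sum_apply, sum_smul]
    refine sum_congr rfl fun a _ => ?_
    rw [Module.End.mul_apply, rp_apply, rp_apply, hw a, lie_smul, hw a, smul_smul, sq]
  have h2 : (∑ k, mm k • (rp V (ee k) * rp V (ff k) + rp V (ff k) * rp V (ee k))) v =
      (2 * ∑ a, (rho a : ℂ) * (κ a : ℂ)) • v := by
    have e1 : ∀ k, (mm k • (rp V (ee k) * rp V (ff k) + rp V (ff k) * rp V (ee k))) v =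
        (∑ a, (pr k a : ℂ) * (κ a : ℂ)) • v := by
      intro k
      rw [LinearMap.smul_apply, LinearMap.add_apply, Module.End.mul_apply, Module.End.mul_apply,
        rp_apply, rp_apply, rp_apply, rp_apply, he k, lie_zero, add_zero]
      have e2 : ⁅ee k, ⁅ff k, v⁆⁆ = ⁅⁅ee k, ff k⁆, v⁆ := by
        rw [lie_lie, he k, lie_zero, sub_zero]
      rw [e2, ← smul_lie, lie_ee_ff, sum_smul, sum_lie]
      refine sum_congr rfl fun a _ => ?_
      rw [smul_lie, hw a, smul_smul]
    rw [LinearMap.sum_apply]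
    simp only [e1]
    rw [← sum_smul, sum_comm, mul_sum]
    congr 1
    refine sum_congr rfl fun a _ => ?_
    rw [← sum_mul, sum_pr]
    ring
  rw [Cas, LinearMap.add_apply, h1, h2, ← add_smul, cc]
  congr 1
  simp only [Fin.sum_univ_three, Pi.add_apply, Int.cast_add]
  have r0 : ((rho 0 : ℤ) : ℂ) = 3 := by simp [rho]
  have r1 : ((rho 1 : ℤ) : ℂ) = 2 := by simp [rho]
  have r2 : ((rho 2 : ℤ) : ℂ) = 1 := by simp [rho]
  rw [r0, r1, r2]
  ring

/-- Every nonzero submodule of a finite-dimensional weight module contains a nonzero weight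
vector. -/
lemma exists_weight_vector {ι : Type*} [Fintype ι] {b : Basis ι ℂ V} {w : ι → Wt}
    (hb : IsWB b w) (N : LieSubmodule ℂ g6 V) (u : V) (hu : u ∈ N) (h0 : u ≠ 0) :
    ∃ κ, ∃ v ∈ N, v ≠ 0 ∧ v ∈ wtSpace V κ := by
  classical
  have main : ∀ n : ℕ, ∀ u ∈ N, u ≠ 0 → (image w (b.repr u).support).card = n →
      ∃ κ, ∃ v ∈ N, v ≠ 0 ∧ v ∈ wtSpace V κ := by
    intro n
    induction n using Nat.strong_induction_on with
    | _ n ih =>
      intro u hu h0 hn
      by_cases hall : ∀ i ∈ (b.repr u).support, ∀ j ∈ (b.repr u).support, w i = w j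
      · have hne : (b.repr u).support.Nonempty := by
          rw [Finsupp.support_nonempty_iff]
          intro h'
          exact h0 (b.repr.map_eq_zero_iff.mp h')
        obtain ⟨i, hi⟩ := hne
        refine ⟨w i, u, hu, h0, ?_⟩
        rw [← b.sum_repr u]
        refine Submodule.sum_mem _ fun j _ => ?_
        by_cases hj : b.repr u j = 0
        · rw [hj, zero_smul]; exact Submodule.zero_mem _
        · rw [hall i hi j (Finsupp.mem_support_iff.mpr hj)]
          exact Submodule.smul_mem _ _ (hb j)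
      · push Not at hall
        obtain ⟨i, hi, j, hj, hij⟩ := hall
        obtain ⟨a, ha⟩ := Function.ne_iff.mp hij
        have hrep : ∀ m, b.repr (⁅h a, u⁆ - (w i a : ℂ) • u) m =
            ((w m a : ℂ) - (w i a : ℂ)) * b.repr u m := by
          intro m
          have hlin : (b.coord m).comp (rp V (h a) : V →ₗ[ℂ] V) = (w m a : ℂ) • b.coord m := by
            apply b.ext
            intro j
            rw [LinearMap.comp_apply, LinearMap.smul_apply, rp_apply, hb j a, map_smul]
            simp only [Basis.coord_apply, Basis.repr_self, smul_eq_mul]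
            by_cases hij : j = m
            · subst hij; simp
            · simp [hij]
          have h1 := LinearMap.congr_fun hlin u
          simp only [LinearMap.comp_apply, LinearMap.smul_apply, rp_apply, Basis.coord_apply,
            smul_eq_mul] at h1
          rw [map_sub, map_smul, Finsupp.sub_apply, Finsupp.smul_apply, h1, smul_eq_mul]
          ring
        have hu' : ⁅h a, u⁆ - (w i a : ℂ) • u ∈ N :=
          N.sub_mem (N.lie_mem hu) (N.smul_mem _ hu)
        have hne' : ⁅h a, u⁆ - (w i a : ℂ) • u ≠ 0 := by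
          intro h'
          have := hrep j
          rw [h', map_zero, Finsupp.zero_apply] at this
          have h3 : ((w j a : ℂ) - (w i a : ℂ)) ≠ 0 := by
            rw [sub_ne_zero]
            exact_mod_cast Ne.symm ha
          exact (mul_ne_zero h3 (Finsupp.mem_support_iff.mp hj)) this.symm
        refine ih _ ?_ _ hu' hne' rfl
        rw [← hn]
        apply card_lt_card
        rw [ssubset_iff_of_subset]
        · refine ⟨w i, mem_image_of_mem _ hi, ?_⟩
          intro hmem
          obtain ⟨m, hm, hm'⟩ := mem_image.mp hmem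
          rw [Finsupp.mem_support_iff, hrep m, hm', sub_self, zero_mul] at hm
          exact hm rfl
        · apply image_subset_image
          intro m hm
          rw [Finsupp.mem_support_iff, hrep m] at hm
          rw [Finsupp.mem_support_iff]
          exact right_ne_zero_of_mul hm
  exact main _ u hu h0 rfl

/-- Every submodule of a finite-dimensional weight module is a weight module. -/
lemma mem_iSup_inf {ι : Type*} [Fintype ι] {b : Basis ι ℂ V} {w : ι → Wt}
    (hb : IsWB b w) (N : LieSubmodule ℂ g6 V) (u : V) (hu : u ∈ N) :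
    u ∈ ⨆ β, (N.toSubmodule ⊓ wtSpace V β) := by
  classical
  have main : ∀ n : ℕ, ∀ u ∈ N, (image w (b.repr u).support).card = n →
      u ∈ ⨆ β, (N.toSubmodule ⊓ wtSpace V β) := by
    intro n
    induction n using Nat.strong_induction_on with
    | _ n ih =>
      intro u hu hn
      by_cases h0 : u = 0
      · rw [h0]; exact Submodule.zero_mem _
      by_cases hall : ∀ i ∈ (b.repr u).support, ∀ j ∈ (b.repr u).support, w i = w j
      · have hne : (b.repr u).support.Nonempty := by
          rw [Finsupp.support_nonempty_iff]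
          intro h'
          exact h0 (b.repr.map_eq_zero_iff.mp h')
        obtain ⟨i, hi⟩ := hne
        apply Submodule.mem_iSup_of_mem (w i)
        refine ⟨hu, ?_⟩
        rw [← b.sum_repr u]
        refine Submodule.sum_mem _ fun j _ => ?_
        by_cases hj : b.repr u j = 0
        · rw [hj, zero_smul]; exact Submodule.zero_mem _
        · rw [hall i hi j (Finsupp.mem_support_iff.mpr hj)]
          exact Submodule.smul_mem _ _ (hb j)
      · push Not at hall
        obtain ⟨i, hi, j, hj, hij⟩ := hall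
        obtain ⟨a, ha⟩ := Function.ne_iff.mp hij
        have hrep : ∀ (c : ℂ) m, b.repr (⁅h a, u⁆ - c • u) m = ((w m a : ℂ) - c) * b.repr u m := by
          intro c m
          have hlin : (b.coord m).comp (rp V (h a) : V →ₗ[ℂ] V) = (w m a : ℂ) • b.coord m := by
            apply b.ext
            intro j
            rw [LinearMap.comp_apply, LinearMap.smul_apply, rp_apply, hb j a, map_smul]
            simp only [Basis.coord_apply, Basis.repr_self, smul_eq_mul]
            by_cases hij : j = m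
            · subst hij; simp
            · simp [hij]
          have h1 := LinearMap.congr_fun hlin u
          simp only [LinearMap.comp_apply, LinearMap.smul_apply, rp_apply, Basis.coord_apply,
            smul_eq_mul] at h1
          rw [map_sub, map_smul, Finsupp.sub_apply, Finsupp.smul_apply, h1, smul_eq_mul]
          ring
        have key : ∀ p ∈ (b.repr u).support, ⁅h a, u⁆ - (w p a : ℂ) • u ∈
            ⨆ β, (N.toSubmodule ⊓ wtSpace V β) := by
          intro p hp
          refine ih _ ?_ _ (N.sub_mem (N.lie_mem hu) (N.smul_mem _ hu)) rfl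
          rw [← hn]
          apply card_lt_card
          rw [ssubset_iff_of_subset]
          · refine ⟨w p, mem_image_of_mem _ hp, ?_⟩
            intro hmem
            obtain ⟨m, hm, hm'⟩ := mem_image.mp hmem
            rw [Finsupp.mem_support_iff, hrep _ m, hm', sub_self, zero_mul] at hm
            exact hm rfl
          · apply image_subset_image
            intro m hm
            rw [Finsupp.mem_support_iff, hrep _ m] at hm
            rw [Finsupp.mem_support_iff]
            exact right_ne_zero_of_mul hm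
        have h3 : ((w i a : ℂ) - (w j a : ℂ)) ≠ 0 := by
          rw [sub_ne_zero]
          exact_mod_cast ha
        have hcomb : u = ((w i a : ℂ) - (w j a : ℂ))⁻¹ •
            ((⁅h a, u⁆ - (w j a : ℂ) • u) - (⁅h a, u⁆ - (w i a : ℂ) • u)) := by
          rw [sub_sub_sub_cancel_left, ← sub_smul, smul_smul, inv_mul_cancel₀ h3, one_smul]
        rw [hcomb]
        exact Submodule.smul_mem _ _ (Submodule.sub_mem _ (key j hj) (key i hi))
  exact main _ u hu rfl

lemma isWM_sub {ι : Type*} [Fintype ι] {b : Basis ι ℂ V} {w : ι → Wt}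
    (hb : IsWB b w) (N : LieSubmodule ℂ g6 V) : IsWM N := by
  rw [IsWM, eq_top_iff]
  rintro ⟨u, hu⟩ -
  have h1 := mem_iSup_inf hb N u hu
  have h2 : ∀ β, (N.toSubmodule ⊓ wtSpace V β) ≤
      (⨆ β, wtSpace N β).map N.toSubmodule.subtype := by
    intro β v hv
    refine ⟨⟨v, hv.1⟩, Submodule.mem_iSup_of_mem β ?_, rfl⟩
    intro a
    apply Subtype.ext
    exact hv.2 a
  obtain ⟨x, hx, hx'⟩ := (iSup_le h2) h1
  have : x = ⟨u, hu⟩ := Subtype.ext hx'
  rw [← this]
  exact hx

/-- Every nonzero submodule of a finite-dimensional weight module contains a nonzero highest weight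
vector. -/
lemma exists_hw {ι : Type*} [Fintype ι] {b : Basis ι ℂ V} {w : ι → Wt}
    (hb : IsWB b w) (N : LieSubmodule ℂ g6 V) (hN : N ≠ ⊥) :
    ∃ κ, ∃ v ∈ N, v ≠ 0 ∧ v ∈ hwSpace V κ := by
  classical
  obtain ⟨u, hu, hu0⟩ : ∃ u ∈ N, u ≠ 0 := by
    by_contra h'
    push Not at h'
    exact hN ((LieSubmodule.eq_bot_iff N).mpr h')
  obtain ⟨κ0, v0, hv0, hne0, hwt0⟩ := exists_weight_vector hb N u hu hu0
  let S : Finset Wt := (univ.image w).filter (fun κ => ∃ v ∈ N, v ≠ 0 ∧ v ∈ wtSpace V κ)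
  have hS : ∀ κ, (∃ v ∈ N, v ≠ 0 ∧ v ∈ wtSpace V κ) → κ ∈ S := by
    rintro κ ⟨v, hv, hne, hwt⟩
    rw [mem_filter]
    refine ⟨?_, v, hv, hne, hwt⟩
    have : b.repr v ≠ 0 := fun h' => hne (b.repr.map_eq_zero_iff.mp h')
    obtain ⟨i, hi⟩ := Finsupp.ne_iff.mp this
    rw [← repr_ne_zero hb hwt hi]
    exact mem_image_of_mem _ (mem_univ i)
  have hne : S.Nonempty := ⟨κ0, hS κ0 ⟨v0, hv0, hne0, hwt0⟩⟩
  obtain ⟨κ, hκ, hmax⟩ := exists_max_image S tot hne
  obtain ⟨-, v, hv, hvne, hvwt⟩ := mem_filter.mp hκ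
  refine ⟨κ, v, hv, hvne, hvwt, ?_⟩
  intro k
  by_contra hk
  have := hmax (κ + pr k) (hS _ ⟨⁅ee k, v⁆, N.lie_mem hv, hk, ee_mem hvwt k⟩)
  exact absurd this (not_le.mpr (tot_add_pr κ k))

lemma exists_hw_above {ι : Type*} [Fintype ι] {b : Basis ι ℂ V} {w : ι → Wt}
    (hb : IsWB b w) (i : ι) : ∃ κ, ple (w i) κ ∧ ∃ v : V, v ≠ 0 ∧ v ∈ hwSpace V κ := by
  classical
  let S : Finset ι := univ.filter (fun j => ple (w i) (w j))
  have hne : S.Nonempty := ⟨i, by simp [S, ple_refl]⟩
  obtain ⟨j, hj, hmax⟩ := exists_max_image S (fun j => tot (w j)) hne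
  have hj' : ple (w i) (w j) := (mem_filter.mp hj).2
  refine ⟨w j, hj', b j, b.ne_zero j, hb j, ?_⟩
  intro k
  by_contra hk
  have : b.repr ⁅ee k, b j⁆ ≠ 0 := fun h' => hk (b.repr.map_eq_zero_iff.mp h')
  obtain ⟨m, hm⟩ := Finsupp.ne_iff.mp this
  have hwm := repr_ne_zero hb (ee_mem (hb j) k) hm
  have := hmax m (by
    rw [mem_filter]
    refine ⟨mem_univ _, ?_⟩
    rw [hwm]
    exact ple_trans hj' (ple_add_pr _ k))
  rw [hwm] at this
  exact absurd this (not_le.mpr (tot_add_pr _ k))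

end Pool.Agent.Hhelper44.CG
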