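import Pool.Agent.Hhelper44.CG.HW

/-!
# Highest weight modules
-/

set_option autoImplicit false
set_option linter.unusedSectionVars false

namespace Pool.Agent.Hhelper44.CG

open Finset Module

attribute [local instance 100] LieRing.ofAssociativeRing

/-! ### `sl₂`-triples and dominance -/

lemma sum_h_ee (k : Fin 9) : ⁅(∑ a, (pr k a : ℂ) • h a), ee k⁆ = (2 * mm k) • ee k := by
  rw [sum_lie]
  simp only [smul_lie, lie_h_ee, smul_smul]
  rw [← sum_smul]
  congr 1
  fin_cases k <;> simp [Fin.sum_univ_three, pr, mm] <;> norm_num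

lemma sum_h_ff (k : Fin 9) : ⁅(∑ a, (pr k a : ℂ) • h a), ff k⁆ = -(2 * mm k) • ff k := by
  rw [sum_lie]
  simp only [smul_lie, lie_h_ff, smul_smul]
  rw [← sum_smul]
  congr 1
  fin_cases k <;> simp [Fin.sum_univ_three, pr, mm] <;> norm_num

lemma lie_ef_ne_zero (k : Fin 9) : ⁅ee k, ff k⁆ ≠ 0 := by
  intro h0
  have h1 := lie_ee_ff k
  rw [h0, smul_zero] at h1
  have h2 : ∀ c : Fin 3, (pr k c : ℂ) = 0 := by
    intro c
    have h3 : (0 : g6).1 (.inl c) (.inl c) = (∑ a, (pr k a : ℂ) • h a : g6).1 (.inl c) (.inl c) :=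
      congrArg (fun x : g6 => x.1 (.inl c) (.inl c)) h1
    have h4 : (∑ a, (pr k a : ℂ) • h a : g6).1 (.inl c) (.inl c) =
        ∑ a, (pr k a : ℂ) * (h a).1 (.inl c) (.inl c) := by
      have : (∑ a, (pr k a : ℂ) • h a : g6).1 = ∑ a, (pr k a : ℂ) • (h a).1 := by
        simp only [Fin.sum_univ_three]; rfl
      rw [this, Matrix.sum_apply]
      simp only [Matrix.smul_apply, smul_eq_mul]
    rw [h4] at h3
    simp only [h_apply, if_true, wt] at h3
    rw [sum_eq_single c] at h3
    · simpa using h3.symm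
    · intro a _ ha
      rw [Pi.single_eq_of_ne ha]; simp
    · intro h'; exact absurd (mem_univ _) h'
  fin_cases k <;> (first | (have := h2 0; simp [pr] at this; done) | (have := h2 1; simp [pr] at this; done) | (have := h2 2; simp [pr] at this; done))

lemma sl2 (k : Fin 9) : IsSl2Triple ⁅ee k, ff k⁆ (ee k) (ff k) where
  h_ne_zero := lie_ef_ne_zero k
  lie_e_f := rfl
  lie_h_e_nsmul := by
    have h1 := sum_h_ee k
    rw [← lie_ee_ff, smul_lie, mul_comm, mul_smul] at h1
    have := smul_right_injective _ (mm_ne_zero k) h1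
    rw [this]
    exact ofNat_smul_eq_nsmul ℂ 2 (ee k)
  lie_h_f_nsmul := by
    have h1 := sum_h_ff k
    rw [← lie_ee_ff, smul_lie, neg_smul, mul_comm, mul_smul, ← smul_neg] at h1
    have := smul_right_injective _ (mm_ne_zero k) h1
    rw [this]
    congr 1
    exact ofNat_smul_eq_nsmul ℂ 2 (ff k)

section

variable {V : Type*} [AddCommGroup V] [Module ℂ V] [LieRingModule g6 V] [LieModule ℂ g6 V]

lemma lie_ef_wt {β : Wt} {v : V} (hv : v ∈ wtSpace V β) (k : Fin 9) :
    ⁅⁅ee k, ff k⁆, v⁆ = ((mm k)⁻¹ * ∑ a, (pr k a : ℂ) * (β a : ℂ)) • v := by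
  have h1 : ⁅ee k, ff k⁆ = (mm k)⁻¹ • ∑ a, (pr k a : ℂ) • h a := by
    rw [← lie_ee_ff, smul_smul, inv_mul_cancel₀ (mm_ne_zero k), one_smul]
  rw [h1, smul_lie, sum_lie, mul_smul, sum_smul]
  congr 1
  refine sum_congr rfl fun a _ => ?_
  rw [smul_lie, hv a, smul_smul]

variable [FiniteDimensional ℂ V]

lemma hw_nat {κ : Wt} {v : V} (hv : v ∈ hwSpace V κ) (h0 : v ≠ 0) (k : Fin 9) :
    ∃ n : ℕ, ∑ a, (pr k a : ℂ) * (κ a : ℂ) = mm k * n := by
  have P : (sl2 k).HasPrimitiveVectorWith v ((mm k)⁻¹ * ∑ a, (pr k a : ℂ) * (κ a : ℂ)) :=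
    { ne_zero := h0
      lie_h := lie_ef_wt hv.1 k
      lie_e := hv.2 k }
  obtain ⟨n, hn⟩ := P.exists_nat
  refine ⟨n, ?_⟩
  rw [← hn, ← mul_assoc, mul_inv_cancel₀ (mm_ne_zero k), one_mul]

/-- the highest weight of a finite-dimensional module is dominant -/
lemma hw_dominant {κ : Wt} {v : V} (hv : v ∈ hwSpace V κ) (h0 : v ≠ 0) :
    κ 1 ≤ κ 0 ∧ κ 2 ≤ κ 1 ∧ 0 ≤ κ 2 := by
  obtain ⟨n0, h0'⟩ := hw_nat hv h0 0
  obtain ⟨n2, h2'⟩ := hw_nat hv h0 2
  obtain ⟨n8, h8'⟩ := hw_nat hv h0 8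
  simp [Fin.sum_univ_three, pr, mm] at h0' h2' h8'
  have e0 : κ 0 + -κ 1 = (n0 : ℤ) := by exact_mod_cast h0'
  have e2 : κ 1 + -κ 2 = (n2 : ℤ) := by exact_mod_cast h2'
  have e8 : κ 2 = (n8 : ℤ) := by exact_mod_cast h8'
  refine ⟨?_, ?_, ?_⟩ <;> omega

lemma hw_sdom {κ : Wt} {v : V} (hv : v ∈ hwSpace V κ) (h0 : v ≠ 0) : SDom (κ + rho) := by
  obtain ⟨h1, h2, h3⟩ := hw_dominant hv h0
  refine ⟨?_, ?_, ?_⟩ <;> simp [rho] <;> omega

end

/-! ### Spanning of the Lie algebra -/

lemma F_pp (k : Fin 9) : F (pp k).1 (pp k).2 = mm k • ee k ∧ F (pp k).2 (pp k).1 = mm k • ff k := by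
  constructor
  · rw [ee, smul_smul, mul_inv_cancel₀ (mm_ne_zero k), one_smul]
  · rw [ff, smul_smul, mul_inv_cancel₀ (mm_ne_zero k), one_smul]

/-- span of the Cartan elements and the root vectors -/
noncomputable def Sp : Submodule ℂ g6 :=
  Submodule.span ℂ (Set.range h ∪ Set.range ee ∪ Set.range ff)

lemma h_mem_Sp (a : Fin 3) : h a ∈ Sp := Submodule.subset_span (Or.inl (Or.inl ⟨a, rfl⟩))
lemma ee_mem_Sp (k : Fin 9) : ee k ∈ Sp := Submodule.subset_span (Or.inl (Or.inr ⟨k, rfl⟩))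
lemma ff_mem_Sp (k : Fin 9) : ff k ∈ Sp := Submodule.subset_span (Or.inr ⟨k, rfl⟩)

lemma F_mem_Sp (i j : I6) : F i j ∈ Sp := by
  have e : ∀ k : Fin 9, F (pp k).1 (pp k).2 ∈ Sp := fun k => by
    rw [(F_pp k).1]; exact Submodule.smul_mem _ _ (ee_mem_Sp k)
  have f : ∀ k : Fin 9, F (pp k).2 (pp k).1 ∈ Sp := fun k => by
    rw [(F_pp k).2]; exact Submodule.smul_mem _ _ (ff_mem_Sp k)
  have ll : ∀ a b : Fin 3, F (.inl a) (.inl b) ∈ Sp := by
    intro a b
    fin_cases a <;> fin_cases b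
    · exact h_mem_Sp 0
    · exact e 0
    · exact e 1
    · exact f 0
    · exact h_mem_Sp 1
    · exact e 2
    · exact f 1
    · exact f 2
    · exact h_mem_Sp 2
  rcases i with a | a <;> rcases j with b | b
  · exact ll a b
  · fin_cases a <;> fin_cases b
    · exact e 6
    · exact e 3
    · exact e 4
    · change F (.inl 1) (.inr 0) ∈ Sp
      rw [F_lr_comm]; exact e 3
    · exact e 7
    · exact e 5
    · change F (.inl 2) (.inr 0) ∈ Sp
      rw [F_lr_comm]; exact e 4
    · change F (.inl 2) (.inr 1) ∈ Sp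
      rw [F_lr_comm]; exact e 5
    · exact e 8
  · fin_cases a <;> fin_cases b
    · exact f 6
    · change F (.inr 0) (.inl 1) ∈ Sp
      rw [F_rl_comm]; exact f 3
    · change F (.inr 0) (.inl 2) ∈ Sp
      rw [F_rl_comm]; exact f 4
    · exact f 3
    · exact f 7
    · change F (.inr 1) (.inl 2) ∈ Sp
      rw [F_rl_comm]; exact f 5
    · exact f 4
    · exact f 5
    · exact f 8
  · rw [F_rr]
    exact Submodule.neg_mem _ (ll b a)

lemma mem_Sp (x : g6) : x ∈ Sp := by
  have : x = (2 : ℂ)⁻¹ • P x.1 := by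
    rw [P_self, smul_smul, inv_mul_cancel₀ two_ne_zero, one_smul]
  rw [this, P_expand]
  exact Submodule.smul_mem _ _ (Submodule.sum_mem _ fun i _ => Submodule.sum_mem _ fun j _ =>
    Submodule.smul_mem _ _ (F_mem_Sp i j))

section

variable {V : Type*} [AddCommGroup V] [Module ℂ V] [LieRingModule g6 V] [LieModule ℂ g6 V]

/-- If a submodule of `V` and a vector `u` satisfy `⁅x, u⁆ ∈ N` for the spanning elements, then for
all `x`. -/
lemma lie_mem_of_gens {N : Submodule ℂ V} {u : V} (hh : ∀ a, ⁅h a, u⁆ ∈ N)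
    (he : ∀ k, ⁅ee k, u⁆ ∈ N) (hf : ∀ k, ⁅ff k, u⁆ ∈ N) (x : g6) : ⁅x, u⁆ ∈ N := by
  have hx := mem_Sp x
  rw [Sp] at hx
  induction hx using Submodule.span_induction with
  | mem y hy =>
    rcases hy with (⟨a, rfl⟩ | ⟨k, rfl⟩) | ⟨k, rfl⟩
    · exact hh a
    · exact he k
    · exact hf k
  | zero => rw [zero_lie]; exact N.zero_mem
  | add y z _ _ hy hz => rw [add_lie]; exact N.add_mem hy hz
  | smul c y _ hy => rw [smul_lie]; exact N.smul_mem c hy

/-- monomials in the lowering operators applied to `v` -/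
noncomputable def mono (v : V) : List (Fin 9) → V
  | [] => v
  | k :: l => ⁅ff k, mono v l⁆

/-- the weight of a monomial -/
def monoWt (κ : Wt) : List (Fin 9) → Wt
  | [] => κ
  | k :: l => monoWt κ l - pr k

lemma mono_mem {κ : Wt} {v : V} (hv : v ∈ wtSpace V κ) (l : List (Fin 9)) :
    mono v l ∈ wtSpace V (monoWt κ l) := by
  induction l with
  | nil => exact hv
  | cons k l ih => exact ff_mem ih k

lemma monoWt_ple (κ : Wt) (l : List (Fin 9)) : ple (monoWt κ l) κ := by
  induction l with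
  | nil => exact ple_refl κ
  | cons k l ih =>
    refine ple_trans ?_ ih
    have := ple_add_pr (monoWt κ l - pr k) k
    rwa [sub_add_cancel] at this

lemma monoWt_tot (κ : Wt) (l : List (Fin 9)) (hl : l ≠ []) : tot (monoWt κ l) < tot κ := by
  induction l with
  | nil => exact absurd rfl hl
  | cons k l ih =>
    have h1 := tot_add_pr (monoWt κ l - pr k) k
    rw [sub_add_cancel] at h1
    by_cases hl' : l = []
    · subst hl'; exact h1
    · exact h1.trans (ih hl')

lemma lie_mono_mem {κ : Wt} {v : V} (hv : v ∈ hwSpace V κ) (l : List (Fin 9)) (x : g6) :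
    ⁅x, mono v l⁆ ∈ Submodule.span ℂ (Set.range (mono v)) := by
  induction l generalizing x with
  | nil =>
    refine lie_mem_of_gens (fun a => ?_) (fun k => ?_) (fun k => ?_) x
    · change ⁅h a, v⁆ ∈ _
      rw [hv.1 a]
      exact Submodule.smul_mem _ _ (Submodule.subset_span ⟨[], rfl⟩)
    · change ⁅ee k, v⁆ ∈ _
      rw [hv.2 k]; exact Submodule.zero_mem _
    · exact Submodule.subset_span ⟨[k], rfl⟩
  | cons k' l ih =>
    have hff : ∀ u ∈ Submodule.span ℂ (Set.range (mono v)), ∀ k,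
        ⁅ff k, u⁆ ∈ Submodule.span ℂ (Set.range (mono v)) := by
      intro u hu k
      induction hu using Submodule.span_induction with
      | mem y hy =>
        obtain ⟨l, rfl⟩ := hy
        exact Submodule.subset_span ⟨k :: l, rfl⟩
      | zero => rw [lie_zero]; exact Submodule.zero_mem _
      | add y z _ _ hy hz => rw [lie_add]; exact Submodule.add_mem _ hy hz
      | smul c y _ hy => rw [lie_smul]; exact Submodule.smul_mem _ c hy
    refine lie_mem_of_gens (fun a => ?_) (fun k => ?_) (fun k => ?_) x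
    · rw [mono_mem hv.1 (k' :: l) a]
      exact Submodule.smul_mem _ _ (Submodule.subset_span ⟨_, rfl⟩)
    · change ⁅ee k, ⁅ff k', mono v l⁆⁆ ∈ _
      rw [leibniz_lie]
      exact Submodule.add_mem _ (ih _) (hff _ (ih _) k')
    · exact Submodule.subset_span ⟨k :: k' :: l, rfl⟩

lemma span_mono_eq_top {κ : Wt} {v : V} (hv : v ∈ hwSpace V κ)
    (hgen : LieSubmodule.lieSpan ℂ g6 {v} = ⊤) : Submodule.span ℂ (Set.range (mono v)) = ⊤ := by
  let N : LieSubmodule ℂ g6 V :=
    { Submodule.span ℂ (Set.range (mono v)) with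
      lie_mem := by
        intro x m hm
        change m ∈ Submodule.span ℂ (Set.range (mono v)) at hm
        change ⁅x, m⁆ ∈ Submodule.span ℂ (Set.range (mono v))
        induction hm using Submodule.span_induction with
        | mem y hy =>
          obtain ⟨l, rfl⟩ := hy
          exact lie_mono_mem hv l x
        | zero => rw [lie_zero]; exact Submodule.zero_mem _
        | add y z _ _ hy hz => rw [lie_add]; exact Submodule.add_mem _ hy hz
        | smul c y _ hy => rw [lie_smul]; exact Submodule.smul_mem _ c hy }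
  have h1 : LieSubmodule.lieSpan ℂ g6 {v} ≤ N := by
    rw [LieSubmodule.lieSpan_le, Set.singleton_subset_iff]
    exact Submodule.subset_span ⟨[], rfl⟩
  rw [hgen, top_le_iff] at h1
  have h2 : N.toSubmodule = ⊤ := by rw [h1]; rfl
  exact h2

lemma hwmod_isWM {κ : Wt} {v : V} (hv : v ∈ hwSpace V κ)
    (hgen : LieSubmodule.lieSpan ℂ g6 {v} = ⊤) : IsWM V := by
  rw [IsWM, eq_top_iff, ← span_mono_eq_top hv hgen, Submodule.span_le]
  rintro _ ⟨l, rfl⟩
  exact Submodule.mem_iSup_of_mem _ (mono_mem hv.1 l)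

lemma hwmod_Cas {κ : Wt} {v : V} (hv : v ∈ hwSpace V κ)
    (hgen : LieSubmodule.lieSpan ℂ g6 {v} = ⊤) (u : V) : Cas V u = cc κ • u := by
  let N : LieSubmodule ℂ g6 V :=
    { LinearMap.ker (Cas V - cc κ • (1 : Module.End ℂ V)) with
      lie_mem := by
        intro x m hm
        change (Cas V - cc κ • (1 : Module.End ℂ V)) m = 0 at hm
        change (Cas V - cc κ • (1 : Module.End ℂ V)) (rp V x m) = 0
        have h1 : Cas V (rp V x m) = rp V x (Cas V m) :=
          (LinearMap.congr_fun (Cas_comm V x) m).symm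
        rw [LinearMap.sub_apply, LinearMap.smul_apply, Module.End.one_apply, sub_eq_zero] at hm ⊢
        rw [h1, hm, map_smul] }
  have h1 : LieSubmodule.lieSpan ℂ g6 {v} ≤ N := by
    rw [LieSubmodule.lieSpan_le, Set.singleton_subset_iff]
    change (Cas V - cc κ • (1 : Module.End ℂ V)) v = 0
    rw [LinearMap.sub_apply, LinearMap.smul_apply, Module.End.one_apply, Cas_hw hv, sub_self]
  rw [hgen, top_le_iff] at h1
  have h2 : u ∈ N := by rw [h1]; trivial
  change (Cas V - cc κ • (1 : Module.End ℂ V)) u = 0 at h2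
  rwa [LinearMap.sub_apply, LinearMap.smul_apply, Module.End.one_apply, sub_eq_zero] at h2

section Basis

variable {ι : Type*} [Fintype ι] {b : Basis ι ℂ V} {w : ι → Wt}

lemma hwmod_exists_mono {κ : Wt} {v : V} (hv : v ∈ hwSpace V κ)
    (hgen : LieSubmodule.lieSpan ℂ g6 {v} = ⊤) (φ : V →ₗ[ℂ] ℂ) (hφ : φ ≠ 0) :
    ∃ l, φ (mono v l) ≠ 0 := by
  by_contra h'
  push Not at h'
  apply hφ
  have : ⊤ ≤ LinearMap.ker φ := by
    rw [← span_mono_eq_top hv hgen, Submodule.span_le]
    rintro _ ⟨l, rfl⟩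
    exact h' l
  ext u
  exact this (Submodule.mem_top : u ∈ ⊤)

lemma hwmod_ple (hb : IsWB b w) {κ : Wt} {v : V} (hv : v ∈ hwSpace V κ)
    (hgen : LieSubmodule.lieSpan ℂ g6 {v} = ⊤) (i : ι) : ple (w i) κ := by
  obtain ⟨l, hl⟩ := hwmod_exists_mono hv hgen (b.coord i) (by
    intro h'
    have := LinearMap.congr_fun h' (b i)
    simp at this)
  have := repr_ne_zero hb (mono_mem hv.1 l) (i := i) hl
  rw [this]
  exact monoWt_ple κ l

lemma hwmod_unique (hb : IsWB b w) {κ : Wt} {v : V} (hv : v ∈ hwSpace V κ) (h0 : v ≠ 0)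
    (hgen : LieSubmodule.lieSpan ℂ g6 {v} = ⊤) : finrank ℂ (wtSpace V κ) = 1 := by
  rw [finrank_eq_one_iff']
  refine ⟨⟨v, hv.1⟩, fun h' => h0 (congrArg Subtype.val h'), ?_⟩
  rintro ⟨u, hu⟩
  -- pick a coordinate where `v` does not vanish
  have hr : b.repr v ≠ 0 := fun h' => h0 (b.repr.map_eq_zero_iff.mp h')
  obtain ⟨i, hi⟩ := Finsupp.ne_iff.mp hr
  rw [Finsupp.zero_apply] at hi
  have hwi := repr_ne_zero hb hv.1 hi
  refine ⟨b.repr u i / b.repr v i, ?_⟩
  apply Subtype.ext
  change (b.repr u i / b.repr v i) • v = u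
  apply b.repr.injective
  ext j
  rw [map_smul, Finsupp.smul_apply, smul_eq_mul]
  by_cases hj : w j = κ
  · -- the functional `v_i x_j - v_j x_i` vanishes
    have hz : b.repr v i • b.coord j - b.repr v j • b.coord i = 0 := by
      by_contra hne
      obtain ⟨l, hl⟩ := hwmod_exists_mono hv hgen _ hne
      rw [LinearMap.sub_apply, LinearMap.smul_apply, LinearMap.smul_apply, Basis.coord_apply,
        Basis.coord_apply, smul_eq_mul, smul_eq_mul] at hl
      by_cases hl' : l = []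
      · subst hl'
        change b.repr v i * b.repr v j - b.repr v j * b.repr v i ≠ 0 at hl
        apply hl; ring
      · have ht := monoWt_tot κ l hl'
        have z : ∀ m, w m = κ → b.repr (mono v l) m = 0 := by
          intro m hm
          by_contra hne'
          have := repr_ne_zero hb (mono_mem hv.1 l) hne'
          rw [hm] at this
          rw [← this] at ht
          exact lt_irrefl _ ht
        rw [z i hwi, z j hj] at hl
        apply hl; ring
    have h1 := LinearMap.congr_fun hz u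
    rw [LinearMap.sub_apply, LinearMap.smul_apply, LinearMap.smul_apply, Basis.coord_apply,
      Basis.coord_apply, smul_eq_mul, smul_eq_mul, LinearMap.zero_apply, sub_eq_zero] at h1
    field_simp
    linear_combination -h1
  · have z : ∀ x : V, x ∈ wtSpace V κ → b.repr x j = 0 := by
      intro x hx
      by_contra hne'
      exact hj (repr_ne_zero hb hx hne')
    rw [z v hv.1, z u hu, mul_zero]

end Basis

/-- A finite-dimensional module generated by a highest weight vector is irreducible. -/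
theorem hwmod_irreducible [FiniteDimensional ℂ V] {κ : Wt} {v : V} (hv : v ∈ hwSpace V κ)
    (h0 : v ≠ 0) (hgen : LieSubmodule.lieSpan ℂ g6 {v} = ⊤) : LieModule.IsIrreducible ℂ g6 V := by
  obtain ⟨n, b, w, hb⟩ := exists_WB (hwmod_isWM hv hgen)
  have : Nontrivial V := ⟨⟨v, 0, h0⟩⟩
  apply LieModule.IsIrreducible.mk
  intro N hN
  obtain ⟨κ', v', hv'N, hv'0, hv'⟩ := exists_hw hb N hN
  have hple : ple κ' κ := by
    have hr : b.repr v' ≠ 0 := fun h' => hv'0 (b.repr.map_eq_zero_iff.mp h')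
    obtain ⟨i, hi⟩ := Finsupp.ne_iff.mp hr
    rw [← repr_ne_zero hb hv'.1 hi]
    exact hwmod_ple hb hv hgen i
  have hcas : cc κ' = cc κ := by
    have h1 := Cas_hw hv'
    rw [hwmod_Cas hv hgen v'] at h1
    have h2 : (cc κ - cc κ') • v' = 0 := by rw [sub_smul, h1, sub_self]
    rcases smul_eq_zero.mp h2 with h3 | h3
    · exact (sub_eq_zero.mp h3).symm
    · exact absurd h3 hv'0
  have heq : κ' + rho = κ + rho := by
    apply norm_strict (hw_sdom hv' hv'0) (hw_sdom hv h0)
    · obtain ⟨a, b', c⟩ := hple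
      refine ⟨?_, ?_, ?_⟩ <;> simp only [Pi.add_apply] <;> linarith
    · have : (∑ a, ((κ' + rho) a : ℂ) ^ 2) = ∑ a, ((κ + rho) a : ℂ) ^ 2 := by
        have := hcas
        unfold cc at this
        linear_combination this
      exact_mod_cast this
  have hκ : κ' = κ := add_right_cancel heq
  subst hκ
  -- `v` is a multiple of `v'`
  have h1 := hwmod_unique hb hv h0 hgen
  rw [finrank_eq_one_iff_of_nonzero' (⟨v', hv'.1⟩ : wtSpace V κ')
    (fun h' => hv'0 (congrArg Subtype.val h'))] at h1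
  obtain ⟨c, hc⟩ := h1 ⟨v, hv.1⟩
  have hc' : c • v' = v := congrArg Subtype.val hc
  have hvN : v ∈ N := by rw [← hc']; exact N.smul_mem c hv'N
  rw [eq_top_iff, ← hgen, LieSubmodule.lieSpan_le, Set.singleton_subset_iff]
  exact hvN

end

end Pool.Agent.Hhelper44.CG
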