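import Pool.Agent.Hhelper44.CG.Mult

/-!
# Homomorphisms from an irreducible module, highest weight vectors; tensor products
-/

set_option autoImplicit false
set_option linter.unusedSectionVars false

namespace Pool.Agent.Hhelper44.CG

open Finset Module

attribute [local instance 100] LieRing.ofAssociativeRing

variable {V : Type*} [AddCommGroup V] [Module ℂ V] [LieRingModule g6 V] [LieModule ℂ g6 V]
variable {M : Type*} [AddCommGroup M] [Module ℂ M] [LieRingModule g6 M] [LieModule ℂ g6 M]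

lemma hw_map (φ : V →ₗ⁅ℂ,g6⁆ M) {κ : Wt} {v : V} (hv : v ∈ hwSpace V κ) : φ v ∈ hwSpace M κ := by
  refine ⟨fun a => ?_, fun k => ?_⟩
  · rw [← LieModuleHom.map_lie, hv.1 a, map_smul]
  · rw [← LieModuleHom.map_lie, hv.2 k, map_zero]

/-- the submodule generated by a vector, and the vector in it -/
noncomputable def gen (p : V) : LieSubmodule.lieSpan ℂ g6 {p} :=
  ⟨p, LieSubmodule.subset_lieSpan rfl⟩

lemma gen_hw {p : V} {κ : Wt} (hp : p ∈ hwSpace V κ) :
    gen p ∈ hwSpace (LieSubmodule.lieSpan ℂ g6 {p}) κ := by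
  refine ⟨fun a => ?_, fun k => ?_⟩
  · apply Subtype.ext; exact hp.1 a
  · apply Subtype.ext; exact hp.2 k

lemma gen_span (p : V) : LieSubmodule.lieSpan ℂ g6 {gen p} = ⊤ := by
  set N' := LieSubmodule.lieSpan ℂ g6 {gen p}
  have h1 : LieSubmodule.lieSpan ℂ g6 {p} ≤ N'.map (LieSubmodule.lieSpan ℂ g6 {p}).incl := by
    rw [LieSubmodule.lieSpan_le, Set.singleton_subset_iff]
    exact ⟨gen p, LieSubmodule.subset_lieSpan rfl, rfl⟩
  rw [eq_top_iff]
  rintro ⟨n, hn⟩ -
  obtain ⟨n', hn', hn''⟩ := h1 hn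
  have : n' = ⟨n, hn⟩ := Subtype.ext hn''
  rw [← this]
  exact hn'

lemma gen_ne_zero {p : V} (h0 : p ≠ 0) : gen p ≠ 0 := fun h => h0 (congrArg Subtype.val h)

theorem gen_irreducible [FiniteDimensional ℂ V] {p : V} {κ : Wt} (hp : p ∈ hwSpace V κ)
    (h0 : p ≠ 0) : LieModule.IsIrreducible ℂ g6 (LieSubmodule.lieSpan ℂ g6 {p}) :=
  hwmod_irreducible (gen_hw hp) (gen_ne_zero h0) (gen_span p)

lemma irr_span [LieModule.IsIrreducible ℂ g6 V] {v : V} (h0 : v ≠ 0) :
    LieSubmodule.lieSpan ℂ g6 {v} = ⊤ := by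
  rcases eq_bot_or_eq_top (LieSubmodule.lieSpan ℂ g6 {v}) with h | h
  · exfalso
    have h1 : v ∈ LieSubmodule.lieSpan ℂ g6 {v} := LieSubmodule.subset_lieSpan rfl
    rw [h] at h1
    exact h0 h1
  · exact h

/-- product of modules -/
@[reducible] def prodLRM : LieRingModule g6 (V × M) where
  bracket x p := (⁅x, p.1⁆, ⁅x, p.2⁆)
  add_lie x y p := by
    ext
    · exact add_lie x y p.1
    · exact add_lie x y p.2
  lie_add x p q := by
    ext
    · exact lie_add x p.1 q.1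
    · exact lie_add x p.2 q.2
  leibniz_lie x y p := by
    ext
    · exact leibniz_lie x y p.1
    · exact leibniz_lie x y p.2

attribute [local instance] prodLRM

/-- product of modules -/
theorem prodLM : LieModule ℂ g6 (V × M) where
  smul_lie c x p := by
    ext
    · exact smul_lie c x p.1
    · exact smul_lie c x p.2
  lie_smul c x p := by
    ext
    · exact lie_smul c x p.1
    · exact lie_smul c x p.2

attribute [local instance] prodLM

/-- first projection -/
def fstH : V × M →ₗ⁅ℂ,g6⁆ V where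
  toLinearMap := LinearMap.fst ℂ V M
  map_lie' := rfl

/-- second projection -/
def sndH : V × M →ₗ⁅ℂ,g6⁆ M where
  toLinearMap := LinearMap.snd ℂ V M
  map_lie' := rfl

variable [FiniteDimensional ℂ V] [FiniteDimensional ℂ M]

theorem exists_hom [LieModule.IsIrreducible ℂ g6 V] {κ : Wt} {v : V} (hv : v ∈ hwSpace V κ)
    (h0 : v ≠ 0) {m : M} (hm : m ∈ hwSpace M κ) : ∃ φ : V →ₗ⁅ℂ,g6⁆ M, φ v = m := by
  let p : V × M := (v, m)
  have hp : p ∈ hwSpace (V × M) κ := by
    refine ⟨fun a => ?_, fun k => ?_⟩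
    · ext
      · exact hv.1 a
      · exact hm.1 a
    · ext
      · exact hv.2 k
      · exact hm.2 k
  have hp0 : p ≠ 0 := fun h => h0 (congrArg Prod.fst h)
  have hirr := gen_irreducible hp hp0
  let N := LieSubmodule.lieSpan ℂ g6 {p}
  let π : N →ₗ⁅ℂ,g6⁆ V := fstH.comp N.incl
  have hπ : π (gen p) = v := rfl
  have hinj : Function.Injective π := by
    rw [← LieModuleHom.ker_eq_bot]
    rcases eq_bot_or_eq_top π.ker with h | h
    · exact h
    · exfalso
      have : gen p ∈ π.ker := by rw [h]; trivial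
      rw [LieModuleHom.mem_ker, hπ] at this
      exact h0 this
  have hsurj : Function.Surjective π := by
    rw [← LieModuleHom.range_eq_top]
    rcases eq_bot_or_eq_top π.range with h | h
    · exfalso
      have : v ∈ π.range := ⟨gen p, hπ⟩
      rw [h] at this
      exact h0 this
    · exact h
  let e : N ≃ₗ[ℂ] V := LinearEquiv.ofBijective (π : N →ₗ[ℂ] V) ⟨hinj, hsurj⟩
  have he : ∀ n, e n = π n := fun n => rfl
  let σ : V →ₗ⁅ℂ,g6⁆ N :=
    { (e.symm : V →ₗ[ℂ] N) with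
      map_lie' := by
        intro x u
        change e.symm ⁅x, u⁆ = ⁅x, e.symm u⁆
        rw [LinearEquiv.symm_apply_eq, he, LieModuleHom.map_lie, ← he, LinearEquiv.apply_symm_apply] }
  refine ⟨(sndH.comp N.incl).comp σ, ?_⟩
  have h1 : σ v = gen p := by
    change e.symm v = gen p
    rw [LinearEquiv.symm_apply_eq, he, hπ]
  rw [LieModuleHom.comp_apply, h1]
  rfl

/-- evaluation at the highest weight vector -/
noncomputable def evH {κ : Wt} {v : V} (hv : v ∈ hwSpace V κ) :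
    (V →ₗ⁅ℂ,g6⁆ M) →ₗ[ℂ] hwSpace M κ where
  toFun φ := ⟨φ v, hw_map φ hv⟩
  map_add' _ _ := rfl
  map_smul' _ _ := rfl

theorem finrank_hom [LieModule.IsIrreducible ℂ g6 V] {κ : Wt} {v : V} (hv : v ∈ hwSpace V κ)
    (h0 : v ≠ 0) : finrank ℂ (V →ₗ⁅ℂ,g6⁆ M) = finrank ℂ (hwSpace M κ) := by
  apply LinearEquiv.finrank_eq
  apply LinearEquiv.ofBijective (evH hv)
  constructor
  · rw [← LinearMap.ker_eq_bot, LinearMap.ker_eq_bot']
    intro φ hφ
    have h1 : φ v = 0 := congrArg Subtype.val hφ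
    ext u
    have h2 : LieSubmodule.lieSpan ℂ g6 {v} ≤ φ.ker := by
      rw [LieSubmodule.lieSpan_le, Set.singleton_subset_iff]
      exact h1
    rw [irr_span h0, top_le_iff] at h2
    have h3 : u ∈ φ.ker := by rw [h2]; trivial
    exact h3
  · rintro ⟨m, hm⟩
    obtain ⟨φ, hφ⟩ := exists_hom hv h0 hm
    exact ⟨φ, Subtype.ext hφ⟩

/-! ### Tensor products -/

open scoped TensorProduct

lemma tmul_wt {β γ : Wt} {u : V} {v : M} (hu : u ∈ wtSpace V β) (hv : v ∈ wtSpace M γ) :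
    u ⊗ₜ[ℂ] v ∈ wtSpace (V ⊗[ℂ] M) (β + γ) := by
  intro a
  rw [TensorProduct.LieModule.lie_tmul_right, hu a, hv a, ← TensorProduct.smul_tmul',
    TensorProduct.tmul_smul, ← add_smul, Pi.add_apply, Int.cast_add]

lemma tmul_hw {β γ : Wt} {u : V} {v : M} (hu : u ∈ hwSpace V β) (hv : v ∈ hwSpace M γ) :
    u ⊗ₜ[ℂ] v ∈ hwSpace (V ⊗[ℂ] M) (β + γ) := by
  refine ⟨tmul_wt hu.1 hv.1, fun k => ?_⟩
  rw [TensorProduct.LieModule.lie_tmul_right, hu.2 k, hv.2 k, TensorProduct.zero_tmul,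
    TensorProduct.tmul_zero, add_zero]

lemma tensor_WB {ι ι' : Type*} [Fintype ι] [Fintype ι'] {b : Basis ι ℂ V} {w : ι → Wt}
    {b' : Basis ι' ℂ M} {w' : ι' → Wt} (hb : IsWB b w) (hb' : IsWB b' w') :
    IsWB (b.tensorProduct b') (fun p : ι × ι' => w p.1 + w' p.2) := by
  rintro ⟨i, j⟩
  rw [Basis.tensorProduct_apply]
  exact tmul_wt (hb i) (hb' j)

lemma tensor_char {ι ι' : Type*} [Fintype ι] [Fintype ι'] (w : ι → Wt) (w' : ι' → Wt) :
    ∑ p : ι × ι', ex (w p.1 + w' p.2) = (∑ i, ex (w i)) * ∑ j, ex (w' j) := by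
  rw [Fintype.sum_prod_type, sum_mul]
  refine sum_congr rfl fun i _ => ?_
  rw [mul_sum]
  refine sum_congr rfl fun j _ => ?_
  rw [ex_add]

end Pool.Agent.Hhelper44.CG
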