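import Mathlib

/-!
# Polynomial identities used for the character of the representation with highest weight `k ω₃`

All identities hold in an arbitrary commutative ring.
-/

set_option autoImplicit false

namespace Pool.Agent.Hhelper44.CG

open Finset

variable {A : Type*} [CommRing A]

/-- two-variable sum over partitions with two even parts -/
def g2 (k : ℕ) (b c : A) : A :=
  ∑ q ∈ range (k + 1), ∑ r ∈ range (q + 1),
    (b ^ (2 * q + 1) * c ^ (2 * r) - c ^ (2 * q + 1) * b ^ (2 * r))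

/-- three-variable sum over partitions with three even parts -/
def g3 (k : ℕ) (a b c : A) : A :=
  ∑ p ∈ range (k + 1),
    (a ^ (2 * p + 2) * g2 p b c + b ^ (2 * p + 2) * g2 p c a + c ^ (2 * p + 2) * g2 p a b)

lemma geom_even (k : ℕ) (c : A) :
    (c ^ 2 - 1) * ∑ r ∈ range (k + 1), c ^ (2 * r) = c ^ (2 * k + 2) - 1 := by
  induction k with
  | zero => simp
  | succ k ih =>
    rw [sum_range_succ, mul_add, ih]
    ring

lemma g2_closed (k : ℕ) (b c : A) :
    (b ^ 2 - 1) * (c ^ 2 - 1) * (b * c - 1) * g2 k b c =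
      (b ^ (2 * k + 4) - 1) * (c ^ (2 * k + 3) - c)
        - (c ^ (2 * k + 4) - 1) * (b ^ (2 * k + 3) - b) := by
  induction k with
  | zero => simp [g2]; ring
  | succ k ih =>
    have h : g2 (k + 1) b c = g2 k b c +
        (b ^ (2 * (k + 1) + 1) * ∑ r ∈ range (k + 1 + 1), c ^ (2 * r)
          - c ^ (2 * (k + 1) + 1) * ∑ r ∈ range (k + 1 + 1), b ^ (2 * r)) := by
      unfold g2
      rw [sum_range_succ, sum_sub_distrib, mul_sum, mul_sum]
    have h1 := geom_even (k + 1) b
    have h2 := geom_even (k + 1) c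
    rw [h]
    linear_combination ih + (b ^ (2 * (k + 1) + 1) * (b ^ 2 - 1) * (b * c - 1)) * h2
      - (c ^ (2 * (k + 1) + 1) * (c ^ 2 - 1) * (b * c - 1)) * h1

/-- the common factor -/
def fac (a b c : A) : A :=
  (a ^ 2 - 1) * (b ^ 2 - 1) * (c ^ 2 - 1) * (a * b - 1) * (a * c - 1) * (b * c - 1)

/-- a 3 by 3 determinant with columns `f`, `g`, `h` -/
def det3 (f0 f1 f2 g0 g1 g2 h0 h1 h2 : A) : A :=
  f0 * (g1 * h2 - g2 * h1) + f1 * (g2 * h0 - g0 * h2) + f2 * (g0 * h1 - g1 * h0)

lemma g3_closed (k : ℕ) (a b c : A) :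
    fac a b c * g3 k a b c =
      det3 (a ^ (2 * k + 6) - 1) (b ^ (2 * k + 6) - 1) (c ^ (2 * k + 6) - 1)
        (a ^ (2 * k + 5) - a) (b ^ (2 * k + 5) - b) (c ^ (2 * k + 5) - c)
        (a ^ (2 * k + 4) - a ^ 2) (b ^ (2 * k + 4) - b ^ 2) (c ^ (2 * k + 4) - c ^ 2) := by
  induction k with
  | zero =>
    simp only [g3, g2, fac, det3, zero_add, sum_range_one, mul_zero, pow_one, pow_zero, mul_one]
    ring
  | succ k ih =>
    have h : g3 (k + 1) a b c = g3 k a b c + (a ^ (2 * (k + 1) + 2) * g2 (k + 1) b c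
        + b ^ (2 * (k + 1) + 2) * g2 (k + 1) c a + c ^ (2 * (k + 1) + 2) * g2 (k + 1) a b) := by
      unfold g3
      rw [sum_range_succ]
    have h1 := g2_closed (k + 1) b c
    have h2 := g2_closed (k + 1) c a
    have h3 := g2_closed (k + 1) a b
    rw [h]
    unfold fac det3 at *
    linear_combination ih
      + (a ^ (2 * (k + 1) + 2) * (a ^ 2 - 1) * (a * b - 1) * (a * c - 1)) * h1
      + (b ^ (2 * (k + 1) + 2) * (b ^ 2 - 1) * (a * b - 1) * (b * c - 1)) * h2
      + (c ^ (2 * (k + 1) + 2) * (c ^ 2 - 1) * (a * c - 1) * (b * c - 1)) * h3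

lemma g3_zero (a b c : A) : g3 0 a b c = (a - b) * (a - c) * (b - c) := by
  simp only [g3, g2, zero_add, sum_range_one, mul_zero, pow_one, pow_zero, mul_one]
  ring

/-- complete homogeneous symmetric polynomial in three variables -/
def h3 (t : ℕ) (a b c : A) : A :=
  ∑ i ∈ range (t + 1), ∑ j ∈ range (t - i + 1), a ^ i * b ^ j * c ^ (t - i - j)

lemma h3_mul (t : ℕ) (a b c : A) :
    h3 t a b c * ((a - b) * (a - c) * (b - c)) =
      a ^ (t + 2) * (b - c) + b ^ (t + 2) * (c - a) + c ^ (t + 2) * (a - b) := by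
  have key : h3 t a b c * (b - c) =
      b * (∑ i ∈ range (t + 1), a ^ i * b ^ (t - i)) - c * ∑ i ∈ range (t + 1), a ^ i * c ^ (t - i) := by
    unfold h3
    rw [sum_mul, mul_sum, mul_sum, ← sum_sub_distrib]
    refine sum_congr rfl fun i hi => ?_
    have h := geom_sum₂_mul b c (t - i + 1)
    have h' : ∑ j ∈ range (t - i + 1), a ^ i * b ^ j * c ^ (t - i - j)
        = a ^ i * ∑ j ∈ range (t - i + 1), b ^ j * c ^ (t - i + 1 - 1 - j) := by
      rw [mul_sum]
      refine sum_congr rfl fun j hj => ?_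
      rw [Nat.add_sub_cancel]; ring
    rw [h', mul_assoc, h]; ring
  have h1 := geom_sum₂_mul a b (t + 1)
  have h2 := geom_sum₂_mul a c (t + 1)
  rw [Nat.add_sub_cancel] at h1 h2
  linear_combination ((a - b) * (a - c)) * key + (b * (a - c)) * h1 - (c * (a - b)) * h2

end Pool.Agent.Hhelper44.CG
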