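import Pool.Agent.Hhelper44.CG.Char

/-!
# The multiplicity formula: highest weight vectors of weight `ν` in a weight module
-/

set_option autoImplicit false
set_option linter.unusedSectionVars false

namespace Pool.Agent.Hhelper44.CG

open Finset Module

attribute [local instance 100] LieRing.ofAssociativeRing

variable {M : Type*} [AddCommGroup M] [Module ℂ M] [LieRingModule g6 M] [LieModule ℂ g6 M]

/-- kernel of an equivariant endomorphism -/
noncomputable def kerSub (T : Module.End ℂ M) (hT : ∀ x, rp M x * T = T * rp M x) :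
    LieSubmodule ℂ g6 M :=
  { LinearMap.ker T with
    lie_mem := by
      intro x m hm
      change T m = 0 at hm
      change T (rp M x m) = 0
      have := LinearMap.congr_fun (hT x) m
      rw [Module.End.mul_apply, Module.End.mul_apply] at this
      rw [← this, hm, map_zero] }

/-- range of an equivariant endomorphism -/
noncomputable def ranSub (T : Module.End ℂ M) (hT : ∀ x, rp M x * T = T * rp M x) :
    LieSubmodule ℂ g6 M :=
  { LinearMap.range T with
    lie_mem := by
      rintro x _ ⟨m, rfl⟩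
      refine ⟨rp M x m, ?_⟩
      have := LinearMap.congr_fun (hT x) m
      rw [Module.End.mul_apply, Module.End.mul_apply] at this
      exact this.symm }

lemma Cas_map {V : Type*} [AddCommGroup V] [Module ℂ V] [LieRingModule g6 V] [LieModule ℂ g6 V]
    (φ : V →ₗ⁅ℂ,g6⁆ M) (u : V) : φ (Cas V u) = Cas M (φ u) := by
  simp only [Cas, LinearMap.add_apply, LinearMap.sum_apply, LinearMap.smul_apply,
    Module.End.mul_apply, rp_apply, map_add, map_sum, map_smul, LieModuleHom.map_lie]

variable [FiniteDimensional ℂ M] {ι : Type*} [Fintype ι] {b : Basis ι ℂ M} {w : ι → Wt}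

lemma mult_aux1 (hb : IsWB b w) {ν : Wt} (hν : SDom (ν + rho))
    (hcc : ∀ κ, (∃ v : M, v ≠ 0 ∧ v ∈ hwSpace M κ) → cc κ = cc ν) (i : ι) (hi : ple ν (w i)) :
    w i = ν := by
  obtain ⟨κ, hκ, v, hv0, hv⟩ := exists_hw_above hb i
  have h1 := hcc κ ⟨v, hv0, hv⟩
  have h2 : ν + rho = κ + rho := by
    apply norm_strict hν (hw_sdom hv hv0)
    · obtain ⟨a1, a2, a3⟩ := ple_trans hi hκ
      refine ⟨?_, ?_, ?_⟩ <;> simp only [Pi.add_apply] <;> linarith
    · have : (∑ a, ((ν + rho) a : ℂ) ^ 2) = ∑ a, ((κ + rho) a : ℂ) ^ 2 := by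
        unfold cc at h1
        linear_combination -h1
      exact_mod_cast this
  have h3 : ν = κ := add_right_cancel h2
  subst h3
  exact ple_antisymm hκ hi

lemma mult_ker (hb : IsWB b w) {ν : Wt} (hν : SDom (ν + rho))
    (hcc : ∀ κ, (∃ v : M, v ≠ 0 ∧ v ∈ hwSpace M κ) → cc κ = cc ν) :
    (Dl * ∑ i, ex (w i)).coeff (ν + rho) = (finrank ℂ (hwSpace M ν) : ℂ) := by
  rw [coeff_top w ν (mult_aux1 hb hν hcc), ← finrank_wtSpace hb]
  have : wtSpace M ν = hwSpace M ν := by
    apply le_antisymm
    · intro v hv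
      refine ⟨hv, fun k => ?_⟩
      by_contra hk
      have h1 : b.repr ⁅ee k, v⁆ ≠ 0 := fun h' => hk (b.repr.map_eq_zero_iff.mp h')
      obtain ⟨m, hm⟩ := Finsupp.ne_iff.mp h1
      have h2 := repr_ne_zero hb (ee_mem hv k) hm
      have h3 := mult_aux1 hb hν hcc m (by rw [h2]; exact ple_add_pr ν k)
      rw [h2] at h3
      have h4 := tot_add_pr ν k
      rw [h3] at h4
      exact lt_irrefl _ h4
    · intro v hv; exact hv.1
  rw [this]

lemma mult_ran (hb : IsWB b w) {ν : Wt} (hev : ∀ v : M, Cas M v = cc ν • v → v = 0) :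
    (Dl * ∑ i, ex (w i)).coeff (ν + rho) = 0 := by
  have h1 := coeff_Dl_char hb (minpoly ℂ (Cas M)) (minpoly.aeval _ _) (ν + rho)
  rcases mul_eq_zero.mp h1 with h2 | h2
  · exfalso
    have h3 : (minpoly ℂ (Cas M)).IsRoot (cc ν) := h2
    rw [← Module.End.hasEigenvalue_iff_isRoot] at h3
    obtain ⟨v, hv⟩ := h3.exists_hasEigenvector
    exact hv.2 (hev v hv.apply_eq_smul)
  · exact h2

theorem finrank_hwSpace (hb : IsWB b w) {ν : Wt} (hν : SDom (ν + rho)) :
    (Dl * ∑ i, ex (w i)).coeff (ν + rho) = (finrank ℂ (hwSpace M ν) : ℂ) := by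
  classical
  set T : Module.End ℂ M := Cas M - cc ν • (1 : Module.End ℂ M) with hTdef
  have hT : ∀ x, rp M x * T = T * rp M x := by
    intro x
    rw [hTdef, mul_sub, sub_mul, Cas_comm, mul_smul_comm, smul_mul_assoc, mul_one, one_mul]
  obtain ⟨n, hn⟩ := (LinearMap.eventually_isCompl_ker_pow_range_pow T).exists_forall_of_atTop
  have hc := hn (n + 1) (Nat.le_succ n)
  have hTn : ∀ x, rp M x * T ^ (n + 1) = T ^ (n + 1) * rp M x := by
    intro x
    exact Commute.pow_right (hT x) (n + 1)
  set K := kerSub (T ^ (n + 1)) hTn with hK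
  set R := ranSub (T ^ (n + 1)) hTn with hR
  obtain ⟨n1, b1, w1, hb1⟩ := exists_WB (isWM_sub hb K)
  obtain ⟨n2, b2, w2, hb2⟩ := exists_WB (isWM_sub hb R)
  have hcompl : IsCompl K.toSubmodule R.toSubmodule := hc
  let e : (K × R) ≃ₗ[ℂ] M := Submodule.prodEquivOfIsCompl K.toSubmodule R.toSubmodule hcompl
  let b3 : Basis (Fin n1 ⊕ Fin n2) ℂ M := (b1.prod b2).map e
  have hb3 : IsWB b3 (Sum.elim w1 w2) := by
    rintro (i | i)
    · have : b3 (Sum.inl i) = (b1 i : M) := by
        simp only [b3, Basis.map_apply, Basis.prod_apply, Sum.elim_inl, Function.comp_apply]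
        change ((b1 i : K) : M) + ((0 : R) : M) = _
        simp
      rw [this, Sum.elim_inl]
      intro a
      exact congrArg Subtype.val (hb1 i a)
    · have : b3 (Sum.inr i) = (b2 i : M) := by
        simp only [b3, Basis.map_apply, Basis.prod_apply, Sum.elim_inr, Function.comp_apply]
        change ((0 : K) : M) + ((b2 i : R) : M) = _
        simp
      rw [this, Sum.elim_inr]
      intro a
      exact congrArg Subtype.val (hb2 i a)
  rw [char_unique hb hb3, Fintype.sum_sum_type, mul_add, AddMonoidAlgebra.coeff_add,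
    Finsupp.add_apply]
  simp only [Sum.elim_inl, Sum.elim_inr]
  have hCasK : ∀ u : K, (Cas K u : M) = Cas M (u : M) := fun u => Cas_map K.incl u
  have hCasR : ∀ u : R, (Cas R u : M) = Cas M (u : M) := fun u => Cas_map R.incl u
  have hTapp : ∀ u : M, T u = Cas M u - cc ν • u := by
    intro u
    rw [hTdef, LinearMap.sub_apply, LinearMap.smul_apply, Module.End.one_apply]
  -- the range part does not contribute
  have hr : (Dl * ∑ i, ex (w2 i)).coeff (ν + rho) = 0 := by
    apply mult_ran hb2
    intro v hv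
    have h1 : Cas M (v : M) = cc ν • (v : M) := by
      rw [← hCasR, hv]; rfl
    have h2 : T (v : M) = 0 := by rw [hTapp, h1, sub_self]
    have h3 : (v : M) ∈ LinearMap.ker (T ^ (n + 1)) := by
      rw [LinearMap.mem_ker, pow_succ, Module.End.mul_apply, h2, map_zero]
    have h4 : (v : M) ∈ LinearMap.range (T ^ (n + 1)) := v.2
    have h5 : (v : M) ∈ LinearMap.ker (T ^ (n + 1)) ⊓ LinearMap.range (T ^ (n + 1)) := ⟨h3, h4⟩
    rw [hc.inf_eq_bot, Submodule.mem_bot] at h5
    exact Subtype.ext h5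
  have hk : (Dl * ∑ i, ex (w1 i)).coeff (ν + rho) = (finrank ℂ (hwSpace K ν) : ℂ) := by
    apply mult_ker hb1 hν
    rintro κ ⟨v, hv0, hv⟩
    have h1 : Cas M (v : M) = cc κ • (v : M) := by
      rw [← hCasK, Cas_hw hv]; rfl
    have h2 : ∀ m : ℕ, (T ^ m) (v : M) = (cc κ - cc ν) ^ m • (v : M) := by
      intro m
      induction m with
      | zero => simp
      | succ m ih =>
        rw [pow_succ, Module.End.mul_apply, hTapp, h1, ← sub_smul, map_smul, ih, smul_smul,
          pow_succ, mul_comm]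
    have h3 : (T ^ (n + 1)) (v : M) = 0 := v.2
    rw [h2] at h3
    rcases smul_eq_zero.mp h3 with h4 | h4
    · exact sub_eq_zero.mp (pow_eq_zero_iff (Nat.succ_ne_zero n) |>.mp h4)
    · exact absurd (Subtype.ext h4) hv0
  rw [hr, hk, add_zero]
  congr 1
  -- the highest weight vectors of `M` lie in `K`
  have hmap : hwSpace M ν = (hwSpace K ν).map K.toSubmodule.subtype := by
    apply le_antisymm
    · intro v hv
      have h1 : T v = 0 := by rw [hTapp, Cas_hw hv, sub_self]
      have h2 : v ∈ K := by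
        change (T ^ (n + 1)) v = 0
        rw [pow_succ, Module.End.mul_apply, h1, map_zero]
      refine ⟨⟨v, h2⟩, ⟨fun a => ?_, fun k => ?_⟩, rfl⟩
      · apply Subtype.ext; exact hv.1 a
      · apply Subtype.ext; exact hv.2 k
    · rintro _ ⟨v, hv, rfl⟩
      refine ⟨fun a => ?_, fun k => ?_⟩
      · exact congrArg Subtype.val (hv.1 a)
      · exact congrArg Subtype.val (hv.2 k)
  rw [hmap]
  exact LinearEquiv.finrank_eq (Submodule.equivMapOfInjective K.toSubmodule.subtype
    (Subtype.val_injective) (hwSpace K ν))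

end Pool.Agent.Hhelper44.CG
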