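import Pool.Agent.Hhelper44.CG.Delta

/-!
# The Lie algebra `sp₆(ℂ)`: root vectors, relations, Casimir element
-/

set_option autoImplicit false

namespace Pool.Agent.Hhelper44.CG

open Finset Matrix

attribute [local instance 100] LieRing.ofAssociativeRing

/-- the index set of rows and columns -/
abbrev I6 := Fin 3 ⊕ Fin 3

/-- `6 × 6` matrices -/
abbrev M6 := Matrix I6 I6 ℂ

/-- the Lie algebra `sp₆(ℂ)` -/
abbrev g6 := LieAlgebra.Symplectic.sp (Fin 3) ℂ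

lemma mem_g6 (A : M6) : A ∈ g6 ↔ Aᵀ * J (Fin 3) ℂ = J (Fin 3) ℂ * (-A) := by
  change A ∈ skewAdjointMatricesLieSubalgebra (J (Fin 3) ℂ) ↔ _
  rw [mem_skewAdjointMatricesLieSubalgebra, mem_skewAdjointMatricesSubmodule]
  rfl

lemma P_mem (Y : M6) : Y + J (Fin 3) ℂ * Yᵀ * J (Fin 3) ℂ ∈ g6 := by
  rw [mem_g6]
  have hJ : J (Fin 3) ℂ * J (Fin 3) ℂ = -1 := J_squared _ _
  have hT : (J (Fin 3) ℂ)ᵀ = - J (Fin 3) ℂ := J_transpose _ _
  rw [transpose_add, transpose_mul, transpose_mul, transpose_transpose, hT]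
  have e1 : -J (Fin 3) ℂ * (Y * -J (Fin 3) ℂ) * J (Fin 3) ℂ = - (J (Fin 3) ℂ * Y) := by
    rw [show -J (Fin 3) ℂ * (Y * -J (Fin 3) ℂ) * J (Fin 3) ℂ
      = J (Fin 3) ℂ * Y * (J (Fin 3) ℂ * J (Fin 3) ℂ) by noncomm_ring, hJ]
    noncomm_ring
  have e2 : J (Fin 3) ℂ * (J (Fin 3) ℂ * Yᵀ * J (Fin 3) ℂ) = - (Yᵀ * J (Fin 3) ℂ) := by
    rw [show J (Fin 3) ℂ * (J (Fin 3) ℂ * Yᵀ * J (Fin 3) ℂ)
      = (J (Fin 3) ℂ * J (Fin 3) ℂ) * (Yᵀ * J (Fin 3) ℂ) by noncomm_ring, hJ]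
    noncomm_ring
  rw [add_mul, e1, neg_add, mul_add, mul_neg, mul_neg, e2, neg_neg]
  abel

/-- the projection (times two) of `gl₆` onto `sp₆` -/
noncomputable def P : M6 →ₗ[ℂ] g6 where
  toFun Y := ⟨Y + J (Fin 3) ℂ * Yᵀ * J (Fin 3) ℂ, P_mem Y⟩
  map_add' Y Z := by
    apply Subtype.ext
    change (Y + Z) + J (Fin 3) ℂ * (Y + Z)ᵀ * J (Fin 3) ℂ =
      (Y + J (Fin 3) ℂ * Yᵀ * J (Fin 3) ℂ) + (Z + J (Fin 3) ℂ * Zᵀ * J (Fin 3) ℂ)
    simp only [transpose_add, mul_add, add_mul]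
    abel
  map_smul' c Y := by
    apply Subtype.ext
    change (c • Y) + J (Fin 3) ℂ * (c • Y)ᵀ * J (Fin 3) ℂ =
      c • (Y + J (Fin 3) ℂ * Yᵀ * J (Fin 3) ℂ)
    simp only [transpose_smul, mul_smul_comm, smul_mul_assoc, smul_add]

lemma P_val (Y : M6) : (P Y).1 = Y + J (Fin 3) ℂ * Yᵀ * J (Fin 3) ℂ := rfl

lemma P_self (X : g6) : P X.1 = (2 : ℂ) • X := by
  apply Subtype.ext
  change X.1 + J (Fin 3) ℂ * X.1ᵀ * J (Fin 3) ℂ = (2 : ℂ) • X.1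
  rw [two_smul]
  congr 1
  have h := (mem_g6 X.1).1 X.2
  rw [mul_assoc, h, ← mul_assoc, J_squared]
  noncomm_ring

lemma lie_P (X : g6) (Y : M6) : ⁅X, P Y⁆ = P (X.1 * Y - Y * X.1) := by
  apply Subtype.ext
  rw [LieSubalgebra.coe_bracket, LieRing.of_associative_ring_bracket, P_val, P_val]
  have h := (mem_g6 X.1).1 X.2
  have hJ : J (Fin 3) ℂ * J (Fin 3) ℂ = -1 := J_squared _ _
  have h2 : J (Fin 3) ℂ * X.1ᵀ = - (X.1 * J (Fin 3) ℂ) := by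
    have : J (Fin 3) ℂ * (X.1ᵀ * J (Fin 3) ℂ) * J (Fin 3) ℂ
      = J (Fin 3) ℂ * (J (Fin 3) ℂ * (-X.1)) * J (Fin 3) ℂ := by rw [h]
    rw [show J (Fin 3) ℂ * (X.1ᵀ * J (Fin 3) ℂ) * J (Fin 3) ℂ
      = J (Fin 3) ℂ * X.1ᵀ * (J (Fin 3) ℂ * J (Fin 3) ℂ) by noncomm_ring,
      show J (Fin 3) ℂ * (J (Fin 3) ℂ * (-X.1)) * J (Fin 3) ℂ
      = (J (Fin 3) ℂ * J (Fin 3) ℂ) * ((-X.1) * J (Fin 3) ℂ) by noncomm_ring, hJ] at this
    have h3 : - (J (Fin 3) ℂ * X.1ᵀ) = X.1 * J (Fin 3) ℂ := by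
      rw [show - (J (Fin 3) ℂ * X.1ᵀ) = J (Fin 3) ℂ * X.1ᵀ * -1 by noncomm_ring, this]
      noncomm_ring
    rw [← h3, neg_neg]
  rw [transpose_sub, transpose_mul, transpose_mul, mul_sub, sub_mul, mul_add, add_mul]
  rw [show J (Fin 3) ℂ * (Yᵀ * X.1ᵀ) * J (Fin 3) ℂ = J (Fin 3) ℂ * Yᵀ * (X.1ᵀ * J (Fin 3) ℂ) by
      noncomm_ring,
    show J (Fin 3) ℂ * (X.1ᵀ * Yᵀ) * J (Fin 3) ℂ = (J (Fin 3) ℂ * X.1ᵀ) * Yᵀ * J (Fin 3) ℂ by
      noncomm_ring, h, h2]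
  noncomm_ring

/-- the elements `F_{ij}` spanning `sp₆` -/
noncomputable def F (i j : I6) : g6 := P (single i j 1)

lemma mat_expand (Y : M6) : Y = ∑ i, ∑ j, Y i j • (single i j (1 : ℂ)) := by
  conv_lhs => rw [matrix_eq_sum_single Y]
  refine sum_congr rfl fun i _ => sum_congr rfl fun j _ => ?_
  rw [smul_single, smul_eq_mul, mul_one]

lemma P_expand (Y : M6) : P Y = ∑ i, ∑ j, Y i j • F i j := by
  conv_lhs => rw [mat_expand Y]
  simp only [map_sum, map_smul, F]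

lemma mul_single_expand (Y : M6) (i j : I6) :
    Y * single i j (1 : ℂ) = ∑ k, Y k i • single k j (1 : ℂ) := by
  ext a b
  simp only [Matrix.sum_apply, Matrix.smul_apply, smul_eq_mul]
  by_cases h : b = j
  · subst h
    rw [Matrix.mul_single_apply_same, mul_one]
    rw [sum_eq_single a]
    · simp
    · intro k _ hk; simp [hk]
    · intro h; exact absurd (mem_univ a) h
  · rw [Matrix.mul_single_apply_of_ne (hbj := h)]
    symm
    apply sum_eq_zero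
    intro k _
    rw [Matrix.single_apply_of_col_ne _ _ (fun h' => h h'.symm), mul_zero]

lemma single_mul_expand (Y : M6) (i j : I6) :
    single i j (1 : ℂ) * Y = ∑ k, Y j k • single i k (1 : ℂ) := by
  ext a b
  simp only [Matrix.sum_apply, Matrix.smul_apply, smul_eq_mul]
  by_cases h : a = i
  · subst h
    rw [Matrix.single_mul_apply_same, one_mul]
    rw [sum_eq_single b]
    · simp
    · intro k _ hk; simp [hk]
    · intro h; exact absurd (mem_univ b) h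
  · rw [Matrix.single_mul_apply_of_ne (h := h)]
    symm
    apply sum_eq_zero
    intro k _
    rw [Matrix.single_apply_of_row_ne (fun h' => h h'.symm), mul_zero]

/-- action of `sp₆` on the spanning set -/
lemma lie_F (X : g6) (i j : I6) : ⁅X, F i j⁆ = ∑ k, X.1 k i • F k j - ∑ k, X.1 j k • F i k := by
  rw [F, lie_P, mul_single_expand, single_mul_expand, map_sub, map_sum, map_sum]
  simp only [map_smul, F]

end Pool.Agent.Hhelper44.CG
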