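import Pool.Agent.Hhelper44.CG.SpLie

/-!
# Relations between the root vectors, and the Casimir operator
-/

set_option autoImplicit false

namespace Pool.Agent.Hhelper44.CG

open Finset Matrix

attribute [local instance 100] LieRing.ofAssociativeRing

lemma F_ll (a b : Fin 3) : (F (.inl a) (.inl b)).1 =
    fromBlocks (single a b 1) 0 0 (-(single b a 1)) := by
  have h : (single (Sum.inl a) (Sum.inl b) (1 : ℂ) : M6) = fromBlocks (single a b 1) 0 0 0 := by
    ext i j; rcases i with i | i <;> rcases j with j | j <;> simp [single_apply]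
  rw [F, P_val, h, J, fromBlocks_transpose, fromBlocks_multiply, fromBlocks_multiply,
    fromBlocks_add]
  simp [transpose_single]

lemma F_lr (a b : Fin 3) : (F (.inl a) (.inr b)).1 =
    fromBlocks 0 (single a b 1 + single b a 1) 0 0 := by
  have h : (single (Sum.inl a) (Sum.inr b) (1 : ℂ) : M6) = fromBlocks 0 (single a b 1) 0 0 := by
    ext i j; rcases i with i | i <;> rcases j with j | j <;> simp [single_apply]
  rw [F, P_val, h, J, fromBlocks_transpose, fromBlocks_multiply, fromBlocks_multiply,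
    fromBlocks_add]
  simp [transpose_single]

lemma F_rl (a b : Fin 3) : (F (.inr a) (.inl b)).1 =
    fromBlocks 0 0 (single a b 1 + single b a 1) 0 := by
  have h : (single (Sum.inr a) (Sum.inl b) (1 : ℂ) : M6) = fromBlocks 0 0 (single a b 1) 0 := by
    ext i j; rcases i with i | i <;> rcases j with j | j <;> simp [single_apply]
  rw [F, P_val, h, J, fromBlocks_transpose, fromBlocks_multiply, fromBlocks_multiply,
    fromBlocks_add]
  simp [transpose_single]

lemma F_rr (a b : Fin 3) : F (.inr a) (.inr b) = - F (.inl b) (.inl a) := by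
  apply Subtype.ext
  change _ = - (F (.inl b) (.inl a)).1
  have h : (single (Sum.inr a) (Sum.inr b) (1 : ℂ) : M6) = fromBlocks 0 0 0 (single a b 1) := by
    ext i j; rcases i with i | i <;> rcases j with j | j <;> simp [single_apply]
  rw [F_ll, F, P_val, h, J, fromBlocks_transpose, fromBlocks_multiply, fromBlocks_multiply,
    fromBlocks_add, fromBlocks_neg]
  simp [transpose_single]

lemma F_lr_comm (a b : Fin 3) : F (.inl a) (.inr b) = F (.inl b) (.inr a) := by
  apply Subtype.ext
  rw [F_lr, F_lr, add_comm]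

lemma F_rl_comm (a b : Fin 3) : F (.inr a) (.inl b) = F (.inr b) (.inl a) := by
  apply Subtype.ext
  rw [F_rl, F_rl, add_comm]

/-- the Cartan elements `h_a = E_{aa} - E_{a'a'}` -/
noncomputable def h (a : Fin 3) : g6 := F (.inl a) (.inl a)

/-- weights of the basis vectors of the standard representation -/
def wt : I6 → Wt
  | .inl a => Pi.single a 1
  | .inr a => Pi.single a (-1)

lemma h_apply (a : Fin 3) (i j : I6) : (h a).1 i j = if i = j then (wt i a : ℂ) else 0 := by
  rw [h, F_ll]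
  rcases i with i | i <;> rcases j with j | j
  · simp only [fromBlocks_apply₁₁, single_apply, wt, Sum.inl.injEq]
    by_cases h1 : i = j
    · subst h1
      by_cases h2 : a = i
      · subst h2; simp
      · simp [h2]
    · rw [if_neg (by rintro ⟨rfl, h3⟩; exact h1 h3), if_neg h1]
  · simp
  · simp
  · simp only [fromBlocks_apply₂₂, Matrix.neg_apply, single_apply, wt, Sum.inr.injEq]
    by_cases h1 : i = j
    · subst h1
      by_cases h2 : a = i
      · subst h2; simp
      · simp [h2]
    · rw [if_neg (by rintro ⟨rfl, h3⟩; exact h1 h3), if_neg h1, neg_zero]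

lemma lie_h_F (a : Fin 3) (i j : I6) :
    ⁅h a, F i j⁆ = ((wt i a : ℂ) - (wt j a : ℂ)) • F i j := by
  rw [lie_F, sub_smul]
  congr 1
  · rw [sum_eq_single i]
    · rw [h_apply, if_pos rfl]
    · intro k _ hk; rw [h_apply, if_neg hk, zero_smul]
    · intro h'; exact absurd (mem_univ i) h'
  · rw [sum_eq_single j]
    · rw [h_apply, if_pos rfl]
    · intro k _ hk; rw [h_apply, if_neg (fun h' => hk h'.symm), zero_smul]
    · intro h'; exact absurd (mem_univ j) h'

lemma lie_h_h (a b : Fin 3) : ⁅h a, h b⁆ = 0 := by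
  change ⁅h a, F (.inl b) (.inl b)⁆ = 0
  rw [lie_h_F, sub_self, zero_smul]

/-- index pairs of the positive roots -/
def pp : Fin 9 → I6 × I6 :=
  ![(.inl 0, .inl 1), (.inl 0, .inl 2), (.inl 1, .inl 2), (.inl 0, .inr 1), (.inl 0, .inr 2),
    (.inl 1, .inr 2), (.inl 0, .inr 0), (.inl 1, .inr 1), (.inl 2, .inr 2)]

/-- multiplicity (`1` for short, `2` for long roots) -/
noncomputable def mm : Fin 9 → ℂ := ![1, 1, 1, 1, 1, 1, 2, 2, 2]

lemma mm_ne_zero (k : Fin 9) : mm k ≠ 0 := by
  fin_cases k <;> simp [mm]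

/-- positive root vectors -/
noncomputable def ee (k : Fin 9) : g6 := (mm k)⁻¹ • F (pp k).1 (pp k).2
/-- negative root vectors -/
noncomputable def ff (k : Fin 9) : g6 := (mm k)⁻¹ • F (pp k).2 (pp k).1

lemma wt_pp (k : Fin 9) : wt (pp k).1 - wt (pp k).2 = pr k := by
  fin_cases k <;> (ext i; fin_cases i <;> simp [wt, pp, pr])

lemma lie_h_ee (a : Fin 3) (k : Fin 9) : ⁅h a, ee k⁆ = (pr k a : ℂ) • ee k := by
  rw [ee, lie_smul, lie_h_F, ← wt_pp, smul_comm, Pi.sub_apply, Int.cast_sub]

lemma lie_h_ff (a : Fin 3) (k : Fin 9) : ⁅h a, ff k⁆ = -(pr k a : ℂ) • ff k := by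
  rw [ff, lie_smul, lie_h_F, ← wt_pp, smul_comm, Pi.sub_apply, Int.cast_sub, neg_sub]

lemma F_ne_ll (a b : Fin 3) :
    ⁅F (.inl a) (.inl b), F (.inl b) (.inl a)⁆ = h a - h b := by
  rw [lie_F]
  congr 1
  · rw [sum_eq_single (.inl a)]
    · rw [F_ll]; simp [h]
    · intro k _ hk
      rw [F_ll]
      rcases k with k | k
      · have : a ≠ k := fun h' => hk (by rw [h'])
        simp [this]
      · simp
    · intro h'; exact absurd (mem_univ _) h'
  · rw [sum_eq_single (.inl b)]
    · rw [F_ll]; simp [h]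
    · intro k _ hk
      rw [F_ll]
      rcases k with k | k
      · have : b ≠ k := fun h' => hk (by rw [h'])
        simp [this]
      · simp
    · intro h'; exact absurd (mem_univ _) h'

lemma F_ne_lr {a b : Fin 3} (hab : a ≠ b) :
    ⁅F (.inl a) (.inr b), F (.inr b) (.inl a)⁆ = h a + h b := by
  rw [lie_F]
  rw [sum_eq_single (.inl a), sum_eq_single (.inr b)]
  · rw [F_lr, F_rr]; simp [h, hab, hab.symm]
  · intro k _ hk
    rw [F_lr]
    rcases k with k | k
    · simp
    · have : b ≠ k := fun h' => hk (by rw [h'])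
      simp [this, hab.symm]
  · intro h'; exact absurd (mem_univ _) h'
  · intro k _ hk
    rw [F_lr]
    rcases k with k | k
    · have : a ≠ k := fun h' => hk (by rw [h'])
      simp [this, hab]
    · simp
  · intro h'; exact absurd (mem_univ _) h'

lemma F_eq_lr (a : Fin 3) :
    ⁅F (.inl a) (.inr a), F (.inr a) (.inl a)⁆ = (4 : ℂ) • h a := by
  rw [lie_F]
  rw [sum_eq_single (.inl a), sum_eq_single (.inr a)]
  · rw [F_lr, F_rr]
    simp only [fromBlocks_apply₁₂, Matrix.add_apply, single_apply_same]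
    rw [smul_neg, sub_neg_eq_add, ← add_smul, h]
    norm_num
  · intro k _ hk
    rw [F_lr]
    rcases k with k | k
    · simp
    · have : a ≠ k := fun h' => hk (by rw [h'])
      simp [this]
  · intro h'; exact absurd (mem_univ _) h'
  · intro k _ hk
    rw [F_lr]
    rcases k with k | k
    · have : a ≠ k := fun h' => hk (by rw [h'])
      simp [this]
    · simp
  · intro h'; exact absurd (mem_univ _) h'

lemma lie_ee_ff (k : Fin 9) : mm k • ⁅ee k, ff k⁆ = ∑ a, (pr k a : ℂ) • h a := by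
  have h01 : (0 : Fin 3) ≠ 1 := by decide
  have h02 : (0 : Fin 3) ≠ 2 := by decide
  have h12 : (1 : Fin 3) ≠ 2 := by decide
  rw [ee, ff, smul_lie, lie_smul, Fin.sum_univ_three]
  fin_cases k
  · simp [mm, pp, pr, F_ne_ll 0 1, sub_eq_add_neg]
  · simp [mm, pp, pr, F_ne_ll 0 2, sub_eq_add_neg]
  · simp [mm, pp, pr, F_ne_ll 1 2, sub_eq_add_neg]
  · simp [mm, pp, pr, F_ne_lr h01]
  · simp [mm, pp, pr, F_ne_lr h02]
  · simp [mm, pp, pr, F_ne_lr h12]
  · simp [mm, pp, pr, F_eq_lr, smul_smul]; norm_num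
  · simp [mm, pp, pr, F_eq_lr, smul_smul]; norm_num
  · simp [mm, pp, pr, F_eq_lr, smul_smul]; norm_num

/-! ### The Casimir operator -/

lemma casimir_aux {A : Type*} [Ring A] [Algebra ℂ A] (x : I6 → I6 → ℂ) (f : I6 → I6 → A) :
    ∑ i, ∑ j, ((∑ k, x k i • f k j - ∑ k, x j k • f i k) * f j i +
      f i j * (∑ k, x k j • f k i - ∑ k, x i k • f j k)) = 0 := by
  have t1 : ∑ i, ∑ j, (∑ k, x k i • f k j) * f j i = ∑ i, ∑ j, ∑ k, x k i • (f k j * f j i) := by
    simp only [sum_mul, smul_mul_assoc]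
  have t4 : ∑ i, ∑ j, f i j * (∑ k, x i k • f j k) = ∑ i, ∑ j, ∑ k, x k i • (f k j * f j i) := by
    simp only [mul_sum, mul_smul_comm]
    have : ∀ i, ∑ j, ∑ k, x i k • (f i j * f j k) = ∑ k, ∑ j, x i k • (f i j * f j k) :=
      fun i => sum_comm
    simp only [this]
    rw [sum_comm]
    refine sum_congr rfl fun i _ => ?_
    rw [sum_comm]
  have t2 : ∑ i, ∑ j, (∑ k, x j k • f i k) * f j i = ∑ i, ∑ j, ∑ k, x j k • (f i k * f j i) := by
    simp only [sum_mul, smul_mul_assoc]
  have t3 : ∑ i, ∑ j, f i j * (∑ k, x k j • f k i) = ∑ i, ∑ j, ∑ k, x j k • (f i k * f j i) := by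
    simp only [mul_sum, mul_smul_comm]
    refine sum_congr rfl fun i _ => ?_
    rw [sum_comm]
  simp only [sub_mul, mul_sub, sum_add_distrib, sum_sub_distrib]
  rw [t1, t2, t3, t4]
  abel

section Module

variable (V : Type*) [AddCommGroup V] [Module ℂ V] [LieRingModule g6 V] [LieModule ℂ g6 V]

/-- the representation as a map to endomorphisms -/
noncomputable abbrev rp : g6 →ₗ⁅ℂ⁆ Module.End ℂ V := LieModule.toEnd ℂ g6 V

lemma rp_apply (x : g6) (v : V) : rp V x v = ⁅x, v⁆ := rfl

lemma rp_lie (x y : g6) : rp V ⁅x, y⁆ = rp V x * rp V y - rp V y * rp V x := by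
  rw [LieHom.map_lie, LieRing.of_associative_ring_bracket]

/-- twice the Casimir operator -/
noncomputable def C0 : Module.End ℂ V := ∑ i, ∑ j, rp V (F i j) * rp V (F j i)

lemma C0_comm (x : g6) : rp V x * C0 V = C0 V * rp V x := by
  rw [← sub_eq_zero]
  have key : ∀ i j, rp V x * (rp V (F i j) * rp V (F j i)) - (rp V (F i j) * rp V (F j i)) * rp V x
      = (∑ k, x.1 k i • rp V (F k j) - ∑ k, x.1 j k • rp V (F i k)) * rp V (F j i) +
      rp V (F i j) * (∑ k, x.1 k j • rp V (F k i) - ∑ k, x.1 i k • rp V (F j k)) := by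
    intro i j
    have e1 : ∑ k, x.1 k i • rp V (F k j) - ∑ k, x.1 j k • rp V (F i k) =
        rp V x * rp V (F i j) - rp V (F i j) * rp V x := by
      rw [← rp_lie, lie_F, map_sub, map_sum, map_sum]
      simp only [map_smul]
    have e2 : ∑ k, x.1 k j • rp V (F k i) - ∑ k, x.1 i k • rp V (F j k) =
        rp V x * rp V (F j i) - rp V (F j i) * rp V x := by
      rw [← rp_lie, lie_F, map_sub, map_sum, map_sum]
      simp only [map_smul]
    rw [e1, e2]
    noncomm_ring
  rw [C0, mul_sum, sum_mul, ← sum_sub_distrib]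
  rw [← casimir_aux (fun i j => x.1 i j) (fun i j => rp V (F i j))]
  refine sum_congr rfl fun i _ => ?_
  rw [mul_sum, sum_mul, ← sum_sub_distrib]
  refine sum_congr rfl fun j _ => ?_
  exact key i j

/-- the Casimir operator -/
noncomputable def Cas : Module.End ℂ V :=
  ∑ a, rp V (h a) * rp V (h a) +
    ∑ k, mm k • (rp V (ee k) * rp V (ff k) + rp V (ff k) * rp V (ee k))

lemma C0_eq : C0 V = (2 : ℂ) • Cas V := by
  have hF : ∀ a b, rp V (F (.inr a) (.inr b)) = - rp V (F (.inl b) (.inl a)) := by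
    intro a b; rw [F_rr, map_neg]
  have hs : ∀ a b, F (.inl a) (.inr b) = F (.inl b) (.inr a) := F_lr_comm
  have hs' : ∀ a b, F (.inr a) (.inl b) = F (.inr b) (.inl a) := F_rl_comm
  simp only [C0, Cas, Fintype.sum_sum_type, Fin.sum_univ_three]
  simp only [hF]
  simp only [Fin.sum_univ_succ, Fin.sum_univ_zero, ee, ff, map_smul, smul_mul_assoc,
    mul_smul_comm, h]
  simp only [pp, mm, Matrix.cons_val_zero, Matrix.cons_val_succ, inv_one, one_smul,
    Matrix.cons_val_fin_one]
  rw [hs 1 0, hs 2 0, hs 2 1, hs' 1 0, hs' 2 0, hs' 2 1]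
  generalize rp V (F (.inl 0) (.inl 0)) = a1
  generalize rp V (F (.inl 0) (.inl 1)) = a2
  generalize rp V (F (.inl 0) (.inl 2)) = a3
  generalize rp V (F (.inl 1) (.inl 0)) = a4
  generalize rp V (F (.inl 1) (.inl 1)) = a5
  generalize rp V (F (.inl 1) (.inl 2)) = a6
  generalize rp V (F (.inl 2) (.inl 0)) = a7
  generalize rp V (F (.inl 2) (.inl 1)) = a8
  generalize rp V (F (.inl 2) (.inl 2)) = a9
  generalize rp V (F (.inl 0) (.inr 0)) = b1
  generalize rp V (F (.inl 0) (.inr 1)) = b2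
  generalize rp V (F (.inl 0) (.inr 2)) = b3
  generalize rp V (F (.inl 1) (.inr 1)) = b5
  generalize rp V (F (.inl 1) (.inr 2)) = b6
  generalize rp V (F (.inl 2) (.inr 2)) = b9
  generalize rp V (F (.inr 0) (.inl 0)) = c1
  generalize rp V (F (.inr 0) (.inl 1)) = c2
  generalize rp V (F (.inr 0) (.inl 2)) = c3
  generalize rp V (F (.inr 1) (.inl 1)) = c5
  generalize rp V (F (.inr 1) (.inl 2)) = c6
  generalize rp V (F (.inr 2) (.inl 2)) = c9
  simp only [smul_add, smul_smul, neg_mul, mul_neg, neg_neg, add_zero]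
  norm_num
  simp only [two_smul]
  abel

lemma Cas_comm (x : g6) : rp V x * Cas V = Cas V * rp V x := by
  have h1 := C0_comm V x
  rw [C0_eq, mul_smul_comm, smul_mul_assoc] at h1
  exact smul_right_injective _ (two_ne_zero (α := ℂ)) h1

end Module

end Pool.Agent.Hhelper44.CG
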