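import Pool.Agent.Hhelper44.CG.HWMod

/-!
# Invariance of the weight multiplicities under the Weyl group
-/

set_option autoImplicit false
set_option linter.unusedSectionVars false

namespace Pool.Agent.Hhelper44.CG

open Finset Module

attribute [local instance 100] LieRing.ofAssociativeRing

section Exp

variable {A : Type*} [Ring A] [Algebra ℂ A]

/-- truncated exponential -/
noncomputable def tex (N : ℕ) (E : A) : A := ∑ n ∈ range N, ((n.factorial : ℂ)⁻¹) • E ^ n

lemma pow_comm2 {E X Y Z : A} (h1 : X * E = E * X + Y) (h2 : Y * E = E * Y + (2 : ℂ) • Z)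
    (h3 : Z * E = E * Z) (n : ℕ) :
    X * E ^ (n + 2) = E ^ (n + 2) * X + ((n : ℂ) + 2) • (E ^ (n + 1) * Y) +
      (((n : ℂ) + 2) * ((n : ℂ) + 1)) • (E ^ n * Z) := by
  induction n with
  | zero =>
    rw [zero_add, zero_add, pow_one, pow_zero, one_mul, sq, ← mul_assoc, h1, add_mul, mul_assoc,
      h1, h2, mul_add, Nat.cast_zero, zero_add, zero_add, mul_one, two_smul ℂ (E * Y)]
    rw [← mul_assoc]
    abel
  | succ n ih =>
    rw [show n + 1 + 2 = (n + 2) + 1 by ring, pow_succ E (n + 2), ← mul_assoc, ih, add_mul, add_mul,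
      mul_assoc (E ^ (n + 2)) X E, h1, smul_mul_assoc, smul_mul_assoc, mul_assoc (E ^ (n + 1)) Y E,
      h2, mul_assoc (E ^ n) Z E, h3, mul_add, mul_add, ← mul_assoc (E ^ (n + 2)) E X,
      ← mul_assoc (E ^ (n + 1)) E Y, ← mul_assoc (E ^ n) E Z, ← pow_succ, ← pow_succ, ← pow_succ,
      mul_smul_comm, smul_add, smul_smul]
    rw [show n + 1 + 1 = n + 2 by ring]
    push_cast
    have e1 : E ^ (n + 2) * Y + ((n : ℂ) + 2) • (E ^ (n + 2) * Y) =
        ((n : ℂ) + 1 + 2) • (E ^ (n + 2) * Y) := by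
      rw [← one_smul ℂ (E ^ (n + 2) * Y), smul_smul, ← add_smul, smul_smul]
      congr 1; ring
    have e2 : (((n : ℂ) + 2) * 2) • (E ^ (n + 1) * Z) + (((n : ℂ) + 2) * ((n : ℂ) + 1)) •
        (E ^ (n + 1) * Z) = (((n : ℂ) + 1 + 2) * ((n : ℂ) + 1 + 1)) • (E ^ (n + 1) * Z) := by
      rw [← add_smul]
      congr 1; ring
    rw [← e1, ← e2]
    abel

lemma tex_comm {N : ℕ} {E X Y Z : A} (hN : E ^ N = 0) (h1 : X * E = E * X + Y)
    (h2 : Y * E = E * Y + (2 : ℂ) • Z) (h3 : Z * E = E * Z) :
    X * tex (N + 2) E = tex (N + 2) E * (X + Y + Z) := by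
  have hN1 : E ^ (N + 1) = 0 := by rw [pow_succ, hN, zero_mul]
  have eX : tex (N + 2) E * X = ∑ n ∈ range N, (((n + 2).factorial : ℂ)⁻¹) • (E ^ (n + 2) * X) +
      E * X + X := by
    rw [tex, sum_mul, sum_range_succ', sum_range_succ']
    simp only [smul_mul_assoc]
    simp
  have eY : tex (N + 2) E * Y = ∑ n ∈ range N, (((n + 1).factorial : ℂ)⁻¹) • (E ^ (n + 1) * Y) +
      Y := by
    rw [tex, sum_range_succ, hN1, smul_zero, add_zero, sum_mul, sum_range_succ']
    simp only [smul_mul_assoc]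
    simp
  have eZ : tex (N + 2) E * Z = ∑ n ∈ range N, ((n.factorial : ℂ)⁻¹) • (E ^ n * Z) := by
    rw [tex, sum_range_succ, hN1, smul_zero, add_zero, sum_range_succ, hN, smul_zero, add_zero,
      sum_mul]
    simp only [smul_mul_assoc]
  rw [mul_add, mul_add, eX, eY, eZ]
  have e0 : X * tex (N + 2) E = ∑ n ∈ range N, (((n + 2).factorial : ℂ)⁻¹) • (X * E ^ (n + 2)) +
      X * E + X := by
    rw [tex, mul_sum, sum_range_succ', sum_range_succ']
    simp only [mul_smul_comm]
    simp
  rw [e0, h1]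
  have e3 : ∀ n ∈ range N, (((n + 2).factorial : ℂ)⁻¹) • (X * E ^ (n + 2)) =
      (((n + 2).factorial : ℂ)⁻¹) • (E ^ (n + 2) * X) +
      (((n + 1).factorial : ℂ)⁻¹) • (E ^ (n + 1) * Y) + ((n.factorial : ℂ)⁻¹) • (E ^ n * Z) := by
    intro n _
    have f2 : ((n + 2).factorial : ℂ) = ((n : ℂ) + 2) * ((n + 1).factorial : ℂ) := by
      rw [Nat.factorial_succ (n + 1)]; push_cast; ring
    have f1 : ((n + 1).factorial : ℂ) = ((n : ℂ) + 1) * (n.factorial : ℂ) := by
      rw [Nat.factorial_succ n]; push_cast; ring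
    have g0 : (n.factorial : ℂ) ≠ 0 := by exact_mod_cast n.factorial_ne_zero
    have g1 : ((n : ℂ) + 1) ≠ 0 := by exact_mod_cast Nat.succ_ne_zero n
    have g2 : ((n : ℂ) + 2) ≠ 0 := by exact_mod_cast Nat.succ_ne_zero (n + 1)
    rw [pow_comm2 h1 h2 h3, smul_add, smul_add, smul_smul, smul_smul]
    congr 2
    · congr 1
      rw [f2]; field_simp
    · rw [f2, f1]; field_simp
  rw [sum_congr rfl e3, sum_add_distrib, sum_add_distrib]
  abel

lemma tex_isUnit {N : ℕ} {E : A} (hN : E ^ N = 0) : IsUnit (tex (N + 2) E) := by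
  have h : tex (N + 2) E = (∑ n ∈ range (N + 1), (((n + 1).factorial : ℂ)⁻¹) • E ^ n) * E + 1 := by
    rw [tex, sum_range_succ', sum_mul]
    simp only [smul_mul_assoc, ← pow_succ]
    simp
  rw [h]
  apply IsNilpotent.isUnit_add_one
  refine ⟨N, ?_⟩
  rw [Commute.mul_pow, hN, mul_zero]
  apply Commute.sum_left
  intro n _
  apply Commute.smul_left
  exact Commute.pow_left (Commute.refl E) n

/-- The reflection element `exp(e) exp(-f) exp(e)`. -/
noncomputable def tau (N : ℕ) (E F : A) : A := tex (N + 2) E * tex (N + 2) (-F) * tex (N + 2) E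

lemma tau_isUnit {N : ℕ} {E F : A} (hE : E ^ N = 0) (hF : F ^ N = 0) : IsUnit (tau N E F) := by
  have hF' : (-F) ^ N = 0 := by rw [neg_pow, hF, mul_zero]
  exact ((tex_isUnit hE).mul (tex_isUnit hF')).mul (tex_isUnit hE)

lemma tau_comm {N : ℕ} {E F H X : A} {c : ℂ} (hE : E ^ N = 0) (hF : F ^ N = 0)
    (h1 : E * F - F * E = H) (h2 : H * E - E * H = (2 : ℂ) • E) (h3 : H * F - F * H = -((2 : ℂ) • F))
    (h4 : X * E - E * X = c • E) (h5 : X * F - F * X = -(c • F)) :
    X * tau N E F = tau N E F * (X - c • H) := by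
  have hF' : (-F) ^ N = 0 := by rw [neg_pow, hF, mul_zero]
  have a1 : X * tex (N + 2) E = tex (N + 2) E * (X + c • E) := by
    have := tex_comm (X := X) (Y := c • E) (Z := 0) hE (by rw [← h4]; abel) (by simp) (by simp)
    rw [this, add_zero]
  have a2 : X * tex (N + 2) (-F) = tex (N + 2) (-F) * (X + c • F) := by
    have := tex_comm (X := X) (Y := c • F) (Z := 0) hF' (by
      rw [mul_neg, neg_mul, ← sub_eq_zero]
      have : X * F = F * X - c • F := by rw [sub_eq_add_neg, ← h5]; abel
      rw [this]; abel) (by simp) (by simp)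
    rw [this, add_zero]
  have a3 : E * tex (N + 2) (-F) = tex (N + 2) (-F) * (E + -H + -F) := by
    apply tex_comm (X := E) (Y := -H) (Z := -F) hF'
    · rw [mul_neg, neg_mul, ← h1]; abel
    · rw [neg_mul_neg, neg_mul_neg, smul_neg]
      rw [← h3]; abel
    · rfl
  have a4 : H * tex (N + 2) E = tex (N + 2) E * (H + (2 : ℂ) • E) := by
    have := tex_comm (X := H) (Y := (2 : ℂ) • E) (Z := 0) hE (by rw [← h2]; abel) (by simp) (by simp)
    rw [this, add_zero]
  have a5 : E * tex (N + 2) E = tex (N + 2) E * E := by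
    have := tex_comm (X := E) (Y := 0) (Z := 0) hE (by simp) (by simp) (by simp)
    rw [this, add_zero, add_zero]
  rw [tau]
  calc X * (tex (N + 2) E * tex (N + 2) (-F) * tex (N + 2) E)
      = (X * tex (N + 2) E) * tex (N + 2) (-F) * tex (N + 2) E := by noncomm_ring
    _ = tex (N + 2) E * (X * tex (N + 2) (-F) + c • (E * tex (N + 2) (-F))) * tex (N + 2) E := by
        rw [a1, mul_assoc (tex (N + 2) E), add_mul, smul_mul_assoc]
    _ = tex (N + 2) E * (tex (N + 2) (-F) * (X + c • E - c • H)) * tex (N + 2) E := by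
        rw [a2, a3]
        congr 2
        rw [← mul_smul_comm, ← mul_add]
        congr 1
        rw [smul_add, smul_add, smul_neg, smul_neg]
        abel
    _ = tex (N + 2) E * tex (N + 2) (-F) * (X * tex (N + 2) E + c • (E * tex (N + 2) E)
          - c • (H * tex (N + 2) E)) := by
        rw [← mul_assoc, mul_assoc (tex (N + 2) E * tex (N + 2) (-F)), sub_mul, add_mul,
          smul_mul_assoc, smul_mul_assoc]
    _ = tex (N + 2) E * tex (N + 2) (-F) * (tex (N + 2) E * (X - c • H)) := by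
        rw [a1, a4, a5]
        congr 1
        rw [← mul_smul_comm, ← mul_smul_comm, ← mul_add, ← mul_sub]
        congr 1
        rw [smul_add, smul_smul, mul_comm c 2, mul_smul, two_smul]
        abel
    _ = tex (N + 2) E * tex (N + 2) (-F) * tex (N + 2) E * (X - c • H) := by
        rw [mul_assoc _ (tex (N + 2) E)]

end Exp

section Module

variable {V : Type*} [AddCommGroup V] [Module ℂ V] [LieRingModule g6 V] [LieModule ℂ g6 V]

lemma pow_ee_mem {β : Wt} {v : V} (hv : v ∈ wtSpace V β) (k : Fin 9) (n : ℕ) :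
    (rp V (ee k) ^ n) v ∈ wtSpace V (β + n • pr k) := by
  induction n with
  | zero => simpa using hv
  | succ n ih =>
    rw [pow_succ', Module.End.mul_apply, succ_nsmul, ← add_assoc]
    exact ee_mem ih k

lemma pow_ff_mem {β : Wt} {v : V} (hv : v ∈ wtSpace V β) (k : Fin 9) (n : ℕ) :
    (rp V (ff k) ^ n) v ∈ wtSpace V (β - n • pr k) := by
  induction n with
  | zero => simpa using hv
  | succ n ih =>
    rw [pow_succ', Module.End.mul_apply, succ_nsmul, ← sub_sub]
    exact ff_mem ih k

lemma tot_nsmul (n : ℕ) (β γ : Wt) : tot (β + n • γ) = tot β + n * tot γ := by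
  simp only [tot, Pi.add_apply, Pi.smul_apply, smul_eq_mul, ← natCast_zsmul]; ring

lemma tot_sub_nsmul (n : ℕ) (β γ : Wt) : tot (β - n • γ) = tot β - n * tot γ := by
  simp only [tot, Pi.sub_apply, Pi.smul_apply, smul_eq_mul, ← natCast_zsmul]; ring

variable {ι : Type*} [Fintype ι] {b : Basis ι ℂ V} {w : ι → Wt}

lemma exists_pow_zero (hb : IsWB b w) :
    ∃ N : ℕ, ∀ k, rp V (ee k) ^ N = 0 ∧ rp V (ff k) ^ N = 0 := by
  classical
  let N : ℕ := (univ : Finset (ι × ι)).sup (fun p => (tot (w p.1) - tot (w p.2)).toNat) + 1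
  have hN : ∀ i j, tot (w i) - tot (w j) < N := by
    intro i j
    have h1 : (tot (w i) - tot (w j)).toNat ≤
        (univ : Finset (ι × ι)).sup (fun p => (tot (w p.1) - tot (w p.2)).toNat) :=
      le_sup (f := fun p : ι × ι => (tot (w p.1) - tot (w p.2)).toNat) (mem_univ (i, j))
    have h2 := Int.self_le_toNat (tot (w i) - tot (w j))
    have h3 : (N : ℤ) = (((univ : Finset (ι × ι)).sup
      (fun p => (tot (w p.1) - tot (w p.2)).toNat) : ℕ) : ℤ) + 1 := by
      simp [N]
    omega
  refine ⟨N, fun k => ⟨?_, ?_⟩⟩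
  · apply b.ext
    intro i
    rw [LinearMap.zero_apply]
    by_contra h'
    have : b.repr ((rp V (ee k) ^ N) (b i)) ≠ 0 := fun h'' => h' (b.repr.map_eq_zero_iff.mp h'')
    obtain ⟨m, hm⟩ := Finsupp.ne_iff.mp this
    have h1 := repr_ne_zero hb (pow_ee_mem (hb i) k N) hm
    have h2 := hN m i
    rw [h1, tot_nsmul] at h2
    have h3 := (pr_pos k).2
    have h4 : (N : ℤ) * 1 ≤ N * tot (pr k) := mul_le_mul_of_nonneg_left h3 (by positivity)
    linarith
  · apply b.ext
    intro i
    rw [LinearMap.zero_apply]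
    by_contra h'
    have : b.repr ((rp V (ff k) ^ N) (b i)) ≠ 0 := fun h'' => h' (b.repr.map_eq_zero_iff.mp h'')
    obtain ⟨m, hm⟩ := Finsupp.ne_iff.mp this
    have h1 := repr_ne_zero hb (pow_ff_mem (hb i) k N) hm
    have h2 := hN i m
    rw [h1, tot_sub_nsmul] at h2
    have h3 := (pr_pos k).2
    have h4 : (N : ℤ) * 1 ≤ N * tot (pr k) := mul_le_mul_of_nonneg_left h3 (by positivity)
    linarith

/-- the reflections, as integral maps -/
lemma finrank_refl_le [FiniteDimensional ℂ V] (hb : IsWB b w) (k : Fin 9) {β γ : Wt}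
    (hγ : ∀ a, mm k * ((β a : ℂ) - (γ a : ℂ)) = (pr k a : ℂ) * ∑ c, (pr k c : ℂ) * (β c : ℂ)) :
    finrank ℂ (wtSpace V β) ≤ finrank ℂ (wtSpace V γ) := by
  obtain ⟨N, hN⟩ := exists_pow_zero hb
  have hu := tau_isUnit (hN k).1 (hN k).2
  have hcomm : ∀ a, rp V (h a) * tau N (rp V (ee k)) (rp V (ff k)) =
      tau N (rp V (ee k)) (rp V (ff k)) * (rp V (h a) - (pr k a : ℂ) • rp V ⁅ee k, ff k⁆) := by
    intro a
    apply tau_comm (hN k).1 (hN k).2
    · rw [← rp_lie]
    · rw [← rp_lie, ← map_smul]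
      congr 1
      have := (sl2 k).lie_h_e_nsmul
      rw [this, ofNat_smul_eq_nsmul ℂ 2 (ee k)]
    · rw [← rp_lie, ← map_smul, ← map_neg]
      congr 1
      have := (sl2 k).lie_h_f_nsmul
      rw [this, ofNat_smul_eq_nsmul ℂ 2 (ff k)]
    · rw [← rp_lie, ← map_smul, lie_h_ee]
    · rw [← rp_lie, ← map_smul, ← map_neg, lie_h_ff, neg_smul]
  have hmap : ∀ v ∈ wtSpace V β, tau N (rp V (ee k)) (rp V (ff k)) v ∈ wtSpace V γ := by
    intro v hv a
    have h1 := LinearMap.congr_fun (hcomm a) v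
    rw [Module.End.mul_apply, Module.End.mul_apply, LinearMap.sub_apply, LinearMap.smul_apply,
      rp_apply, rp_apply, rp_apply, hv a, lie_ef_wt hv k, smul_smul, ← sub_smul, map_smul] at h1
    rw [h1]
    congr 1
    have := hγ a
    have hm := mm_ne_zero k
    field_simp
    linear_combination this
  have hinj : Function.Injective (tau N (rp V (ee k)) (rp V (ff k)) : V →ₗ[ℂ] V) :=
    ((Module.End.isUnit_iff _).mp hu).1
  exact LinearMap.finrank_le_finrank_of_injective
    (f := (tau N (rp V (ee k)) (rp V (ff k))).restrict hmap) (by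
      intro x y hxy
      apply Subtype.ext
      apply hinj
      exact congrArg Subtype.val hxy)

lemma finrank_swp [FiniteDimensional ℂ V] (hb : IsWB b w) (i j : Fin 3) (k : Fin 9)
    (hk : mm k = 1) (hk' : pr k = Pi.single i 1 - Pi.single j 1) (hij : i ≠ j) (β : Wt) :
    finrank ℂ (wtSpace V (swp i j β)) = finrank ℂ (wtSpace V β) := by
  have key : ∀ β : Wt, finrank ℂ (wtSpace V β) ≤ finrank ℂ (wtSpace V (swp i j β)) := by
    intro β
    apply finrank_refl_le hb k
    intro a
    have hs : ∑ c, (pr k c : ℂ) * (β c : ℂ) = (β i : ℂ) - (β j : ℂ) := by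
      rw [hk']
      simp only [Pi.sub_apply, Int.cast_sub, sub_mul, sum_sub_distrib]
      congr 1
      · rw [sum_eq_single i]
        · simp
        · intro c _ hc; simp [hc]
        · intro h'; exact absurd (mem_univ _) h'
      · rw [sum_eq_single j]
        · simp
        · intro c _ hc; simp [hc]
        · intro h'; exact absurd (mem_univ _) h'
    rw [hk, one_mul, hs, hk', swp_apply]
    by_cases hai : a = i
    · subst hai
      rw [Equiv.swap_apply_left]
      simp [hij]
    · by_cases haj : a = j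
      · subst haj
        rw [Equiv.swap_apply_right]
        simp [hai]
      · rw [Equiv.swap_apply_of_ne_of_ne hai haj]
        simp [hai, haj]
  apply le_antisymm
  · have h1 := key (swp i j β)
    have h2 : swp i j (swp i j β) = β := (swp i j).left_inv β
    rwa [h2] at h1
  · exact key β

lemma finrank_ngt [FiniteDimensional ℂ V] (hb : IsWB b w) (i : Fin 3) (k : Fin 9)
    (hk : mm k = 2) (hk' : pr k = Pi.single i 2) (β : Wt) :
    finrank ℂ (wtSpace V (ngt i β)) = finrank ℂ (wtSpace V β) := by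
  have key : ∀ β : Wt, finrank ℂ (wtSpace V β) ≤ finrank ℂ (wtSpace V (ngt i β)) := by
    intro β
    apply finrank_refl_le hb k
    intro a
    have hs : ∑ c, (pr k c : ℂ) * (β c : ℂ) = 2 * (β i : ℂ) := by
      rw [hk', sum_eq_single i]
      · simp
      · intro c _ hc; simp [hc]
      · intro h'; exact absurd (mem_univ _) h'
    rw [hk, hs, hk', ngt_apply]
    by_cases hai : a = i
    · subst hai
      simp; ring
    · simp [hai]
  apply le_antisymm
  · have h1 := key (ngt i β)
    have h2 : ngt i (ngt i β) = β := (ngt i).left_inv β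
    rwa [h2] at h1
  · exact key β

lemma act_eq_of_coeff {g : Wt ≃+ Wt} {f : GA} (h : ∀ β, f.coeff (g β) = f.coeff β) :
    act g f = f := by
  apply ga_ext
  intro β
  obtain ⟨γ, rfl⟩ := g.surjective β
  rw [act_coeff, h]

/-- the character is invariant under the Weyl group -/
theorem char_symm [FiniteDimensional ℂ V] (hb : IsWB b w) : Symm (∑ i, ex (w i)) := by
  refine ⟨?_, ?_, ?_, ?_⟩
  · apply act_eq_of_coeff; intro β
    rw [coeff_char hb, coeff_char hb, finrank_swp hb 0 1 0 rfl (by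
      ext i; fin_cases i <;> simp [pr]) (by decide)]
  · apply act_eq_of_coeff; intro β
    rw [coeff_char hb, coeff_char hb, finrank_swp hb 0 2 1 rfl (by
      ext i; fin_cases i <;> simp [pr]) (by decide)]
  · apply act_eq_of_coeff; intro β
    rw [coeff_char hb, coeff_char hb, finrank_swp hb 1 2 2 rfl (by
      ext i; fin_cases i <;> simp [pr]) (by decide)]
  · intro i
    apply act_eq_of_coeff; intro β
    rw [coeff_char hb, coeff_char hb]
    fin_cases i
    · rw [finrank_ngt hb _ 6 rfl (by ext i; fin_cases i <;> simp [pr])]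
    · rw [finrank_ngt hb _ 7 rfl (by ext i; fin_cases i <;> simp [pr])]
    · rw [finrank_ngt hb _ 8 rfl (by ext i; fin_cases i <;> simp [pr])]

end Module

end Pool.Agent.Hhelper44.CG
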