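import Pool.Agent.Hhelper44.CG.SpRel

/-!
# Weight spaces, weight bases and weighted traces
-/

set_option autoImplicit false

namespace Pool.Agent.Hhelper44.CG

open Finset Module

attribute [local instance 100] LieRing.ofAssociativeRing

variable (V : Type*) [AddCommGroup V] [Module ℂ V] [LieRingModule g6 V] [LieModule ℂ g6 V]

/-- the weight space -/
def wtSpace (β : Wt) : Submodule ℂ V where
  carrier := {v | ∀ a, ⁅h a, v⁆ = (β a : ℂ) • v}
  add_mem' := by
    intro u v hu hv a
    rw [lie_add, hu a, hv a, smul_add]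
  zero_mem' := by intro a; simp
  smul_mem' := by
    intro c v hv a
    rw [lie_smul, hv a, smul_comm]

variable {V}
set_option linter.unusedSectionVars false

lemma mem_wtSpace {β : Wt} {v : V} : v ∈ wtSpace V β ↔ ∀ a, ⁅h a, v⁆ = (β a : ℂ) • v := Iff.rfl

lemma ee_mem {β : Wt} {v : V} (hv : v ∈ wtSpace V β) (k : Fin 9) :
    ⁅ee k, v⁆ ∈ wtSpace V (β + pr k) := by
  intro a
  rw [leibniz_lie, lie_h_ee, hv a, smul_lie, lie_smul, ← add_smul, Pi.add_apply, Int.cast_add,
    add_comm]

lemma ff_mem {β : Wt} {v : V} (hv : v ∈ wtSpace V β) (k : Fin 9) :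
    ⁅ff k, v⁆ ∈ wtSpace V (β - pr k) := by
  intro a
  rw [leibniz_lie, lie_h_ff, hv a, smul_lie, lie_smul, ← add_smul, Pi.sub_apply, Int.cast_sub]
  congr 1
  ring

lemma h_mem {β : Wt} {v : V} (hv : v ∈ wtSpace V β) (a : Fin 3) : ⁅h a, v⁆ ∈ wtSpace V β := by
  rw [hv a]
  exact Submodule.smul_mem _ _ hv

section Basis

variable {ι : Type*} (b : Basis ι ℂ V) (w : ι → Wt)

/-- a basis consisting of weight vectors -/
def IsWB : Prop := ∀ i, b i ∈ wtSpace V (w i)

variable {b w}

lemma repr_ne_zero (hb : IsWB b w) {β : Wt} {v : V} (hv : v ∈ wtSpace V β) {i : ι}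
    (hi : b.repr v i ≠ 0) : w i = β := by
  ext a
  have h1 : b.repr (⁅h a, v⁆) i = (w i a : ℂ) * b.repr v i := by
    have : ∀ u : V, b.repr (⁅h a, u⁆) i = (w i a : ℂ) * b.repr u i := by
      intro u
      have hlin : (b.coord i).comp (rp V (h a) : V →ₗ[ℂ] V) = (w i a : ℂ) • b.coord i := by
        apply b.ext
        intro j
        rw [LinearMap.comp_apply, LinearMap.smul_apply, rp_apply, hb j a, map_smul]
        simp only [Basis.coord_apply, Basis.repr_self, smul_eq_mul]
        by_cases hij : j = i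
        · subst hij; simp
        · simp [Finsupp.single_apply, hij]
      have := LinearMap.congr_fun hlin u
      simpa using this
    exact this v
  rw [hv a, map_smul, Finsupp.smul_apply, smul_eq_mul] at h1
  have := mul_right_cancel₀ hi h1
  exact_mod_cast this.symm

variable [Fintype ι] [DecidableEq ι] (b w)

/-- the weighted trace -/
noncomputable def wtr (A : Module.End ℂ V) : GA := ∑ i, (LinearMap.toMatrix b b A i i) • ex (w i)

lemma wtr_add (A B : Module.End ℂ V) : wtr b w (A + B) = wtr b w A + wtr b w B := by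
  simp only [wtr, map_add, Matrix.add_apply, add_smul, sum_add_distrib]

lemma wtr_sub (A B : Module.End ℂ V) : wtr b w (A - B) = wtr b w A - wtr b w B := by
  simp only [wtr, map_sub, Matrix.sub_apply, sub_smul, sum_sub_distrib]

lemma wtr_smul (c : ℂ) (A : Module.End ℂ V) : wtr b w (c • A) = c • wtr b w A := by
  simp only [wtr, map_smul, Matrix.smul_apply, smul_sum, smul_eq_mul, mul_smul]

lemma wtr_sum {κ : Type*} (s : Finset κ) (A : κ → Module.End ℂ V) :
    wtr b w (∑ k ∈ s, A k) = ∑ k ∈ s, wtr b w (A k) := by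
  classical
  induction s using Finset.induction_on with
  | empty => simp [wtr]
  | insert k s hk ih => rw [sum_insert hk, wtr_add, ih, sum_insert hk]

lemma wtr_one : wtr b w 1 = ∑ i, ex (w i) := by
  simp [wtr]

variable {b w}

lemma wtr_h_mul (hb : IsWB b w) (a : Fin 3) (A : Module.End ℂ V) :
    wtr b w (rp V (h a) * A) = D a (wtr b w A) := by
  have hdiag : ∀ i j, LinearMap.toMatrix b b (rp V (h a)) i j = if i = j then (w i a : ℂ) else 0 := by
    intro i j
    rw [LinearMap.toMatrix_apply, rp_apply, hb j a, map_smul, Finsupp.smul_apply,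
      Basis.repr_self, Finsupp.single_apply, smul_eq_mul]
    by_cases h' : i = j
    · subst h'; simp
    · rw [if_neg h', if_neg (fun h'' => h' h''.symm), mul_zero]
  unfold wtr
  rw [map_sum]
  refine sum_congr rfl fun i _ => ?_
  rw [map_smul, D_ex, smul_smul, LinearMap.toMatrix_mul, Matrix.mul_apply]
  congr 1
  rw [sum_eq_single i]
  · rw [hdiag, if_pos rfl, mul_comm]
  · intro j _ hj
    rw [hdiag, if_neg (fun h' => hj h'.symm), zero_mul]
  · intro h'; exact absurd (mem_univ i) h'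

lemma wtr_cyc (hb : IsWB b w) {α : Wt} {E : Module.End ℂ V}
    (hE : ∀ β, ∀ v ∈ wtSpace V β, E v ∈ wtSpace V (β + α)) (B : Module.End ℂ V) :
    wtr b w (E * B) = ex α * wtr b w (B * E) := by
  have hent : ∀ i j, LinearMap.toMatrix b b E i j ≠ 0 → w i = w j + α := by
    intro i j hij
    rw [LinearMap.toMatrix_apply] at hij
    exact repr_ne_zero hb (hE _ _ (hb j)) hij
  unfold wtr
  simp only [LinearMap.toMatrix_mul, Matrix.mul_apply, sum_smul, mul_sum]
  rw [sum_comm]
  refine sum_congr rfl fun j _ => sum_congr rfl fun i _ => ?_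
  by_cases h0 : LinearMap.toMatrix b b E i j = 0
  · rw [h0, zero_mul, mul_zero, zero_smul, zero_smul, mul_zero]
  · rw [hent i j h0, ex_add, mul_smul_comm, mul_comm (ex (w j)) (ex α), mul_comm (LinearMap.toMatrix b b E i j)]

lemma wtr_root (hb : IsWB b w) {A : Module.End ℂ V} (hA : ∀ x, rp V x * A = A * rp V x)
    (k : Fin 9) :
    wtr b w (rp V (ff k) * rp V (ee k) * A) = ex (-pr k) * wtr b w (rp V (ee k) * rp V (ff k) * A) ∧
    mm k • ((1 - ex (-pr k)) * wtr b w (rp V (ee k) * rp V (ff k) * A)) =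
      ∑ a, (pr k a : ℂ) • D a (wtr b w A) := by
  have h1 : wtr b w (rp V (ee k) * rp V (ff k) * A) =
      ex (pr k) * wtr b w (rp V (ff k) * rp V (ee k) * A) := by
    rw [mul_assoc, wtr_cyc hb (α := pr k) (fun β v hv => ee_mem hv k), mul_assoc, mul_assoc,
      hA (ee k)]
  have h2 : wtr b w (rp V (ff k) * rp V (ee k) * A) =
      ex (-pr k) * wtr b w (rp V (ee k) * rp V (ff k) * A) := by
    rw [h1, ← mul_assoc, ← ex_add, neg_add_cancel, ex_zero, one_mul]
  refine ⟨h2, ?_⟩
  have h3 : (1 - ex (-pr k)) * wtr b w (rp V (ee k) * rp V (ff k) * A) =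
      wtr b w (rp V ⁅ee k, ff k⁆ * A) := by
    rw [sub_mul, one_mul, ← h2, ← wtr_sub, rp_lie, sub_mul]
  rw [h3, ← wtr_smul, ← smul_mul_assoc, ← map_smul, lie_ee_ff, map_sum, sum_mul, wtr_sum]
  refine sum_congr rfl fun a _ => ?_
  rw [map_smul, smul_mul_assoc, wtr_smul, wtr_h_mul hb]

lemma wtr_Cas (hb : IsWB b w) {A : Module.End ℂ V} (hA : ∀ x, rp V x * A = A * rp V x) :
    wtr b w (Cas V * A) = Lap (wtr b w A) +
      ∑ k, mm k • ((1 + ex (-pr k)) * wtr b w (rp V (ee k) * rp V (ff k) * A)) := by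
  rw [Cas, add_mul, wtr_add, sum_mul, sum_mul, wtr_sum, wtr_sum, Lap_eq]
  congr 1
  · refine sum_congr rfl fun a _ => ?_
    rw [mul_assoc, wtr_h_mul hb, wtr_h_mul hb]
  · refine sum_congr rfl fun k _ => ?_
    rw [smul_mul_assoc, wtr_smul, add_mul, wtr_add, (wtr_root hb hA k).1, add_mul, one_mul]

lemma rho_sq : (∑ a, ((rho a : ℤ) : ℂ) ^ 2) = 14 := by
  simp [Fin.sum_univ_three, rho]; norm_num

theorem Dl_wtr_Cas (hb : IsWB b w) {A : Module.End ℂ V} (hA : ∀ x, rp V x * A = A * rp V x) :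
    Dl * wtr b w (Cas V * A) = Lap (Dl * wtr b w A) - (14 : ℂ) • (Dl * wtr b w A) := by
  rw [wtr_Cas hb hA, Lap_mul]
  have hL : Lap Dl = (14 : ℂ) • Dl := by rw [Dl_eq, Lap_alt, rho_sq]
  have h2 : Dl * ∑ k, mm k • ((1 + ex (-pr k)) * wtr b w (rp V (ee k) * rp V (ff k) * A)) =
      2 * ∑ a, D a Dl * D a (wtr b w A) := by
    have e1 : ∀ k, Dl * (mm k • ((1 + ex (-pr k)) * wtr b w (rp V (ee k) * rp V (ff k) * A))) =
        ∑ a, ((pr k a : ℂ) • ((1 + ex (-pr k)) * G k)) * D a (wtr b w A) := by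
      intro k
      calc Dl * (mm k • ((1 + ex (-pr k)) * wtr b w (rp V (ee k) * rp V (ff k) * A)))
          = ((1 + ex (-pr k)) * G k) *
            (mm k • ((1 - ex (-pr k)) * wtr b w (rp V (ee k) * rp V (ff k) * A))) := by
            rw [← G_mul k, mul_smul_comm, mul_smul_comm]
            congr 1
            ring
        _ = _ := by
            rw [(wtr_root hb hA k).2, mul_sum]
            refine sum_congr rfl fun a _ => ?_
            rw [mul_smul_comm, smul_mul_assoc]
    rw [mul_sum]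
    simp only [e1]
    rw [sum_comm, mul_sum]
    refine sum_congr rfl fun a _ => ?_
    rw [← mul_assoc, D_Dl, sum_mul]
  rw [mul_add, h2, hL, smul_mul_assoc]
  ring

theorem coeff_Dl_wtr_Cas (hb : IsWB b w) {A : Module.End ℂ V} (hA : ∀ x, rp V x * A = A * rp V x)
    (γ : Wt) : (Dl * wtr b w (Cas V * A)).coeff γ =
      ((∑ a, (γ a : ℂ) ^ 2) - 14) * (Dl * wtr b w A).coeff γ := by
  rw [Dl_wtr_Cas hb hA, AddMonoidAlgebra.coeff_sub, Finsupp.sub_apply, Lap_coeff,
    AddMonoidAlgebra.coeff_smul, Finsupp.smul_apply, smul_eq_mul]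
  ring

open Polynomial in
theorem coeff_Dl_wtr_aeval (hb : IsWB b w) (q : ℂ[X]) (γ : Wt) :
    (Dl * wtr b w (aeval (Cas V) q)).coeff γ =
      q.eval ((∑ a, (γ a : ℂ) ^ 2) - 14) * (Dl * wtr b w 1).coeff γ := by
  have hcomm : ∀ n : ℕ, ∀ x, rp V x * (Cas V) ^ n = (Cas V) ^ n * rp V x := by
    intro n x
    exact (Commute.pow_right (Cas_comm V x) n)
  have hpow : ∀ n : ℕ, (Dl * wtr b w ((Cas V) ^ n)).coeff γ =
      ((∑ a, (γ a : ℂ) ^ 2) - 14) ^ n * (Dl * wtr b w 1).coeff γ := by
    intro n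
    induction n with
    | zero => simp
    | succ n ih =>
      rw [pow_succ', coeff_Dl_wtr_Cas hb (hcomm n), ih]
      ring
  induction q using Polynomial.induction_on' with
  | add p q hp hq =>
    rw [map_add, wtr_add, mul_add, AddMonoidAlgebra.coeff_add, Finsupp.add_apply, hp, hq, eval_add]
    ring
  | monomial n a =>
    rw [aeval_monomial, eval_monomial, ← Algebra.smul_def, wtr_smul, mul_smul_comm,
      AddMonoidAlgebra.coeff_smul, Finsupp.smul_apply, hpow, smul_eq_mul]
    ring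

end Basis

end Pool.Agent.Hhelper44.CG
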